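import Pool.Agent.LibSW40.B4d

/-!
Row B5 (MEDIUM). **Siegel-Walfisz** for `ψ(t; q, a)`, uniformly in `t ≤ e^x`.

PLAN. `J = ⌈(K + 3) log x⌉`; for `j < J` the window `(t_j', t_j]`, `t_j = min t e^(x-j)`, `t_j' = min t e^(x-j-1)` by `window (K+2)` at
`x - j` (`x - j ≥ x/2`, `q ≤ x^K ≤ (x-j)^(K+2)`): error `e^(x-j) (x/2)^(-(K+2))`, sum over `j` `≤ 2 e^x 2^(K+2) x^(-(K+2))`. The rest
`n ≤ e^(x-J) ≤ e^x x^(-(K+3))`: `∑ Λ n ≤ (number)·x`, and `t/φ(q)` likewise. (`window` must hold for all `x' ≥ x/2`: use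
`eventually_atTop` to get a threshold.)
-/

set_option autoImplicit false

namespace Pool.Agent.LibSW40

open Filter Finset
open scoped ArithmeticFunction.vonMangoldt

private noncomputable def b5_E (q a : ℕ) (t : ℝ) : ℝ :=
  |(∑ n ∈ (Ioc 0 ⌊t⌋₊).filter (fun n => n ≡ a [MOD q]), Λ n) - t / (q.totient : ℝ)|

/-- One window. -/
private theorem b5_step (q a : ℕ) (t1 t2 R : ℝ) (h12 : t1 ≤ t2)
    (h : |(∑ n ∈ (Ioc ⌊t1⌋₊ ⌊t2⌋₊).filter (fun n => n ≡ a [MOD q]), Λ n) - (t2 - t1) / (q.totient : ℝ)| ≤ R) :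
    b5_E q a t2 ≤ b5_E q a t1 + R := by
  unfold b5_E
  have hs : (∑ n ∈ (Ioc 0 ⌊t2⌋₊).filter (fun n => n ≡ a [MOD q]), Λ n) =
      (∑ n ∈ (Ioc 0 ⌊t1⌋₊).filter (fun n => n ≡ a [MOD q]), Λ n) +
        ∑ n ∈ (Ioc ⌊t1⌋₊ ⌊t2⌋₊).filter (fun n => n ≡ a [MOD q]), Λ n := by
    rw [Finset.sum_filter, Finset.sum_filter, Finset.sum_filter]
    exact (Finset.sum_Ioc_consecutive _ (Nat.zero_le _) (Nat.floor_le_floor h12)).symm
  rw [hs]
  have h2 : (∑ n ∈ (Ioc 0 ⌊t1⌋₊).filter (fun n => n ≡ a [MOD q]), Λ n) +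
        (∑ n ∈ (Ioc ⌊t1⌋₊ ⌊t2⌋₊).filter (fun n => n ≡ a [MOD q]), Λ n) - t2 / (q.totient : ℝ) =
      ((∑ n ∈ (Ioc 0 ⌊t1⌋₊).filter (fun n => n ≡ a [MOD q]), Λ n) - t1 / (q.totient : ℝ)) +
      ((∑ n ∈ (Ioc ⌊t1⌋₊ ⌊t2⌋₊).filter (fun n => n ≡ a [MOD q]), Λ n) - (t2 - t1) / (q.totient : ℝ)) := by
    rw [sub_div]
    ring
  rw [h2]
  exact (abs_add_le _ _).trans (add_le_add le_rfl h)

/-- The trivial bound. -/
private theorem b5_triv (q a : ℕ) (hq : 1 ≤ q) (x t : ℝ) (hx : 1 ≤ x) (ht : 0 ≤ t) (htx : t ≤ Real.exp x) :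
    b5_E q a t ≤ x * t := by
  unfold b5_E
  have hS0 : 0 ≤ ∑ n ∈ (Ioc 0 ⌊t⌋₊).filter (fun n => n ≡ a [MOD q]), Λ n :=
    Finset.sum_nonneg fun n _ => ArithmeticFunction.vonMangoldt_nonneg
  have hS1 : ∑ n ∈ (Ioc 0 ⌊t⌋₊).filter (fun n => n ≡ a [MOD q]), Λ n ≤ x * t := by
    have h1 : ∀ n ∈ (Ioc 0 ⌊t⌋₊).filter (fun n => n ≡ a [MOD q]), Λ n ≤ x := by
      intro n hn
      rw [Finset.mem_filter, Finset.mem_Ioc] at hn
      have hn0 : (0 : ℝ) < n := by exact_mod_cast hn.1.1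
      have hn1 : (n : ℝ) ≤ t := (Nat.le_floor_iff ht).1 hn.1.2
      refine ArithmeticFunction.vonMangoldt_le_log.trans ?_
      rw [Real.log_le_iff_le_exp hn0]
      linarith
    refine (Finset.sum_le_card_nsmul _ _ _ h1).trans ?_
    rw [nsmul_eq_mul]
    have h2 : (((Ioc 0 ⌊t⌋₊).filter (fun n => n ≡ a [MOD q])).card : ℝ) ≤ t := by
      have h3 : ((Ioc 0 ⌊t⌋₊).filter (fun n => n ≡ a [MOD q])).card ≤ ⌊t⌋₊ := by
        refine (Finset.card_filter_le _ _).trans ?_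
        rw [Nat.card_Ioc]
        omega
      exact (Nat.cast_le.2 h3).trans (Nat.floor_le ht)
    have := mul_le_mul_of_nonneg_right h2 (by linarith : (0 : ℝ) ≤ x)
    linarith
  have hT0 : 0 ≤ t / (q.totient : ℝ) := by positivity
  have hT1 : t / (q.totient : ℝ) ≤ x * t := by
    have h1 : (1 : ℝ) ≤ q.totient := by
      exact_mod_cast Nat.totient_pos.2 hq
    have h2 : t / (q.totient : ℝ) ≤ t := div_le_self ht h1
    have h3 : t ≤ x * t := le_mul_of_one_le_left ht hx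
    linarith
  rw [abs_le]
  constructor <;> linarith

/-- The induction over the windows. -/
private theorem b5_ind (q a : ℕ) (x D R0 : ℝ) (J : ℕ) (hD : 0 ≤ D)
    (h0 : ∀ t : ℝ, 0 ≤ t → t ≤ Real.exp (x - J) → b5_E q a t ≤ R0)
    (hw : ∀ y : ℝ, x - J ≤ y → y ≤ x → ∀ t1 t2 : ℝ, Real.exp (y - 1) ≤ t1 → t1 ≤ t2 → t2 ≤ Real.exp y →
      |(∑ n ∈ (Ioc ⌊t1⌋₊ ⌊t2⌋₊).filter (fun n => n ≡ a [MOD q]), Λ n) - (t2 - t1) / (q.totient : ℝ)| ≤
        Real.exp y * D) (j : ℕ) (hj : j ≤ J) :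
    ∀ t : ℝ, 0 ≤ t → t ≤ Real.exp (x - J + j) → b5_E q a t ≤ R0 + 2 * D * Real.exp (x - J + j) := by
  induction j with
  | zero =>
      intro t ht htx
      rw [Nat.cast_zero, add_zero] at htx ⊢
      have h1 := h0 t ht htx
      have h2 : 0 ≤ 2 * D * Real.exp (x - J) := by positivity
      linarith
  | succ j ih =>
      intro t ht htx
      have hih := ih (by omega)
      push_cast at htx ⊢
      have he : Real.exp (x - J + (j + 1)) = Real.exp (x - J + j) * Real.exp 1 := by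
        rw [← Real.exp_add]
        congr 1
        ring
      have he1 : 2 ≤ Real.exp 1 := by
        have := Real.add_one_le_exp (1 : ℝ)
        linarith
      have hep : 0 < Real.exp (x - J + j) := Real.exp_pos _
      rcases le_total t (Real.exp (x - J + j)) with hc | hc
      · have h1 := hih t ht hc
        have h2 : 2 * D * Real.exp (x - J + j) ≤ 2 * D * Real.exp (x - J + (j + 1)) := by
          refine mul_le_mul_of_nonneg_left (Real.exp_le_exp.2 (by linarith)) (by positivity)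
        linarith
      · have h1 := hih _ hep.le le_rfl
        have hjJ : ((j : ℝ) + 1) ≤ J := by exact_mod_cast hj
        have hj0 : (0 : ℝ) ≤ j := Nat.cast_nonneg j
        have h2 := hw (x - J + (j + 1)) (by linarith) (by linarith) (Real.exp (x - J + j)) t
          (Real.exp_le_exp.2 (by linarith)) hc htx
        have h3 := b5_step q a _ _ _ hc h2
        rw [he] at h3 ⊢
        have h4 : 2 * D * Real.exp (x - J + j) + Real.exp (x - J + j) * Real.exp 1 * D ≤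
            2 * D * (Real.exp (x - J + j) * Real.exp 1) := by
          have h5 : 0 ≤ D * Real.exp (x - J + j) := by positivity
          nlinarith
        linarith

theorem sw_psi (K : ℕ) : ∀ᶠ x : ℝ in atTop, ∀ q a : ℕ, 1 ≤ q → (q : ℝ) ≤ x ^ K → a.Coprime q →
    ∀ t : ℝ, 0 ≤ t → t ≤ Real.exp x →
      |(∑ n ∈ (Ioc 0 ⌊t⌋₊).filter (fun n => n ≡ a [MOD q]), Λ n) - t / (q.totient : ℝ)| ≤
        Real.exp x * (x ^ K)⁻¹ := by
  obtain ⟨X0, hX0⟩ := eventually_atTop.1 (window (K + 2))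
  have hlog : ∀ᶠ x : ℝ in atTop, ((K : ℝ) + 3) * Real.log x + 1 ≤ x / 2 := by
    have h1 := Real.isLittleO_log_id_atTop.bound (c := 1 / (4 * ((K : ℝ) + 3))) (by positivity)
    filter_upwards [h1, eventually_ge_atTop (4 : ℝ)] with x hx hx4
    have h2 : Real.log x ≤ 1 / (4 * ((K : ℝ) + 3)) * x := by
      have h3 := (le_abs_self (Real.log x)).trans hx
      simp only [id, Real.norm_eq_abs] at h3
      rwa [abs_of_nonneg (by linarith : (0 : ℝ) ≤ x)] at h3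
    have hK : (0 : ℝ) < (K : ℝ) + 3 := by positivity
    have h4 : ((K : ℝ) + 3) * Real.log x ≤ x / 4 := by
      calc ((K : ℝ) + 3) * Real.log x ≤ ((K : ℝ) + 3) * (1 / (4 * ((K : ℝ) + 3)) * x) :=
            mul_le_mul_of_nonneg_left h2 hK.le
        _ = x / 4 := by field_simp
    linarith
  filter_upwards [hlog, eventually_ge_atTop (max 1 (2 * X0)), eventually_ge_atTop ((2 : ℝ) ^ (K + 3) + 1)]
    with x hx1 hx2 hx3 q a hq hqx hco t ht htx
  have hx10 : 1 ≤ x := (le_max_left _ _).trans hx2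
  have hxX : 2 * X0 ≤ x := (le_max_right _ _).trans hx2
  have hxpos : 0 < x := by linarith
  have hlogx : 0 ≤ Real.log x := Real.log_nonneg hx10
  set J : ℕ := ⌈((K : ℝ) + 3) * Real.log x⌉₊ with hJ
  have hJ1 : ((K : ℝ) + 3) * Real.log x ≤ J := Nat.le_ceil _
  have hJ2 : (J : ℝ) ≤ x / 2 := by
    have h1 : (J : ℝ) < ((K : ℝ) + 3) * Real.log x + 1 := Nat.ceil_lt_add_one (by positivity)
    linarith
  have hpow1 : (1 : ℝ) ≤ x ^ K := one_le_pow₀ hx10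
  have h2K : (1 : ℝ) ≤ 2 ^ (K + 3) := one_le_pow₀ (by norm_num)
  have hx2' : (2 : ℝ) ^ (K + 3) + 1 ≤ x ^ 2 := by
    have : x ≤ x ^ 2 := by nlinarith
    linarith
  -- the bottom
  have hexpJ : Real.exp (x - J) ≤ Real.exp x * (x ^ (K + 3))⁻¹ := by
    rw [Real.exp_sub, div_eq_mul_inv]
    refine mul_le_mul_of_nonneg_left ?_ (Real.exp_pos x).le
    refine inv_anti₀ (by positivity) ?_
    have h1 : x ^ (K + 3) = Real.exp (((K : ℝ) + 3) * Real.log x) := by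
      rw [mul_comm, Real.exp_mul, Real.exp_log hxpos]
      rw [← Real.rpow_natCast]
      push_cast
      rfl
    rw [h1]
    exact Real.exp_le_exp.2 hJ1
  have hbot : ∀ t : ℝ, 0 ≤ t → t ≤ Real.exp (x - J) → b5_E q a t ≤ Real.exp x * (x ^ (K + 2))⁻¹ := by
    intro t ht0 ht1
    have hJ0 : (0 : ℝ) ≤ J := Nat.cast_nonneg J
    have h1 : t ≤ Real.exp x := ht1.trans (Real.exp_le_exp.2 (by linarith))
    refine (b5_triv q a hq x t hx10 ht0 h1).trans ?_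
    calc x * t ≤ x * (Real.exp x * (x ^ (K + 3))⁻¹) :=
          mul_le_mul_of_nonneg_left (ht1.trans hexpJ) hxpos.le
      _ = Real.exp x * (x ^ (K + 2))⁻¹ := by
          rw [pow_succ x (K + 2), mul_inv]
          field_simp
  -- the windows
  have hwin : ∀ y : ℝ, x - J ≤ y → y ≤ x → ∀ t1 t2 : ℝ, Real.exp (y - 1) ≤ t1 → t1 ≤ t2 → t2 ≤ Real.exp y →
      |(∑ n ∈ (Ioc ⌊t1⌋₊ ⌊t2⌋₊).filter (fun n => n ≡ a [MOD q]), Λ n) - (t2 - t1) / (q.totient : ℝ)| ≤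
        Real.exp y * ((x / 2) ^ (K + 2))⁻¹ := by
    intro y hy1 hy2 t1 t2 h1 h2 h3
    have hyx : x / 2 ≤ y := by linarith
    have hqy : (q : ℝ) ≤ y ^ (K + 2) := by
      have h4 : (x / 2) ^ (K + 2) ≤ y ^ (K + 2) := pow_le_pow_left₀ (by positivity) hyx _
      have h5 : x ^ K ≤ (x / 2) ^ (K + 2) := by
        rw [div_pow, le_div_iff₀ (by positivity), pow_add x K 2]
        refine mul_le_mul_of_nonneg_left ?_ (by positivity)
        have h6 : (2 : ℝ) ^ (K + 2) ≤ 2 ^ (K + 3) := pow_le_pow_right₀ (by norm_num) (by omega)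
        linarith
      linarith
    refine (hX0 y (by linarith) q a hq hqy hco t1 t2 h1 h2 h3).trans ?_
    refine mul_le_mul_of_nonneg_left ?_ (Real.exp_pos y).le
    refine inv_anti₀ (by positivity) ?_
    exact pow_le_pow_left₀ (by positivity) hyx _
  have hfin := b5_ind q a x ((x / 2) ^ (K + 2))⁻¹ (Real.exp x * (x ^ (K + 2))⁻¹) J (by positivity) hbot hwin J le_rfl
    t ht (by rw [sub_add_cancel]; exact htx)
  rw [sub_add_cancel] at hfin
  refine le_trans hfin ?_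
  have h7 : 2 * ((x / 2) ^ (K + 2))⁻¹ = 2 ^ (K + 3) * (x ^ (K + 2))⁻¹ := by
    rw [div_pow, inv_div, pow_succ (2 : ℝ) (K + 2)]
    field_simp
  have h8 : Real.exp x * (x ^ (K + 2))⁻¹ + 2 * ((x / 2) ^ (K + 2))⁻¹ * Real.exp x =
      Real.exp x * ((2 ^ (K + 3) + 1) * (x ^ (K + 2))⁻¹) := by
    rw [h7]
    ring
  rw [h8]
  refine mul_le_mul_of_nonneg_left ?_ (Real.exp_pos x).le
  rw [pow_add x K 2, mul_inv]
  calc (2 ^ (K + 3) + 1) * ((x ^ K)⁻¹ * (x ^ 2)⁻¹) ≤ x ^ 2 * ((x ^ K)⁻¹ * (x ^ 2)⁻¹) :=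
        mul_le_mul_of_nonneg_right hx2' (by positivity)
    _ = (x ^ K)⁻¹ := by
        field_simp

end Pool.Agent.LibSW40
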