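import Pool.Agent.LibSW40.B5

/-!
Row B6 (MEDIUM). **Siegel-Walfisz** for primes in intervals, natural numbers.

PLAN. `ψ - θ` (proper prime powers `≤ e^x`) contributes `≤ e^(x/2) x²·2` (at most `√t` bases for each exponent `2 ≤ k ≤ x/log 2`,
each term `≤ x`; or Mathlib `Chebyshev`). `sw_psi (K+1)` at `t = u` and `t = v`, twice; here `e^x = N (log N)^K·` : `x = log(N (log N)^K)`,
`log N ≤ x ≤ 2 log N`, apply `sw_psi (4K+4)`: error `N (log N)^K x^(-(4K+4)) ≤ N (log N)^(-K) / 4`.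
-/

set_option autoImplicit false

namespace Pool.Agent.LibSW40

open Filter Finset
open scoped ArithmeticFunction.vonMangoldt

/-- primes in progressions of modulus `≤ Q0` in all intervals up to `X`, error `η` -/
def SWb (Q0 X : ℕ) (η : ℝ) : Prop := ∀ Q r u v : ℕ, 1 ≤ Q → Q ≤ Q0 → r.Coprime Q → u ≤ v → v ≤ X →
  |(∑ p ∈ (Ioc u v).filter (fun p => p.Prime ∧ p ≡ r [MOD Q]), Real.log p) -
    ((v : ℝ) - u) / (Q.totient : ℝ)| ≤ η

private theorem b6_psi (Q r u v : ℕ) (huv : u ≤ v) (X x : ℝ) (hx : 0 ≤ x) (hX : X = Real.exp x)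
    (hv : (v : ℝ) ≤ X) :
    |(∑ p ∈ (Ioc u v).filter (fun p => p.Prime ∧ p ≡ r [MOD Q]), Real.log p) -
      ((∑ n ∈ (Ioc 0 v).filter (fun n => n ≡ r [MOD Q]), Λ n) -
        ∑ n ∈ (Ioc 0 u).filter (fun n => n ≡ r [MOD Q]), Λ n)| ≤ 2 * √X * x := by
  classical
  have h1 : (∑ n ∈ (Ioc 0 u).filter (fun n => n ≡ r [MOD Q]), Λ n) +
      ∑ n ∈ (Ioc u v).filter (fun n => n ≡ r [MOD Q]), Λ n =
      ∑ n ∈ (Ioc 0 v).filter (fun n => n ≡ r [MOD Q]), Λ n := by
    rw [Finset.sum_filter, Finset.sum_filter, Finset.sum_filter]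
    exact Finset.sum_Ioc_consecutive _ (Nat.zero_le u) huv
  have h2 : ∑ n ∈ (Ioc u v).filter (fun n => n ≡ r [MOD Q]), Λ n =
      (∑ p ∈ (Ioc u v).filter (fun p => p.Prime ∧ p ≡ r [MOD Q]), Real.log p) +
      ∑ n ∈ (Ioc u v).filter (fun n => n ≡ r [MOD Q] ∧ ¬ n.Prime), Λ n := by
    rw [← Finset.sum_filter_add_sum_filter_not ((Ioc u v).filter (fun n => n ≡ r [MOD Q]))
      (fun n => n.Prime), Finset.filter_filter, Finset.filter_filter]
    congr 1
    rw [show (Ioc u v).filter (fun p => p.Prime ∧ p ≡ r [MOD Q]) =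
      (Ioc u v).filter (fun p => p ≡ r [MOD Q] ∧ p.Prime) from
      Finset.filter_congr fun _ _ => and_comm]
    refine Finset.sum_congr rfl fun p hp => ?_
    exact ArithmeticFunction.vonMangoldt_apply_prime (Finset.mem_filter.1 hp).2.2
  have h3 : ∑ n ∈ (Ioc u v).filter (fun n => n ≡ r [MOD Q] ∧ ¬ n.Prime), Λ n ≤
      ∑ n ∈ (Ioc 0 v).filter (fun n => ¬ n.Prime), Λ n := by
    apply Finset.sum_le_sum_of_subset_of_nonneg
    · intro n hn
      rw [Finset.mem_filter, Finset.mem_Ioc] at hn ⊢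
      exact ⟨⟨by omega, hn.1.2⟩, hn.2.2⟩
    · intro n _ _
      exact ArithmeticFunction.vonMangoldt_nonneg
  have h4 : 0 ≤ ∑ n ∈ (Ioc u v).filter (fun n => n ≡ r [MOD Q] ∧ ¬ n.Prime), Λ n :=
    Finset.sum_nonneg fun n _ => ArithmeticFunction.vonMangoldt_nonneg
  have h5 : ∑ n ∈ (Ioc 0 v).filter (fun n => ¬ n.Prime), Λ n ≤ 2 * √X * x := by
    rcases Nat.eq_zero_or_pos v with rfl | hv0
    · rw [Finset.Ioc_self, Finset.filter_empty, Finset.sum_empty]
      positivity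
    · have h6 := Chebyshev.psi_sub_theta_eq_sum_not_prime (v : ℝ)
      rw [Nat.floor_natCast] at h6
      rw [← h6]
      have hv1 : (1 : ℝ) ≤ v := by exact_mod_cast hv0
      refine (Chebyshev.psi_sub_theta_le hv1).trans ?_
      have h7 : √(v : ℝ) ≤ √X := Real.sqrt_le_sqrt hv
      have h8 : Real.log v ≤ x := by
        rw [← Real.log_exp x, ← hX]
        exact Real.log_le_log (by linarith) hv
      have h9 : 0 ≤ Real.log (v : ℝ) := Real.log_nonneg hv1
      have h10 := Real.sqrt_nonneg (v : ℝ)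
      calc 2 * √(v : ℝ) * Real.log v ≤ 2 * √X * Real.log v := by
            apply mul_le_mul_of_nonneg_right _ h9
            linarith
        _ ≤ 2 * √X * x := mul_le_mul_of_nonneg_left h8 (by positivity)
  rw [← h1, h2, abs_le]
  constructor <;> linarith

theorem SWb_holds (K : ℕ) : ∀ᶠ N : ℕ in atTop,
    SWb ⌊Real.log N ^ K⌋₊ ⌊(N : ℝ) * Real.log N ^ K⌋₊ (N * (Real.log N ^ K)⁻¹) := by
  have hcast : Tendsto (fun N : ℕ => (N : ℝ)) atTop atTop := tendsto_natCast_atTop_atTop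
  have hlog : Tendsto (fun N : ℕ => Real.log N) atTop atTop :=
    Real.tendsto_log_atTop.comp hcast
  have hL2 : ∀ᶠ N : ℕ in atTop, 2 ≤ Real.log N := hlog.eventually_ge_atTop 2
  have hbig : ∀ᶠ N : ℕ in atTop, 64 * Real.log N ^ (3 * K + 2) ≤ N := by
    have h1 := (Real.isLittleO_pow_log_id_atTop (n := 3 * K + 2)).bound
      (show (0 : ℝ) < 1 / 64 by norm_num)
    filter_upwards [hcast.eventually h1, hL2] with N hN hL
    have h2 : 0 ≤ Real.log N ^ (3 * K + 2) := by positivity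
    rw [Real.norm_of_nonneg h2, id, Real.norm_of_nonneg (Nat.cast_nonneg N)] at hN
    linarith
  have hxt : Tendsto (fun N : ℕ => Real.log ((N : ℝ) * Real.log N ^ K)) atTop atTop := by
    refine tendsto_atTop_mono' atTop ?_ hlog
    filter_upwards [hL2, eventually_ge_atTop 1] with N hL hN
    have h1 : (1 : ℝ) ≤ N := by exact_mod_cast hN
    refine Real.log_le_log (by linarith) ?_
    have h2 : 1 ≤ Real.log N ^ K := one_le_pow₀ (by linarith)
    nlinarith
  filter_upwards [hxt.eventually (sw_psi (4 * K + 4)), hL2, hbig, eventually_ge_atTop 1]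
    with N hP hL hB hN1
  set L := Real.log N with hLdef
  have hN : (1 : ℝ) ≤ N := by exact_mod_cast hN1
  have hN0 : (0 : ℝ) < N := by linarith
  have hL0 : 0 < L := by linarith
  have hLK : 0 < L ^ K := pow_pos hL0 K
  set x := Real.log ((N : ℝ) * L ^ K) with hxdef
  have hex : Real.exp x = N * L ^ K := Real.exp_log (mul_pos hN0 hLK)
  have hLx : L ≤ x := by
    refine Real.log_le_log hN0 ?_
    have h2 : 1 ≤ L ^ K := one_le_pow₀ (by linarith)
    nlinarith
  have hLKN : L ^ K ≤ N := by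
    have h1 : L ^ K ≤ L ^ (3 * K + 2) := pow_le_pow_right₀ (by linarith) (by omega)
    have h2 : 0 ≤ L ^ (3 * K + 2) := by positivity
    linarith
  have hx2 : x ≤ 2 * L := by
    have h1 : x ≤ Real.log ((N : ℝ) * N) :=
      Real.log_le_log (mul_pos hN0 hLK) (mul_le_mul_of_nonneg_left hLKN hN0.le)
    rw [Real.log_mul hN0.ne' hN0.ne'] at h1
    linarith
  have hx0 : 0 < x := by linarith
  intro Q r u v hQ1 hQ hr huv hv
  have hQ' : (Q : ℝ) ≤ x ^ (4 * K + 4) := by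
    have h1 : (Q : ℝ) ≤ L ^ K := (Nat.le_floor_iff hLK.le).1 hQ
    have h2 : L ^ K ≤ x ^ K := pow_le_pow_left₀ hL0.le hLx K
    have h3 : x ^ K ≤ x ^ (4 * K + 4) := pow_le_pow_right₀ (by linarith) (by omega)
    linarith
  have hvx : (v : ℝ) ≤ Real.exp x := by
    rw [hex]
    exact (Nat.le_floor_iff (mul_pos hN0 hLK).le).1 hv
  have hux : (u : ℝ) ≤ Real.exp x := le_trans (by exact_mod_cast huv) hvx
  have hPv := hP Q r hQ1 hQ' hr v (Nat.cast_nonneg v) hvx
  have hPu := hP Q r hQ1 hQ' hr u (Nat.cast_nonneg u) hux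
  rw [Nat.floor_natCast] at hPv hPu
  have hpsi := b6_psi Q r u v huv (Real.exp x) x hx0.le rfl hvx
  -- error terms
  have hE1 : Real.exp x * (x ^ (4 * K + 4))⁻¹ ≤ N * (L ^ K)⁻¹ / 4 := by
    have h1 : L ^ (4 * K + 4) ≤ x ^ (4 * K + 4) := pow_le_pow_left₀ hL0.le hLx _
    have h2 : (x ^ (4 * K + 4))⁻¹ ≤ (L ^ (4 * K + 4))⁻¹ :=
      inv_anti₀ (by positivity) h1
    have h3 : Real.exp x * (x ^ (4 * K + 4))⁻¹ ≤ N * L ^ K * (L ^ (4 * K + 4))⁻¹ := by
      rw [hex]
      exact mul_le_mul_of_nonneg_left h2 (by positivity)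
    have h4 : (4 : ℝ) ≤ L ^ (2 * K + 4) := by
      calc (4 : ℝ) = 2 ^ 2 := by norm_num
        _ ≤ 2 ^ (2 * K + 4) := pow_le_pow_right₀ (by norm_num) (by omega)
        _ ≤ L ^ (2 * K + 4) := pow_le_pow_left₀ (by norm_num) hL _
    refine h3.trans ?_
    rw [le_div_iff₀ (by norm_num : (0 : ℝ) < 4)]
    have h5 : L ^ (4 * K + 4) = L ^ K * L ^ K * L ^ (2 * K + 4) := by
      rw [← pow_add, ← pow_add]
      congr 1
      ring
    rw [h5]
    have h6 : (N : ℝ) * L ^ K * (L ^ K * L ^ K * L ^ (2 * K + 4))⁻¹ * 4 =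
        N * (L ^ K)⁻¹ * (4 / L ^ (2 * K + 4)) := by
      field_simp
    rw [h6]
    have h7 : 4 / L ^ (2 * K + 4) ≤ 1 := (div_le_one (by positivity)).2 h4
    have h8 : 0 ≤ (N : ℝ) * (L ^ K)⁻¹ := by positivity
    nlinarith
  have hE2 : 2 * √(Real.exp x) * x ≤ N * (L ^ K)⁻¹ / 2 := by
    have h1 : √(Real.exp x) ≤ N / (8 * L ^ (K + 1)) := by
      rw [Real.sqrt_le_iff]
      refine ⟨by positivity, ?_⟩
      rw [hex, div_pow, le_div_iff₀ (by positivity)]
      have h2 : (N : ℝ) * L ^ K * (8 * L ^ (K + 1)) ^ 2 = N * (64 * L ^ (3 * K + 2)) := by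
        have h3 : L ^ (3 * K + 2) = L ^ K * (L ^ (K + 1)) ^ 2 := by
          rw [← pow_mul, ← pow_add]
          congr 1
          ring
        rw [h3]
        ring
      rw [h2, sq]
      exact mul_le_mul_of_nonneg_left hB hN0.le
    calc 2 * √(Real.exp x) * x ≤ 2 * (N / (8 * L ^ (K + 1))) * (2 * L) := by
          apply mul_le_mul _ hx2 hx0.le (by positivity)
          linarith
      _ = N * (L ^ K)⁻¹ / 2 := by
          rw [pow_succ]
          field_simp
          ring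
  have hsplit : ((v : ℝ) - u) / (Q.totient : ℝ) = v / (Q.totient : ℝ) - u / (Q.totient : ℝ) :=
    sub_div _ _ _
  rw [hsplit]
  rw [abs_le] at hPv hPu hpsi ⊢
  constructor <;> linarith [hPv.1, hPv.2, hPu.1, hPu.2, hpsi.1, hpsi.2]

end Pool.Agent.LibSW40
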