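import Pool.Agent.LibSW40.Defs

/-!
Row S2b (MEDIUM). `ζ L(χ₁) L(χ₂) L(χ₁ χ₂) = ∑ a_n n^(-s)` with `a_n ≥ 0`, `a_1 = 1`.

PLAN. `a = z * (χ₂ · z)` (Dirichlet convolution) with `z = DirichletCharacter.zetaMul χ₁ = 1 * χ₁`
(`Mathlib/NumberTheory/LSeries/Nonvanishing.lean`), `χ₂ · z = χ₂ * (χ₁ χ₂)`: `LSeries_convolution`; values
`mulc χ₁ χ₂ n = χ₁ n χ₂ n` (see `cf_mul_conj` in `LibPL63/B0a.lean`). `a` is multiplicative; at `p^k`, with `α = χ₁ p`,
`β = χ₂ p ∈ {0, 1, -1}`, `a (p^k)` is the coefficient of `X^k` in `1/((1-X)(1-αX)(1-βX)(1-αβX))`; `r_i = ∑_{j ≤ i} α^j ≥ 0`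
(`zetaMul_prime_pow_nonneg`), `a (p^k) = ∑_{i+j=k} r_i β^j r_j`: clear for `β = 0, 1`; for `β = -1`: `α = 0`: `∑ (-1)^j ∈ {0,1}`;
`α = 1` and `α = -1`: the same multiset `{1,1,-1,-1}`, coefficient of `1/(1-X²)²`. (Any other proof is fine, e.g. symmetric in the
two characters: `a = (1 * χ₁) * χ₂ · (1 * χ₁) = (1 * χ₂) * χ₁ · (1 * χ₂)`.)
-/

set_option autoImplicit false

namespace Pool.Agent.LibSW40

open Complex DirichletCharacter
open scoped ComplexOrder

section s2b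

open ArithmeticFunction

private theorem s2b_val {q₁ q₂ : ℕ} [NeZero q₁] [NeZero q₂] (χ₁ : DirichletCharacter ℂ q₁)
    (χ₂ : DirichletCharacter ℂ q₂) (n : ℕ) :
    mulc χ₁ χ₂ (n : ZMod (q₁ * q₂)) = χ₁ (n : ZMod q₁) * χ₂ (n : ZMod q₂) := by
  unfold mulc
  rw [MulChar.mul_apply]
  by_cases hn : IsUnit (n : ZMod (q₁ * q₂))
  · have h1 := changeLevel_eq_cast_of_dvd χ₁ (Nat.dvd_mul_right q₁ q₂) hn.unit
    have h2 := changeLevel_eq_cast_of_dvd χ₂ (Nat.dvd_mul_left q₂ q₁) hn.unit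
    rw [IsUnit.unit_spec] at h1 h2
    rw [h1, h2, ZMod.cast_natCast (Nat.dvd_mul_right q₁ q₂),
      ZMod.cast_natCast (Nat.dvd_mul_left q₂ q₁)]
  · rw [MulChar.map_nonunit _ hn, zero_mul]
    have h3 : ¬ n.Coprime (q₁ * q₂) := fun h => hn ((ZMod.isUnit_iff_coprime _ _).2 h)
    rw [Nat.coprime_mul_iff_right, not_and_or] at h3
    rcases h3 with h3 | h3
    · rw [MulChar.map_nonunit χ₁ (fun h => h3 ((ZMod.isUnit_iff_coprime _ _).1 h)), zero_mul]
    · rw [MulChar.map_nonunit χ₂ (fun h => h3 ((ZMod.isUnit_iff_coprime _ _).1 h)), mul_zero]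

private theorem s2b_zm {q : ℕ} (χ : DirichletCharacter ℂ q) {p : ℕ} (hp : p.Prime) (i : ℕ) :
    zetaMul χ (p ^ i) = ∑ j ∈ Finset.range (i + 1), χ (p : ZMod q) ^ j := by
  simp only [zetaMul, toArithmeticFunction, coe_zeta_mul_apply, coe_mk,
    Nat.sum_divisors_prime_pow hp, pow_eq_zero_iff', hp.ne_zero, ne_eq, false_and, ↓reduceIte,
    Nat.cast_pow, map_pow]

private theorem s2b_alt (c : ℂ) (n : ℕ) :
    ∑ j ∈ Finset.range n, (-1 : ℂ) ^ j * (((j : ℂ) + 1) * (c - j + 1)) =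
      (c + 2) / 4 + (-1 : ℂ) ^ n * ((n : ℂ) ^ 2 / 2 - (c + 1) * n / 2 - (c + 2) / 4) := by
  induction n with
  | zero => simp
  | succ n ih =>
    rw [Finset.sum_range_succ, ih, pow_succ]
    push_cast
    ring

private theorem s2b_alt' (k : ℕ) :
    (0 : ℂ) ≤ ∑ i ∈ Finset.range (k + 1), ((i : ℂ) + 1) * ((-1 : ℂ) ^ (k - i) *
      (((k - i : ℕ) : ℂ) + 1)) := by
  have h1 : ∑ i ∈ Finset.range (k + 1), ((i : ℂ) + 1) * ((-1 : ℂ) ^ (k - i) *
      (((k - i : ℕ) : ℂ) + 1)) =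
      ∑ j ∈ Finset.range (k + 1), (-1 : ℂ) ^ j * (((j : ℂ) + 1) * ((k : ℂ) - j + 1)) := by
    rw [← Finset.sum_range_reflect]
    refine Finset.sum_congr rfl fun j hj => ?_
    have hj' : j ≤ k := Nat.lt_succ_iff.1 (Finset.mem_range.1 hj)
    have e1 : k + 1 - 1 - j = k - j := by omega
    have e2 : k - (k - j) = j := by omega
    rw [e1, e2, Nat.cast_sub hj']
    ring
  rw [h1, s2b_alt]
  have h2 : ((k : ℂ) + 2) / 4 + (-1 : ℂ) ^ (k + 1) * (((k + 1 : ℕ) : ℂ) ^ 2 / 2 -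
      ((k : ℂ) + 1) * ((k + 1 : ℕ) : ℂ) / 2 - ((k : ℂ) + 2) / 4) =
      ((k : ℂ) + 2) / 4 * (1 + (-1 : ℂ) ^ k) := by
    rw [pow_succ]
    push_cast
    ring
  rw [h2]
  rcases Nat.even_or_odd k with hk | hk
  · rw [hk.neg_one_pow]
    have h3 : ((k : ℂ) + 2) / 4 * (1 + 1) = ((((k : ℝ) + 2) / 4 * (1 + 1) : ℝ) : ℂ) := by
      push_cast
      ring
    rw [h3]
    exact Complex.zero_le_real.2 (by positivity)
  · rw [hk.neg_one_pow]
    simp

private theorem s2b_pp (α β : ℂ) (hα : α = 0 ∨ α = 1 ∨ α = -1) (hβ : β = 0 ∨ β = 1 ∨ β = -1)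
    (k : ℕ) :
    0 ≤ ∑ i ∈ Finset.range (k + 1), (∑ j ∈ Finset.range (i + 1), α ^ j) *
      (β ^ (k - i) * ∑ j ∈ Finset.range (k - i + 1), α ^ j) := by
  have hr : ∀ i : ℕ, 0 ≤ ∑ j ∈ Finset.range (i + 1), α ^ j := by
    intro i
    rcases hα with h | h | h
    · refine Finset.sum_nonneg fun i _ ↦ ?_
      simp only [h, le_refl, pow_nonneg]
    · refine Finset.sum_nonneg fun i _ ↦ ?_
      simp only [h, one_pow, zero_le_one]
    · simp only [h, neg_one_geom_sum]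
      split_ifs
      exacts [le_rfl, zero_le_one]
  rcases hβ with hb | hb | hb
  · refine Finset.sum_nonneg fun i _ ↦ mul_nonneg (hr i) (mul_nonneg ?_ (hr (k - i)))
    simp only [hb, le_refl, pow_nonneg]
  · refine Finset.sum_nonneg fun i _ ↦ mul_nonneg (hr i) (mul_nonneg ?_ (hr (k - i)))
    simp only [hb, one_pow, zero_le_one]
  · subst hb
    rcases hα with h | h | h
    · subst h
      have h1 : ∀ i : ℕ, ∑ j ∈ Finset.range (i + 1), (0 : ℂ) ^ j = 1 := by
        intro i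
        rw [Finset.sum_range_succ', Finset.sum_eq_zero, pow_zero, zero_add]
        intro j _
        rw [zero_pow (Nat.succ_ne_zero j)]
      simp only [h1, one_mul, mul_one]
      rw [← Finset.sum_range_reflect]
      have h2 : ∑ j ∈ Finset.range (k + 1), (-1 : ℂ) ^ (k - (k + 1 - 1 - j)) =
          ∑ j ∈ Finset.range (k + 1), (-1 : ℂ) ^ j := by
        refine Finset.sum_congr rfl fun j hj => ?_
        have hj' : j ≤ k := Nat.lt_succ_iff.1 (Finset.mem_range.1 hj)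
        have e1 : k - (k + 1 - 1 - j) = j := by omega
        rw [e1]
      rw [h2, neg_one_geom_sum]
      split_ifs
      exacts [le_rfl, zero_le_one]
    · subst h
      simp only [one_pow, Finset.sum_const, Finset.card_range, nsmul_eq_mul, mul_one]
      have h2 := s2b_alt' k
      push_cast at h2 ⊢
      exact h2
    · subst h
      refine Finset.sum_nonneg fun i _ ↦ ?_
      rw [neg_one_geom_sum, neg_one_geom_sum]
      by_cases h3 : _root_.Even (k - i + 1)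
      · rw [if_pos h3, mul_zero, mul_zero]
      · rw [if_neg h3]
        have h4 : _root_.Even (k - i) := by
          rw [Nat.even_add_one, not_not] at h3
          exact h3
        rw [h4.neg_one_pow]
        split_ifs
        · simp
        · simp

private theorem s2b_main {q₁ q₂ : ℕ} [NeZero q₁] [NeZero q₂] (χ₁ : DirichletCharacter ℂ q₁)
    (χ₂ : DirichletCharacter ℂ q₂) (h₁ : χ₁ ^ 2 = 1) (h₂ : χ₂ ^ 2 = 1) :
    ∃ a : ℕ → ℂ, (∀ n, 0 ≤ a n) ∧ a 1 = 1 ∧ ∀ s : ℂ, 1 < s.re → LSeriesSummable a s ∧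
      LSeries a s = riemannZeta s * LFunction χ₁ s * LFunction χ₂ s * LFunction (mulc χ₁ χ₂) s := by
  set c₂ : ArithmeticFunction ℂ := toArithmeticFunction (χ₂ ·) with hc₂
  set c₃ : ArithmeticFunction ℂ := toArithmeticFunction (mulc χ₁ χ₂ ·) with hc₃
  have hb : c₂ * c₃ = c₂.pmul (zetaMul χ₁) := by
    ext n
    rcases eq_or_ne n 0 with rfl | hn
    · simp
    rw [ArithmeticFunction.mul_apply, pmul_apply, zetaMul, ArithmeticFunction.mul_apply,
      Finset.mul_sum]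
    refine Finset.sum_congr rfl fun x hx => ?_
    obtain ⟨hx1, _⟩ := Nat.mem_divisorsAntidiagonal.1 hx
    have hx2 : x.1 ≠ 0 := by
      intro h
      rw [h, zero_mul] at hx1
      exact hn hx1.symm
    have hx3 : x.2 ≠ 0 := by
      intro h
      rw [h, mul_zero] at hx1
      exact hn hx1.symm
    rw [hc₂, hc₃, ← apply_eq_toArithmeticFunction_apply _ hx2,
      ← apply_eq_toArithmeticFunction_apply _ hx3, ← apply_eq_toArithmeticFunction_apply _ hn,
      ← apply_eq_toArithmeticFunction_apply _ hx3, s2b_val, natCoe_apply, zeta_apply_ne hx2,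
      ← hx1, Nat.cast_mul, map_mul, Nat.cast_one]
    ring
  have hmul : (zetaMul χ₁ * (c₂ * c₃)).IsMultiplicative := by
    rw [hb]
    exact (isMultiplicative_zetaMul χ₁).mul
      ((isMultiplicative_toArithmeticFunction χ₂).pmul (isMultiplicative_zetaMul χ₁))
  refine ⟨fun n => (zetaMul χ₁ * (c₂ * c₃)) n, ?_, ?_, ?_⟩
  · intro n
    rcases eq_or_ne n 0 with rfl | hn
    · simp only [ArithmeticFunction.map_zero, le_refl]
    have hpp : ∀ p ∈ n.primeFactors, 0 ≤ (zetaMul χ₁ * (c₂ * c₃)) (p ^ n.factorization p) := by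
      intro p hp
      have hpr := Nat.prime_of_mem_primeFactors hp
      set k := n.factorization p
      have hα := MulChar.isQuadratic_iff_sq_eq_one.mpr h₁ (p : ZMod q₁)
      have hβ := MulChar.isQuadratic_iff_sq_eq_one.mpr h₂ (p : ZMod q₂)
      have h1 := s2b_pp (χ₁ (p : ZMod q₁)) (χ₂ (p : ZMod q₂)) hα hβ k
      have h2 : (zetaMul χ₁ * (c₂ * c₃)) (p ^ k) =
          ∑ i ∈ Finset.range (k + 1), (∑ j ∈ Finset.range (i + 1), χ₁ (p : ZMod q₁) ^ j) *
            (χ₂ (p : ZMod q₂) ^ (k - i) *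
              ∑ j ∈ Finset.range (k - i + 1), χ₁ (p : ZMod q₁) ^ j) := by
        rw [hb, ArithmeticFunction.mul_apply, Nat.sum_divisorsAntidiagonal
          (f := fun x y => (zetaMul χ₁) x * (c₂.pmul (zetaMul χ₁)) y),
          Nat.sum_divisors_prime_pow hpr]
        refine Finset.sum_congr rfl fun i hi => ?_
        have hi' : i ≤ k := Nat.lt_succ_iff.1 (Finset.mem_range.1 hi)
        have h3 : p ^ k / p ^ i = p ^ (k - i) := Nat.pow_div hi' hpr.pos
        have h4 : p ^ (k - i) ≠ 0 := pow_ne_zero _ hpr.ne_zero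
        rw [h3, pmul_apply, s2b_zm χ₁ hpr, s2b_zm χ₁ hpr, hc₂,
          ← apply_eq_toArithmeticFunction_apply _ h4, Nat.cast_pow, map_pow]
      rw [h2]
      exact h1
    have h5 := hmul.multiplicative_factorization _ hn
    show 0 ≤ (zetaMul χ₁ * (c₂ * c₃)) n
    rw [h5]
    exact Finset.prod_nonneg fun p hp => hpp p hp
  · exact hmul.map_one
  · intro s hs
    have hs1 : LSeriesSummable (fun n => zetaMul χ₁ n) s := LSeriesSummable_zetaMul χ₁ hs
    have hs2 : LSeriesSummable (fun n => c₂ n) s :=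
      (LSeriesSummable_congr _ fun h => (χ₂.apply_eq_toArithmeticFunction_apply h).symm).mpr <|
        ZMod.LSeriesSummable_of_one_lt_re χ₂ hs
    have hs3 : LSeriesSummable (fun n => c₃ n) s :=
      (LSeriesSummable_congr _ fun h =>
        ((mulc χ₁ χ₂).apply_eq_toArithmeticFunction_apply h).symm).mpr <|
        ZMod.LSeriesSummable_of_one_lt_re (mulc χ₁ χ₂) hs
    have hs4 : LSeriesSummable (fun n => (c₂ * c₃) n) s :=
      ArithmeticFunction.LSeriesSummable_mul hs2 hs3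
    refine ⟨ArithmeticFunction.LSeriesSummable_mul hs1 hs4, ?_⟩
    rw [ArithmeticFunction.LSeries_mul' hs1 hs4, ArithmeticFunction.LSeries_mul' hs2 hs3]
    have e2 : LSeries (fun n => c₂ n) s = LFunction χ₂ s := by
      rw [LFunction_eq_LSeries χ₂ hs]
      exact LSeries_congr (fun h => (χ₂.apply_eq_toArithmeticFunction_apply h).symm) s
    have e3 : LSeries (fun n => c₃ n) s = LFunction (mulc χ₁ χ₂) s := by
      rw [LFunction_eq_LSeries (mulc χ₁ χ₂) hs]
      exact LSeries_congr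
        (fun h => ((mulc χ₁ χ₂).apply_eq_toArithmeticFunction_apply h).symm) s
    have e1 : LSeries (fun n => zetaMul χ₁ n) s = riemannZeta s * LFunction χ₁ s := by
      rw [zetaMul, ← ArithmeticFunction.coe_mul, LSeries_convolution',
        LFunction_eq_LSeries χ₁ hs]
      · congr 1
        · simp_rw [← LSeries_zeta_eq_riemannZeta hs, ← natCoe_apply]
        · exact LSeries_congr (fun h => (χ₁.apply_eq_toArithmeticFunction_apply h).symm) s
      · exact LSeriesSummable_zeta_iff.mpr hs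
      · exact (LSeriesSummable_congr _ fun h =>
          (χ₁.apply_eq_toArithmeticFunction_apply h).symm).mpr <|
          ZMod.LSeriesSummable_of_one_lt_re χ₁ hs
    rw [e1, e2, e3]
    ring

end s2b

theorem coef4 {q₁ q₂ : ℕ} [NeZero q₁] [NeZero q₂] (χ₁ : DirichletCharacter ℂ q₁)
    (χ₂ : DirichletCharacter ℂ q₂) (h₁ : χ₁ ^ 2 = 1) (h₂ : χ₂ ^ 2 = 1) :
    ∃ a : ℕ → ℂ, (∀ n, 0 ≤ a n) ∧ a 1 = 1 ∧ ∀ s : ℂ, 1 < s.re → LSeriesSummable a s ∧
      LSeries a s = riemannZeta s * LFunction χ₁ s * LFunction χ₂ s * LFunction (mulc χ₁ χ₂) s :=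
  s2b_main χ₁ χ₂ h₁ h₂

end Pool.Agent.LibSW40
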