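import Mathlib

/-!
Row S3 (ONLY MATHLIB, MEDIUM). Positivity of the Taylor coefficients at 2.

PLAN. Near `2`: `dslope P 1 s = LSeries a s - P 1 / (s - 1)`. `iteratedDeriv m (fun s => c / (s - 1)) 2 = (-1)^m m! c`;
`(-1)^m iteratedDeriv m (LSeries a) 2 ≥ 0`: `ArithmeticFunction.iteratedDeriv_LSeries_alternating` /
`LSeries.iteratedDeriv_alternating` (`Mathlib/NumberTheory/LSeries/Positivity.lean`). At `2`: `dslope P 1 2 + P 1 = P 2 =
LSeries a 2`, real part `≥ a 1 = 1` (all terms have real part `≥ 0`).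
-/

set_option autoImplicit false

namespace Pool.Agent.LibSW40

open scoped ComplexOrder

private theorem s3_iter (c : ℂ) (m : ℕ) : ∀ s : ℂ, s ≠ 1 →
    iteratedDeriv m (fun s => c / (s - 1)) s = (-1) ^ m * (m.factorial : ℂ) * c / (s - 1) ^ (m + 1) := by
  induction m with
  | zero => intro s _; simp
  | succ m ih =>
    intro s hs
    have hs' : s - 1 ≠ 0 := sub_ne_zero.2 hs
    rw [iteratedDeriv_succ]
    have h1 : iteratedDeriv m (fun s => c / (s - 1)) =ᶠ[nhds s]
        fun s => (-1) ^ m * (m.factorial : ℂ) * c / (s - 1) ^ (m + 1) := by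
      filter_upwards [isOpen_ne.mem_nhds hs] with z hz
      exact ih z hz
    rw [h1.deriv_eq]
    have h2 : HasDerivAt (fun s : ℂ => (s - 1) ^ (m + 1)) (((m + 1 : ℕ) : ℂ) * (s - 1) ^ m) s := by
      have h0 : HasDerivAt (fun s : ℂ => s - 1) 1 s := (hasDerivAt_id s).sub_const 1
      have := h0.fun_pow (m + 1)
      simpa using this
    have h3 : HasDerivAt (fun s : ℂ => (-1) ^ m * (m.factorial : ℂ) * c / (s - 1) ^ (m + 1))
        ((0 * (s - 1) ^ (m + 1) - (-1) ^ m * (m.factorial : ℂ) * c *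
          (((m + 1 : ℕ) : ℂ) * (s - 1) ^ m)) / ((s - 1) ^ (m + 1)) ^ 2) s :=
      (hasDerivAt_const s _).div h2 (pow_ne_zero _ hs')
    rw [h3.deriv, Nat.factorial_succ]
    have h4 : (s - 1) ^ (m + 1) ≠ 0 := pow_ne_zero _ hs'
    have h5 : (s - 1) ^ (m + 1 + 1) ≠ 0 := pow_ne_zero _ hs'
    push_cast
    rw [div_eq_div_iff (pow_ne_zero _ h4) h5]
    ring

theorem coef_hyp {P : ℂ → ℂ} (hP : Differentiable ℂ P) {a : ℕ → ℂ} (ha : ∀ n, 0 ≤ a n) (ha1 : a 1 = 1)
    (hL : ∀ s : ℂ, 1 < s.re → LSeriesSummable a s ∧ LSeries a s = P s / (s - 1)) :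
    (∀ m : ℕ, 0 ≤ (-1 : ℝ) ^ m * (iteratedDeriv m (dslope P 1) 2).re +
      (m.factorial : ℝ) * (P 1).re) ∧ 1 ≤ (dslope P 1 2).re + (P 1).re := by
  have habs : LSeries.abscissaOfAbsConv a < ((2 : ℝ) : EReal) := by
    have h1 := (hL (3 / 2 : ℂ) (by norm_num)).1.abscissaOfAbsConv_le
    refine h1.trans_lt ?_
    have h2 : (3 / 2 : ℂ).re < 2 := by norm_num
    exact_mod_cast h2
  have hopen : IsOpen {s : ℂ | 1 < s.re} := isOpen_lt continuous_const Complex.continuous_re
  have hmem : (2 : ℂ) ∈ {s : ℂ | 1 < s.re} := by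
    change 1 < (2 : ℂ).re
    norm_num
  have hEq : Set.EqOn (dslope P 1) (fun s => LSeries a s - P 1 / (s - 1)) {s : ℂ | 1 < s.re} := by
    intro s hs
    have hs1 : s ≠ 1 := by
      rintro rfl
      simp at hs
    have hs' : s - 1 ≠ 0 := sub_ne_zero.2 hs1
    change dslope P 1 s = LSeries a s - P 1 / (s - 1)
    rw [dslope_of_ne _ hs1, slope_def_field, (hL s hs).2, ← sub_div]
  constructor
  · intro m
    have h1 : iteratedDeriv m (dslope P 1) 2 =
        iteratedDeriv m (fun s => LSeries a s - P 1 / (s - 1)) 2 :=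
      hEq.iteratedDeriv_of_isOpen hopen m hmem
    have hA : ContDiffAt ℂ m (LSeries a) 2 := by
      have h2 : AnalyticOnNhd ℂ (LSeries a) {s : ℂ | LSeries.abscissaOfAbsConv a < s.re} :=
        LSeries_analyticOnNhd a
      exact (h2 2 (by simpa using habs)).contDiffAt
    have hB : ContDiffAt ℂ m (fun s : ℂ => P 1 / (s - 1)) 2 :=
      contDiffAt_const.div (contDiffAt_id.sub contDiffAt_const) (by norm_num)
    have h3 : iteratedDeriv m (fun s => LSeries a s - P 1 / (s - 1)) 2 =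
        iteratedDeriv m (LSeries a) 2 - iteratedDeriv m (fun s => P 1 / (s - 1)) 2 :=
      iteratedDeriv_fun_sub hA hB
    have h4 : iteratedDeriv m (fun s => P 1 / (s - 1)) (2 : ℂ) =
        (-1) ^ m * (m.factorial : ℂ) * P 1 := by
      rw [s3_iter _ _ 2 (by norm_num)]
      norm_num
    have h5 : (0 : ℂ) ≤ (-1) ^ m * iteratedDeriv m (LSeries a) ((2 : ℝ) : ℂ) :=
      LSeries.iteratedDeriv_alternating (a := a) ha habs m
    have h6 := (Complex.le_def.1 h5).1
    have h7 : ∀ z : ℂ, ((-1 : ℂ) ^ m * z).re = (-1 : ℝ) ^ m * z.re := by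
      intro z
      have : ((-1 : ℂ) ^ m) = (((-1 : ℝ) ^ m : ℝ) : ℂ) := by push_cast; rfl
      rw [this, Complex.re_ofReal_mul]
    rw [h7] at h6
    rw [h1, h3, h4, Complex.sub_re, mul_assoc, h7]
    have h8 : ((m.factorial : ℂ) * P 1).re = (m.factorial : ℝ) * (P 1).re := by
      have : (m.factorial : ℂ) = ((m.factorial : ℝ) : ℂ) := by push_cast; rfl
      rw [this, Complex.re_ofReal_mul]
    rw [h8]
    have h9 : (-1 : ℝ) ^ m * (-1) ^ m = 1 := by
      rw [← mul_pow]; norm_num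
    have h10 : (iteratedDeriv m (LSeries a) ((2 : ℝ) : ℂ)).re = (iteratedDeriv m (LSeries a) 2).re := by
      norm_num
    rw [h10] at h6
    simp only [Complex.zero_re] at h6
    have h11 : (-1 : ℝ) ^ m * ((iteratedDeriv m (LSeries a) 2).re -
        (-1) ^ m * ((m.factorial : ℝ) * (P 1).re)) =
        (-1 : ℝ) ^ m * (iteratedDeriv m (LSeries a) 2).re - (m.factorial : ℝ) * (P 1).re := by
      rw [mul_sub, ← mul_assoc ((-1 : ℝ) ^ m) ((-1) ^ m), h9, one_mul]
    rw [h11]
    linarith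
  · have h1 := hEq hmem
    simp only at h1
    have h2 := (hL 2 hmem).1
    have h3 : LSeries.term a 2 1 ≤ LSeries a 2 := by
      rw [LSeries]
      refine Summable.le_tsum h2 1 (fun n _ => ?_)
      have := LSeries.term_nonneg (ha n) 2
      simpa using this
    have h4 : LSeries.term a 2 1 = 1 := by
      rw [LSeries.term_of_ne_zero one_ne_zero, ha1]
      simp
    rw [h4] at h3
    have h5 := (Complex.le_def.1 h3).1
    rw [h1]
    have h6 : (LSeries a 2 - P 1 / (2 - 1)).re + (P 1).re = (LSeries a 2).re := by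
      rw [Complex.sub_re]
      norm_num
    rw [h6]
    simpa using h5

end Pool.Agent.LibSW40
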