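import Mathlib

/-!
Row S4 (ONLY MATHLIB, SHORT). Maximum modulus for the slope.

PLAN. `dslope P 1` is entire (`Differentiable.dslope`? or `differentiableOn_dslope`). On the sphere `‖s - 2‖ = 3/2` one has
`‖s - 1‖ ≥ 1/2`, so `‖dslope P 1 s‖ ≤ 2 M / (1/2)`; then `Complex.norm_le_of_forall_mem_frontier_norm_le`.
-/

set_option autoImplicit false

namespace Pool.Agent.LibSW40

theorem differentiable_dslope_one {P : ℂ → ℂ} (hP : Differentiable ℂ P) :
    Differentiable ℂ (dslope P 1) := by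
  rw [← differentiableOn_univ]
  exact (Complex.differentiableOn_dslope Filter.univ_mem).2 hP.differentiableOn

theorem bound_dslope {P : ℂ → ℂ} (hP : Differentiable ℂ P) {M : ℝ}
    (hM : ∀ s ∈ Metric.closedBall (2 : ℂ) (3 / 2), ‖P s‖ ≤ M) :
    ∀ s ∈ Metric.closedBall (2 : ℂ) (3 / 2), ‖dslope P 1 s‖ ≤ 4 * M := by
  intro s hs
  have hb : Bornology.IsBounded (Metric.ball (2 : ℂ) (3 / 2)) := Metric.isBounded_ball
  have hd : DiffContOnCl ℂ (dslope P 1) (Metric.ball (2 : ℂ) (3 / 2)) :=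
    (differentiable_dslope_one hP).diffContOnCl
  refine Complex.norm_le_of_forall_mem_frontier_norm_le hb hd ?_ ?_
  · intro z hz
    rw [frontier_ball _ (by norm_num : (3 / 2 : ℝ) ≠ 0), mem_sphere_iff_norm] at hz
    have h1 : (1 : ℝ) / 2 ≤ ‖z - 1‖ := by
      have h2 : ‖z - 2‖ ≤ ‖z - 1‖ + ‖(1 : ℂ)‖ := by
        have h3 : z - 2 = (z - 1) - 1 := by ring
        rw [h3]
        exact norm_sub_le _ _
      rw [hz, norm_one] at h2
      linarith
    have hz1 : z ≠ 1 := by
      rintro rfl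
      simp at h1
      linarith
    rw [dslope_of_ne _ hz1, slope_def_field, norm_div]
    have h4 : ‖P z - P 1‖ ≤ 2 * M := by
      have h5 := hM z (by rw [mem_closedBall_iff_norm, hz])
      have h6 := hM 1 (by rw [mem_closedBall_iff_norm]; norm_num)
      calc ‖P z - P 1‖ ≤ ‖P z‖ + ‖P 1‖ := norm_sub_le _ _
        _ ≤ 2 * M := by linarith
    have h7 : 0 < ‖z - 1‖ := by linarith
    rw [div_le_iff₀ h7]
    have h8 : 0 ≤ M := by
      have h9 : 0 ≤ ‖P z - P 1‖ := norm_nonneg _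
      linarith
    nlinarith
  · rw [closure_ball _ (by norm_num : (3 / 2 : ℝ) ≠ 0)]
    exact hs

end Pool.Agent.LibSW40
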