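import Pool.Agent.LibSW40.Defs
import Pool.Agent.LibMaier.ZeroFree
import Pool.Agent.LibH.PNTRem

/-!
Row S5 (SHORT/MEDIUM). Real values of `ζ₁` and of `L(s, χ)`.

PLAN. `zeta1_real`: `LibZM.zeta_approx` with `N = 1` (see `LibH.norm_zeta1_le` for its use): for real `β ∈ [7/8, 1)`
`‖ζ(β) - (1 - 1/(1-β))‖ ≤ 1`, so `(ζ β).re ≤ 2 - 8 < 0` and `ζ₁(β) = (β - 1) ζ(β)`; real: `riemannZeta₁` is real on the real axis
(`conj`; e.g. `ζ₁` real for real `s > 1` by the series, identity theorem, or `riemannZeta_conj` if Mathlib has it). At `β = 1`: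
`riemannZeta₁_one`. `L_im`: `LibMaier.LFunction_conj`. `L_pos`: `L(2, χ).re > 0` (`‖L(2,χ) - 1‖ ≤ ζ(2) - 1 < 1`), no zero on
`[β, 1)` by hypothesis, none on `Re s ≥ 1` (`DirichletCharacter.LFunction_ne_zero_of_one_le_re`), real valued and continuous on
`[β, 2]`: intermediate value theorem.
-/

set_option autoImplicit false

namespace Pool.Agent.LibSW40

open Complex DirichletCharacter

theorem zeta1_real {β : ℝ} (h : 7 / 8 ≤ β) (h1 : β ≤ 1) :
    (riemannZeta₁ (β : ℂ)).im = 0 ∧ 0 < (riemannZeta₁ (β : ℂ)).re := by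
  rcases eq_or_lt_of_le h1 with rfl | hlt
  · rw [ofReal_one, riemannZeta₁_one]
    simp
  · have hb0 : 0 < β := by linarith
    have hs1 : (β : ℂ) ≠ 1 := by
      intro h2
      have h3 : β = 1 := by exact_mod_cast h2
      linarith
    have hs0 : 0 < (β : ℂ).re := by rw [ofReal_re]; exact hb0
    have hz := LibZM.zeta_approx hs0 hs1 (le_refl 1)
    simp only [Finset.Icc_self, Finset.sum_singleton, Nat.cast_one, Complex.one_cpow,
      Real.one_rpow, mul_one] at hz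
    have hn : ‖(β : ℂ)‖ / (β : ℂ).re = 1 := by
      rw [Complex.norm_real, Real.norm_eq_abs, abs_of_pos hb0, ofReal_re, div_self hb0.ne']
    rw [hn] at hz
    have hre : (riemannZeta (β : ℂ)).re ≤ 2 - 1 / (1 - β) := by
      have h2 : ((1 : ℂ) - 1 / (1 - (β : ℂ))) = ((1 - 1 / (1 - β) : ℝ) : ℂ) := by push_cast; ring
      rw [h2] at hz
      have h3 := (Complex.abs_re_le_norm _).trans hz
      rw [Complex.sub_re, ofReal_re, abs_le] at h3
      linarith [h3.2]
    have him : (riemannZeta (β : ℂ)).im = 0 := by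
      have h2 := riemannZeta_conj (β : ℂ)
      rw [Complex.conj_ofReal] at h2
      have h3 := congrArg Complex.im h2
      rw [Complex.conj_im] at h3
      linarith
    have hneg : (riemannZeta (β : ℂ)).re < 0 := by
      have h2 : 8 ≤ 1 / (1 - β) := by
        rw [le_div_iff₀ (by linarith)]
        linarith
      linarith
    have e : riemannZeta₁ (β : ℂ) = ((β - 1 : ℝ) : ℂ) * riemannZeta (β : ℂ) := by
      rw [riemannZeta_eq_inv_sub_mul hs1]
      have h3 : (β : ℂ) - 1 ≠ 0 := sub_ne_zero.mpr hs1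
      push_cast
      field_simp
    rw [e, Complex.im_ofReal_mul, Complex.re_ofReal_mul, him, mul_zero]
    exact ⟨rfl, mul_pos_of_neg_of_neg (by linarith) hneg⟩

theorem L_im {q : ℕ} [NeZero q] {χ : DirichletCharacter ℂ q} (hχ : χ ≠ 1) (hχ2 : χ ^ 2 = 1) {β : ℝ}
    (hβ : 0 < β) : (LFunction χ (β : ℂ)).im = 0 := by
  have h2 := LibMaier.LFunction_conj hχ hχ2 (s := (β : ℂ)) (by rw [ofReal_re]; exact hβ)
  rw [Complex.conj_ofReal] at h2
  have h3 := congrArg Complex.im h2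
  rw [Complex.conj_im] at h3
  linarith

private theorem s5_two {q : ℕ} [NeZero q] (χ : DirichletCharacter ℂ q) :
    0 < (LFunction χ (2 : ℂ)).re := by
  have hs : 1 < (2 : ℂ).re := by norm_num
  rw [LFunction_eq_LSeries χ hs]
  have hb : ∀ n : ℕ, ‖LSeries.term (χ ·) 2 n - (if n = 1 then 1 else 0)‖ ≤
      1 / (n : ℝ) ^ 2 - (if n = 1 then 1 else 0) := by
    intro n
    rcases Nat.eq_zero_or_pos n with rfl | hn
    · simp
    · by_cases h1 : n = 1
      · subst h1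
        rw [LSeries.term_of_ne_zero one_ne_zero]
        simp
      · rw [if_neg h1, if_neg h1, sub_zero, sub_zero, LSeries.term_of_ne_zero hn.ne', norm_div]
        have h2 : ‖((n : ℂ) ^ (2 : ℂ))‖ = (n : ℝ) ^ 2 := by
          have h3 : (n : ℂ) ^ (2 : ℂ) = (n : ℂ) ^ (2 : ℕ) := by norm_cast
          rw [h3, norm_pow, Complex.norm_natCast]
        rw [h2]
        exact div_le_div_of_nonneg_right (χ.norm_le_one _) (by positivity)
  have hz := hasSum_zeta_two
  have hz1 : HasSum (fun n : ℕ => (if n = 1 then (1 : ℝ) else 0)) 1 := hasSum_ite_eq 1 1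
  have hz2 := hz.sub hz1
  have hsum : Summable (fun n : ℕ => LSeries.term (χ ·) 2 n - (if n = 1 then 1 else 0)) :=
    Summable.of_norm_bounded hz2.summable hb
  have hc1 : HasSum (fun n : ℕ => (if n = 1 then (1 : ℂ) else 0)) 1 := hasSum_ite_eq 1 1
  have hterm : HasSum (fun n : ℕ => LSeries.term (χ ·) 2 n)
      ((∑' n : ℕ, (LSeries.term (χ ·) 2 n - (if n = 1 then 1 else 0))) + 1) := by
    have h4 := hsum.hasSum.add hc1
    simpa using h4
  have hn : ‖∑' n : ℕ, (LSeries.term (χ ·) 2 n - (if n = 1 then 1 else 0))‖ ≤ Real.pi ^ 2 / 6 - 1 := by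
    have h5 := tsum_of_norm_bounded hz2 hb
    exact h5
  have hpi : Real.pi ^ 2 / 6 - 1 < 1 := by
    have := Real.pi_lt_d2
    have := Real.pi_pos
    nlinarith
  have h6 : LSeries (χ ·) 2 = (∑' n : ℕ, (LSeries.term (χ ·) 2 n - (if n = 1 then 1 else 0))) + 1 :=
    hterm.tsum_eq
  rw [h6, Complex.add_re, Complex.one_re]
  have h7 := (Complex.abs_re_le_norm _).trans hn
  rw [abs_le] at h7
  linarith [h7.1]

private theorem s5_pos {q : ℕ} [NeZero q] {χ : DirichletCharacter ℂ q} (hχ : χ ≠ 1)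
    (hχ2 : χ ^ 2 = 1) {β : ℝ} (hβ : 0 < β) (hβ1 : β ≤ 1)
    (hz : ∀ γ : ℝ, β ≤ γ → γ < 1 → LFunction χ (γ : ℂ) ≠ 0) : 0 < (LFunction χ (β : ℂ)).re := by
  by_contra hcon
  push Not at hcon
  have hcont : ContinuousOn (fun x : ℝ => (LFunction χ (x : ℂ)).re) (Set.Icc β 2) :=
    (Complex.continuous_re.comp ((differentiable_LFunction hχ).continuous.comp
      Complex.continuous_ofReal)).continuousOn
  have h2 : 0 < (LFunction χ ((2 : ℝ) : ℂ)).re := by
    have := s5_two χ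
    rwa [ofReal_ofNat]
  obtain ⟨γ, hγ, hγ0⟩ := intermediate_value_Icc (by linarith : β ≤ 2) hcont ⟨hcon, h2.le⟩
  have h3 : LFunction χ (γ : ℂ) = 0 := by
    apply Complex.ext
    · exact hγ0
    · exact L_im hχ hχ2 (lt_of_lt_of_le hβ hγ.1)
  rcases lt_or_ge γ 1 with h4 | h4
  · exact hz γ hγ.1 h4 h3
  · exact LFunction_ne_zero_of_one_le_re χ (.inl hχ) (by rw [ofReal_re]; exact h4) h3

theorem L_pos {q : ℕ} [NeZero q] {χ : DirichletCharacter ℂ q} (hχ : χ ≠ 1) (hχ2 : χ ^ 2 = 1) {β : ℝ}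
    (hβ : 0 < β) (hβ1 : β ≤ 1) (hz : ∀ γ : ℝ, β ≤ γ → γ < 1 → LFunction χ (γ : ℂ) ≠ 0) :
    0 < (LFunction χ (β : ℂ)).re ∧ 0 < (LFunction χ 1).re := by
  refine ⟨s5_pos hχ hχ2 hβ hβ1 hz, ?_⟩
  have h := s5_pos hχ hχ2 one_pos le_rfl (fun γ h1 h2 => absurd h1 (not_le.mpr h2))
  rwa [ofReal_one] at h

end Pool.Agent.LibSW40
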