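import Pool.Agent.LibSW40.Defs
import Pool.Agent.LibMaier.LSum

/-!
Row S6 (SHORT). Sizes in the disc `|s - 2| ≤ 3/2` and at `1`.

PLAN. `riemannZeta₁` is continuous (`differentiable_riemannZeta₁`), the ball is compact. `norm_LFunction_le` of `LibMaier.LSum`:
`1 + q (2 + 2 ‖s‖) ≤ 1 + 9 q ≤ 10 q`. `L_one_le`: `LT_approx` at `s = 1` with `N = q`: error `q (2 + 1) / q = 3`,
`‖LT χ q 1‖ ≤ ∑_{n ≤ q} 1/n ≤ 1 + log q`.
-/

set_option autoImplicit false

namespace Pool.Agent.LibSW40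

open Complex DirichletCharacter

theorem zeta1_disc : ∃ K : ℝ, 1 ≤ K ∧ ∀ s ∈ Metric.closedBall (2 : ℂ) (3 / 2), ‖riemannZeta₁ s‖ ≤ K := by
  obtain ⟨K, hK⟩ := (isCompact_closedBall (2 : ℂ) (3 / 2)).exists_bound_of_continuousOn
    differentiable_riemannZeta₁.continuous.continuousOn
  exact ⟨max K 1, le_max_right _ _, fun s hs => (hK s hs).trans (le_max_left _ _)⟩

theorem L_disc {q : ℕ} [NeZero q] {χ : DirichletCharacter ℂ q} (hχ : χ ≠ 1) :
    ∀ s ∈ Metric.closedBall (2 : ℂ) (3 / 2), ‖LFunction χ s‖ ≤ 10 * q := by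
  intro s hs
  rw [Metric.mem_closedBall, Complex.dist_eq] at hs
  have h1 : 1 / 2 ≤ s.re := by
    have h2 := (Complex.abs_re_le_norm (s - 2)).trans hs
    rw [Complex.sub_re, Complex.re_ofNat] at h2
    linarith [(abs_le.1 h2).1]
  have h3 : ‖s‖ ≤ 7 / 2 := by
    have h4 : ‖s‖ ≤ ‖s - 2‖ + ‖(2 : ℂ)‖ := by
      have := norm_add_le (s - 2) 2
      rwa [sub_add_cancel] at this
    have h5 : ‖(2 : ℂ)‖ = 2 := by simp
    rw [h5] at h4
    linarith
  have hq : (1 : ℝ) ≤ q := by exact_mod_cast NeZero.one_le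
  refine (LibMaier.norm_LFunction_le hχ h1).trans ?_
  have h6 : (q : ℝ) * (2 + 2 * ‖s‖) ≤ q * 9 := mul_le_mul_of_nonneg_left (by linarith) (by linarith)
  linarith

theorem L_one_le {q : ℕ} [NeZero q] {χ : DirichletCharacter ℂ q} (hχ : χ ≠ 1) :
    ‖LFunction χ 1‖ ≤ 4 + Real.log q := by
  have hq1 : 1 ≤ q := NeZero.one_le
  have hq : (1 : ℝ) ≤ q := by exact_mod_cast hq1
  have hq0 : (0 : ℝ) < q := by linarith
  have h1 := LibMaier.LT_approx hχ (s := 1) (by simp) hq1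
  have h2 : (q : ℝ) * (2 + ‖(1 : ℂ)‖ / (1 : ℂ).re) * (q : ℝ) ^ (-(1 : ℂ).re) = 3 := by
    rw [norm_one, Complex.one_re, div_one, Real.rpow_neg_one]
    field_simp
    norm_num
  rw [h2] at h1
  have h3 : ‖LibMaier.LT χ q 1‖ ≤ 1 + Real.log q := by
    have h4 : ‖LibMaier.LT χ q 1‖ ≤ ∑ n ∈ Finset.Icc 1 q, ((n : ℝ))⁻¹ := by
      unfold LibMaier.LT
      refine (norm_sum_le _ _).trans (Finset.sum_le_sum fun n hn => ?_)
      rw [norm_mul]
      have h5 : ‖(n : ℂ) ^ (-(1 : ℂ))‖ = ((n : ℝ))⁻¹ := by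
        rw [Complex.cpow_neg_one, norm_inv, Complex.norm_natCast]
      rw [h5]
      exact mul_le_of_le_one_left (by positivity) (DirichletCharacter.norm_le_one χ _)
    have h6 := harmonic_le_one_add_log q
    rw [harmonic_eq_sum_Icc] at h6
    push_cast at h6
    exact h4.trans h6
  have h7 : ‖LFunction χ 1‖ ≤ ‖LFunction χ 1 - LibMaier.LT χ q 1‖ + ‖LibMaier.LT χ q 1‖ := by
    have := norm_add_le (LFunction χ 1 - LibMaier.LT χ q 1) (LibMaier.LT χ q 1)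
    rwa [sub_add_cancel] at this
  linarith

end Pool.Agent.LibSW40
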