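import Pool.Agent.LibSW40.S1
import Pool.Agent.LibSW40.S2b
import Pool.Agent.LibSW40.S3
import Pool.Agent.LibSW40.S4
import Pool.Agent.LibSW40.S5
import Pool.Agent.LibSW40.S6

/-!
Row S8 (MEDIUM). A zero `β₁` of `L(s, χ₁)`: lower bound for the product of the three values at 1.

PLAN. `siegel_ineq` for `G = dslope (P4 χ₁ χ₂) 1`, `lam = (P4 χ₁ χ₂ 1).re = ` the product (all three are real: `L_im`; `mulc χ₁ χ₂`
has square 1 and is `≠ 1` by hypothesis; each is positive: `L_pos` with `β = 1`), `B = 4 K (10 q₁)(10 q₂)(10 q₁ q₂)`, `hco`, `h0` from `coef_hyp` and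
`coef4`. `hF`: `P4 χ₁ χ₂ β₁ = 0`, so `G β₁ = (0 - P4 1)/(β₁ - 1)`, equality. `(8B)^(-(4(1-β₁))) ≥ C q₂^(-(8(1-β₁)))`.
-/

set_option autoImplicit false

namespace Pool.Agent.LibSW40

open Complex DirichletCharacter

private theorem s8_mulc_sq {q₁ q₂ : ℕ} (χ₁ : DirichletCharacter ℂ q₁) (χ₂ : DirichletCharacter ℂ q₂)
    (h₁ : χ₁ ^ 2 = 1) (h₂ : χ₂ ^ 2 = 1) : mulc χ₁ χ₂ ^ 2 = 1 := by
  unfold mulc
  rw [mul_pow, ← map_pow, ← map_pow, h₁, h₂, map_one, map_one, one_mul]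

private theorem s8_one {q : ℕ} [NeZero q] {χ : DirichletCharacter ℂ q} (hχ : χ ≠ 1)
    (hχ2 : χ ^ 2 = 1) : (LFunction χ 1).im = 0 ∧ 0 < (LFunction χ 1).re := by
  refine ⟨?_, (L_pos hχ hχ2 (β := 1) one_pos le_rfl (fun γ h h' => absurd h' (not_lt.2 h))).2⟩
  have h := L_im hχ hχ2 (β := 1) one_pos
  simpa using h

theorem ineq4 (q₁ : ℕ) [NeZero q₁] (χ₁ : DirichletCharacter ℂ q₁) (h₁ : χ₁ ≠ 1) (h₁2 : χ₁ ^ 2 = 1) (β₁ : ℝ)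
    (hβ : 7 / 8 ≤ β₁) (hβ1 : β₁ < 1) (hz : LFunction χ₁ (β₁ : ℂ) = 0) :
    ∃ c : ℝ, 0 < c ∧ ∀ (q₂ : ℕ) [NeZero q₂] (χ₂ : DirichletCharacter ℂ q₂), χ₂ ≠ 1 → χ₂ ^ 2 = 1 →
      mulc χ₁ χ₂ ≠ 1 → c * (q₂ : ℝ) ^ (-(8 * (1 - β₁))) ≤
        (LFunction χ₁ 1).re * (LFunction χ₂ 1).re * (LFunction (mulc χ₁ χ₂) 1).re := by
  obtain ⟨K, hK1, hK⟩ := zeta1_disc
  have hq10 : 0 < q₁ := Nat.pos_of_ne_zero (NeZero.ne q₁)
  have hq11 : (1 : ℝ) ≤ q₁ := by exact_mod_cast hq10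
  have hK0 : 0 < K := by linarith
  have hA0 : 0 < 32000 * K * (q₁ : ℝ) ^ 2 := by positivity
  have hb : 0 < 1 - β₁ := by linarith
  refine ⟨(1 - β₁) / 6 * (32000 * K * (q₁ : ℝ) ^ 2) ^ (-(4 * (1 - β₁))), by positivity, ?_⟩
  intro q₂ _ χ₂ h₂ h₂2 hm
  have hq20 : 0 < q₂ := Nat.pos_of_ne_zero (NeZero.ne q₂)
  have hq21 : (1 : ℝ) ≤ q₂ := by exact_mod_cast hq20
  have hm2 := s8_mulc_sq χ₁ χ₂ h₁2 h₂2
  obtain ⟨i1, p1⟩ := s8_one h₁ h₁2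
  obtain ⟨i2, p2⟩ := s8_one h₂ h₂2
  obtain ⟨i3, p3⟩ := s8_one hm hm2
  have hP : Differentiable ℂ (P4 χ₁ χ₂) := by
    unfold P4
    exact ((differentiable_riemannZeta₁.mul (differentiable_LFunction h₁)).mul
      (differentiable_LFunction h₂)).mul (differentiable_LFunction hm)
  have hP1 : (P4 χ₁ χ₂ 1).re =
      (LFunction χ₁ 1).re * (LFunction χ₂ 1).re * (LFunction (mulc χ₁ χ₂) 1).re := by
    unfold P4
    rw [riemannZeta₁_one, one_mul, Complex.mul_re, Complex.mul_re, Complex.mul_im, i1, i2, i3]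
    ring
  obtain ⟨a, ha, ha1, hL⟩ := coef4 χ₁ χ₂ h₁2 h₂2
  have hL' : ∀ s : ℂ, 1 < s.re → LSeriesSummable a s ∧ LSeries a s = P4 χ₁ χ₂ s / (s - 1) := by
    intro s hs
    refine ⟨(hL s hs).1, ?_⟩
    have hs1 : s ≠ 1 := by
      intro h
      rw [h] at hs
      simp at hs
    rw [(hL s hs).2, riemannZeta_eq_inv_sub_mul hs1]
    unfold P4
    rw [div_eq_inv_mul]
    ring
  obtain ⟨hco, h0⟩ := coef_hyp hP ha ha1 hL'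
  set M : ℝ := K * (10 * q₁) * (10 * q₂) * (10 * ((q₁ * q₂ : ℕ) : ℝ)) with hM
  have hMB : ∀ s ∈ Metric.closedBall (2 : ℂ) (3 / 2), ‖P4 χ₁ χ₂ s‖ ≤ M := by
    intro s hs
    unfold P4
    rw [norm_mul, norm_mul, norm_mul, hM]
    have e0 := hK s hs
    have e1 := L_disc h₁ s hs
    have e2 := L_disc h₂ s hs
    have e3 := L_disc hm s hs
    gcongr
  have hMe : 8 * (4 * M) = 32000 * K * (q₁ : ℝ) ^ 2 * (q₂ : ℝ) ^ 2 := by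
    rw [hM]
    push_cast
    ring
  have hM1 : 1 ≤ 4 * M := by
    have h1 : (1 : ℝ) ≤ (q₁ : ℝ) ^ 2 := one_le_pow₀ hq11
    have h2 : (1 : ℝ) ≤ (q₂ : ℝ) ^ 2 := one_le_pow₀ hq21
    have h3 : (1 : ℝ) ≤ K * (q₁ : ℝ) ^ 2 := by nlinarith
    have h4 : (1 : ℝ) ≤ K * (q₁ : ℝ) ^ 2 * (q₂ : ℝ) ^ 2 := by nlinarith
    nlinarith
  have hβne : (β₁ : ℂ) ≠ 1 := by
    intro h
    have : β₁ = 1 := by exact_mod_cast h
    linarith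
  have hF : (dslope (P4 χ₁ χ₂) 1 (β₁ : ℂ)).re ≤ (P4 χ₁ χ₂ 1).re / (1 - β₁) := by
    rw [dslope_of_ne _ hβne, slope_def_field]
    have h1 : P4 χ₁ χ₂ (β₁ : ℂ) = 0 := by
      unfold P4
      rw [hz]
      ring
    rw [h1, zero_sub]
    have h2 : -P4 χ₁ χ₂ 1 / ((β₁ : ℂ) - 1) = P4 χ₁ χ₂ 1 / ((1 - β₁ : ℝ) : ℂ) := by
      push_cast
      rw [← neg_sub (1 : ℂ) (β₁ : ℂ), neg_div_neg_eq]
    rw [h2, Complex.div_ofReal_re]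
  have hlam : 0 ≤ (P4 χ₁ χ₂ 1).re := by
    rw [hP1]
    positivity
  have hfin := siegel_ineq (differentiable_dslope_one hP) hM1 (bound_dslope hP hMB) hlam hco h0 hβ hβ1 hF
  rw [hMe, Real.mul_rpow hA0.le (by positivity)] at hfin
  have h3 : ((q₂ : ℝ) ^ 2) ^ (-(4 * (1 - β₁))) = (q₂ : ℝ) ^ (-(8 * (1 - β₁))) := by
    rw [← Real.rpow_natCast, ← Real.rpow_mul (by linarith)]
    congr 1
    push_cast
    ring
  rw [h3, ← mul_assoc] at hfin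
  rw [← hP1]
  exact hfin

end Pool.Agent.LibSW40
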