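import Pool.Agent.LibSW40.S7
import Pool.Agent.LibSW40.S8

/-!
Row S9 (MEDIUM). **Siegel's theorem** for `L(1, χ)`, primitive real characters.

PLAN. May assume `ε ≤ 1`. Case A: no primitive real character `≠ 1` has a real zero in `[1 - ε/32, 1)`: `ineq2` with
`β = 1 - ε/32`. Case B: some primitive real `χ₁ ≠ 1` modulo `q₁` has a zero `β₁ ∈ [1 - ε/32, 1)`: for `χ₂ = χ₁` (same modulus,
`(⟨q₁, χ₁⟩ : PC) = ⟨q₂, χ₂⟩`) the constant `(L(1,χ₁)).re > 0` (`L_pos`, `β = 1`); otherwise `mulc χ₁ χ₂ ≠ 1`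
(`LibPL63.primitive_ne`, `χ₂⁻¹ = χ₂`), `ineq4`: `c q₂^(-ε/4) ≤ L₁ L₂ L₁₂` and `L₁ ≤ 4 + log q₁`, `L₁₂ ≤ 4 + log(q₁ q₂)`
(`L_one_le`), `4 + log(q₁ q₂) ≤ C q₂^(ε/4)`.
-/

set_option autoImplicit false

namespace Pool.Agent.LibSW40

open Complex DirichletCharacter

private theorem s9_rpow_le {q : ℕ} [NeZero q] {a b : ℝ} (h : a ≤ b) :
    (q : ℝ) ^ (-b) ≤ (q : ℝ) ^ (-a) := by
  have hq0 : 0 < q := Nat.pos_of_ne_zero (NeZero.ne q)
  have hq1 : (1 : ℝ) ≤ q := by exact_mod_cast hq0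
  exact Real.rpow_le_rpow_of_exponent_le hq1 (by linarith)

private theorem s9_one_pos {q : ℕ} [NeZero q] {χ : DirichletCharacter ℂ q} (hχ : χ ≠ 1)
    (hχ2 : χ ^ 2 = 1) : 0 < (LFunction χ 1).re :=
  (L_pos hχ hχ2 (β := 1) one_pos le_rfl (fun γ h h' => absurd h' (not_lt.2 h))).2

private theorem s9_eq {q₁ q₂ : ℕ} [NeZero q₁] [NeZero q₂] {χ₁ : DirichletCharacter ℂ q₁}
    {χ₂ : DirichletCharacter ℂ q₂} (h₁ : χ₁.IsPrimitive) (h₂ : χ₂.IsPrimitive) (h2 : χ₂ ^ 2 = 1)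
    (h : mulc χ₁ χ₂ = 1) : (⟨q₁, χ₁⟩ : Σ d : ℕ, DirichletCharacter ℂ d) = ⟨q₂, χ₂⟩ := by
  have hinv : χ₂⁻¹ = χ₂ := by
    rw [inv_eq_iff_mul_eq_one, ← sq]
    exact h2
  refine Pool.Agent.LibPL63.primitive_ne h₁ h₂ ?_
  rw [hinv]
  exact h

private theorem s9_small (ε : ℝ) (hε : 0 < ε) (hε1 : ε ≤ 1) : ∃ c : ℝ, 0 < c ∧ ∀ (q : ℕ) [NeZero q]
    (χ : DirichletCharacter ℂ q),
    χ.IsPrimitive → χ ≠ 1 → χ ^ 2 = 1 → c * (q : ℝ) ^ (-ε) ≤ (LFunction χ 1).re := by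
  by_cases hcase : ∃ (q₁ : ℕ) (_ : NeZero q₁) (χ₁ : DirichletCharacter ℂ q₁) (β₁ : ℝ),
      χ₁.IsPrimitive ∧ χ₁ ≠ 1 ∧ χ₁ ^ 2 = 1 ∧ 1 - ε / 32 ≤ β₁ ∧ β₁ < 1 ∧
        LFunction χ₁ (β₁ : ℂ) = 0
  · obtain ⟨q₁, hq₁, χ₁, β₁, hp, h1, h12, hβ, hβ1, hz⟩ := hcase
    obtain ⟨c, hc, h⟩ := ineq4 q₁ χ₁ h1 h12 β₁ (by linarith) hβ1 hz
    have hL1 := s9_one_pos h1 h12
    have hq10 : 0 < q₁ := Nat.pos_of_ne_zero (NeZero.ne q₁)
    have hq11 : (1 : ℝ) ≤ q₁ := by exact_mod_cast hq10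
    have hlog1 : 0 ≤ Real.log q₁ := Real.log_nonneg hq11
    set D : ℝ := (4 + Real.log q₁) * (4 + Real.log q₁ + 4 / ε) with hD
    have hD0 : 0 < D := by positivity
    refine ⟨min (c / D) (LFunction χ₁ 1).re, lt_min (by positivity) hL1, ?_⟩
    intro q _ χ hpχ hχ1 hχ2
    have hq0 : 0 < q := Nat.pos_of_ne_zero (NeZero.ne q)
    have hq1 : (1 : ℝ) ≤ q := by exact_mod_cast hq0
    have hqp : (0 : ℝ) < q := by linarith
    have hlog : 0 ≤ Real.log q := Real.log_nonneg hq1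
    by_cases hm : mulc χ₁ χ = 1
    · have he := s9_eq hp hpχ hχ2 hm
      have hq : q₁ = q := congrArg Sigma.fst he
      subst hq
      have hχ : χ₁ = χ := by
        have := Sigma.mk.inj_iff.1 he
        exact eq_of_heq this.2
      subst hχ
      have h3 : (q₁ : ℝ) ^ (-ε) ≤ 1 := Real.rpow_le_one_of_one_le_of_nonpos hq1 (by linarith)
      calc min (c / D) (LFunction χ₁ 1).re * (q₁ : ℝ) ^ (-ε)
          ≤ (LFunction χ₁ 1).re * 1 := by
            gcongr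
            exact min_le_right _ _
        _ = (LFunction χ₁ 1).re := mul_one _
    · have h3 := h q χ hχ1 hχ2 hm
      have hL2 := s9_one_pos hχ1 hχ2
      have h4 : (LFunction χ₁ 1).re ≤ 4 + Real.log q₁ :=
        (Complex.re_le_norm _).trans (L_one_le h1)
      have h5 : (LFunction (mulc χ₁ χ) 1).re ≤ 4 + Real.log ((q₁ * q : ℕ) : ℝ) :=
        (Complex.re_le_norm _).trans (L_one_le hm)
      have h6 : Real.log ((q₁ * q : ℕ) : ℝ) = Real.log q₁ + Real.log q := by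
        push_cast
        rw [Real.log_mul (by linarith) (by linarith)]
      rw [h6] at h5
      have h7 : Real.log q ≤ (q : ℝ) ^ (ε / 4) / (ε / 4) :=
        Real.log_le_rpow_div hqp.le (by positivity)
      have h8 : (1 : ℝ) ≤ (q : ℝ) ^ (ε / 4) := Real.one_le_rpow hq1 (by positivity)
      have h9 : 4 + (Real.log q₁ + Real.log q) ≤ (4 + Real.log q₁ + 4 / ε) * (q : ℝ) ^ (ε / 4) := by
        have h10 : (q : ℝ) ^ (ε / 4) / (ε / 4) = 4 / ε * (q : ℝ) ^ (ε / 4) := by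
          field_simp
        rw [h10] at h7
        nlinarith [mul_nonneg (by positivity : 0 ≤ 4 + Real.log q₁) (sub_nonneg.2 h8)]
      have h11 : (LFunction χ₁ 1).re * (LFunction χ 1).re * (LFunction (mulc χ₁ χ) 1).re ≤
          (LFunction χ 1).re * (D * (q : ℝ) ^ (ε / 4)) := by
        have h12 : (LFunction χ₁ 1).re * (LFunction χ 1).re * (LFunction (mulc χ₁ χ) 1).re ≤
            (LFunction χ₁ 1).re * (LFunction χ 1).re *
              ((4 + Real.log q₁ + 4 / ε) * (q : ℝ) ^ (ε / 4)) := by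
          gcongr
          exact h5.trans h9
        have h13 : (LFunction χ₁ 1).re * (LFunction χ 1).re *
              ((4 + Real.log q₁ + 4 / ε) * (q : ℝ) ^ (ε / 4)) ≤
            (4 + Real.log q₁) * (LFunction χ 1).re *
              ((4 + Real.log q₁ + 4 / ε) * (q : ℝ) ^ (ε / 4)) := by
          gcongr
        refine h12.trans (h13.trans (le_of_eq ?_))
        rw [hD]
        ring
      have h14 : c * (q : ℝ) ^ (-(ε / 4)) ≤ (LFunction χ 1).re * (D * (q : ℝ) ^ (ε / 4)) := by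
        refine le_trans ?_ (h3.trans h11)
        exact mul_le_mul_of_nonneg_left (s9_rpow_le (q := q) (by linarith)) hc.le
      have h15 : c / D * (q : ℝ) ^ (-(ε / 2)) ≤ (LFunction χ 1).re := by
        have h16 : (q : ℝ) ^ (-(ε / 4)) = (q : ℝ) ^ (-(ε / 2)) * (q : ℝ) ^ (ε / 4) := by
          rw [← Real.rpow_add hqp]
          congr 1
          ring
        rw [h16] at h14
        have hp0 : 0 < D * (q : ℝ) ^ (ε / 4) := by positivity
        refine le_of_mul_le_mul_right ?_ hp0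
        calc c / D * (q : ℝ) ^ (-(ε / 2)) * (D * (q : ℝ) ^ (ε / 4))
            = c * ((q : ℝ) ^ (-(ε / 2)) * (q : ℝ) ^ (ε / 4)) := by
              field_simp
          _ ≤ _ := h14
      calc min (c / D) (LFunction χ₁ 1).re * (q : ℝ) ^ (-ε)
          ≤ c / D * (q : ℝ) ^ (-(ε / 2)) :=
            mul_le_mul (min_le_left _ _) (s9_rpow_le (q := q) (by linarith)) (by positivity)
              (by positivity)
        _ ≤ _ := h15
  · push Not at hcase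
    obtain ⟨c, hc, h⟩ := ineq2
    refine ⟨c * (ε / 32), by positivity, ?_⟩
    intro q hq χ hpχ hχ1 hχ2
    have h1 := h q χ hχ1 hχ2 (1 - ε / 32) (by linarith) (by linarith)
      (fun γ hγ hγ1 => hcase q hq χ γ hpχ hχ1 hχ2 hγ hγ1)
    have h2 : 1 - (1 - ε / 32) = ε / 32 := by ring
    rw [h2] at h1
    refine le_trans ?_ h1
    exact mul_le_mul_of_nonneg_left (s9_rpow_le (q := q) (by linarith)) (by positivity)

theorem siegel_one (ε : ℝ) (hε : 0 < ε) : ∃ c : ℝ, 0 < c ∧ ∀ (q : ℕ) [NeZero q] (χ : DirichletCharacter ℂ q),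
    χ.IsPrimitive → χ ≠ 1 → χ ^ 2 = 1 → c * (q : ℝ) ^ (-ε) ≤ (LFunction χ 1).re := by
  rcases le_or_gt ε 1 with h1 | h1
  · exact s9_small ε hε h1
  · obtain ⟨c, hc, h⟩ := s9_small 1 one_pos le_rfl
    refine ⟨c, hc, ?_⟩
    intro q _ χ hp hχ hχ2
    refine le_trans ?_ (h q χ hp hχ hχ2)
    exact mul_le_mul_of_nonneg_left (s9_rpow_le (q := q) h1.le) hc.le

end Pool.Agent.LibSW40
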