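import Mathlib

/-!
Row S1 (ONLY MATHLIB, MEDIUM). Siegel's theorem, the power series inequality (Estermann / Davenport ch. 21).

PLAN. `u = 2 - β ∈ (1, 9/8]`. `g m = (-1)^m (iteratedDeriv m G 2).re / m!`; `G β = ∑' (1/m!) iteratedDeriv m G 2 (β - 2)^m`
(`Complex.hasSum_taylorSeries_of_entire` or the like), real part `= ∑' g m u^m`. Cauchy
(`Complex.norm_iteratedDeriv_le_of_forall_mem_sphere_norm_le`): `|g m| ≤ B (2/3)^m`, so `|g m u^m| ≤ B (3/4)^m`,
tail from `M` `≤ 4 B (3/4)^M`. `hco`: `g m + lam ≥ 0`, `h0`: `g 0 + lam ≥ 1`. So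
`(G β).re ≥ 1 - lam ∑_{m<M} u^m - 4 B (3/4)^M`, `∑_{m<M} u^m = (u^M - 1)/(1 - β)`. With `hF`:
`lam u^M / (1 - β) ≥ 1 - 4 B (3/4)^M ≥ 1/2` for `M = ⌈log(8B)/log(4/3)⌉`, `M ≤ 4 log(8B)` (`log(4/3) ≥ 0.28`, `log 8 ≥ 2`),
`u^M ≤ exp((1-β) M) ≤ (8B)^(4(1-β))`. (There is slack: 6 instead of 2.)
-/

set_option autoImplicit false

namespace Pool.Agent.LibSW40

private theorem s1_cast (x : ℝ) (m : ℕ) (w : ℂ) :
    (((m.factorial : ℂ))⁻¹ • ((x : ℂ)) ^ m • w).re = x ^ m * w.re / (m.factorial : ℝ) := by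
  have h : ((m.factorial : ℂ))⁻¹ • ((x : ℂ)) ^ m • w = (((m.factorial : ℝ)⁻¹ * x ^ m : ℝ) : ℂ) * w := by
    rw [smul_eq_mul, smul_eq_mul]
    push_cast
    ring
  rw [h, Complex.re_ofReal_mul]
  field_simp

theorem siegel_ineq {G : ℂ → ℂ} (hG : Differentiable ℂ G) {B lam β : ℝ} (hB1 : 1 ≤ B)
    (hB : ∀ s ∈ Metric.closedBall (2 : ℂ) (3 / 2), ‖G s‖ ≤ B) (hlam : 0 ≤ lam)
    (hco : ∀ m : ℕ, 0 ≤ (-1 : ℝ) ^ m * (iteratedDeriv m G 2).re + (m.factorial : ℝ) * lam)
    (h0 : 1 ≤ (G 2).re + lam) (hβ : 7 / 8 ≤ β) (hβ1 : β < 1)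
    (hF : (G (β : ℂ)).re ≤ lam / (1 - β)) :
    (1 - β) / 6 * (8 * B) ^ (-(4 * (1 - β))) ≤ lam := by
  have hβ0 : 0 < 1 - β := by linarith
  have hB0 : 0 < B := by linarith
  set u : ℝ := 2 - β with hu
  have hu0 : 0 < u := by rw [hu]; linarith
  have hu1 : 1 < u := by rw [hu]; linarith
  have hu2 : u ≤ 9 / 8 := by rw [hu]; linarith
  set g : ℕ → ℝ := fun m => (-1 : ℝ) ^ m * (iteratedDeriv m G 2).re / (m.factorial : ℝ) with hg
  -- the Taylor series
  have hsum : HasSum (fun m : ℕ => g m * u ^ m) (G (β : ℂ)).re := by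
    have h1 := Complex.hasSum_taylorSeries_of_entire hG 2 (β : ℂ)
    have h2 := Complex.hasSum_re h1
    refine h2.congr_fun ?_ |> id
    intro m
    have h3 : ((β : ℂ) - 2) = ((-u : ℝ) : ℂ) := by
      rw [hu]
      push_cast
      ring
    rw [h3, s1_cast, hg]
    simp only
    rw [neg_pow]
    ring
  -- Cauchy
  have hcau : ∀ m : ℕ, |g m| ≤ B * (2 / 3) ^ m := by
    intro m
    have h1 : ‖iteratedDeriv m G 2‖ ≤ m.factorial * B / (3 / 2) ^ m := by
      refine Complex.norm_iteratedDeriv_le_of_forall_mem_sphere_norm_le m (by norm_num)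
        hG.diffContOnCl ?_
      intro z hz
      exact hB z (Metric.sphere_subset_closedBall hz)
    have h2 : |(iteratedDeriv m G 2).re| ≤ m.factorial * B / (3 / 2) ^ m :=
      (Complex.abs_re_le_norm _).trans h1
    have hm : (0 : ℝ) < m.factorial := by exact_mod_cast Nat.factorial_pos m
    rw [hg]
    simp only
    rw [abs_div, abs_mul, abs_pow, abs_neg, abs_one, one_pow, one_mul, abs_of_pos hm, div_le_iff₀ hm]
    refine h2.trans (le_of_eq ?_)
    rw [div_pow, div_pow]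
    field_simp
  have hterm : ∀ m : ℕ, |g m * u ^ m| ≤ B * (3 / 4) ^ m := by
    intro m
    rw [abs_mul, abs_of_pos (pow_pos hu0 m)]
    calc |g m| * u ^ m ≤ (B * (2 / 3) ^ m) * (9 / 8) ^ m := by
          refine mul_le_mul (hcau m) (pow_le_pow_left₀ hu0.le hu2 m) (by positivity) (by positivity)
      _ = B * (3 / 4) ^ m := by
          rw [mul_assoc, ← mul_pow]
          norm_num
  -- the cut
  set L : ℝ := Real.log (8 * B) with hL
  set M : ℕ := ⌊4 * L⌋₊ with hM
  have hL1 : 7 / 8 ≤ L := by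
    have h1 := Real.one_sub_inv_le_log_of_pos (by positivity : (0 : ℝ) < 8 * B)
    have h2 : (8 * B)⁻¹ ≤ 1 / 8 := by
      rw [inv_le_comm₀ (by positivity) (by norm_num)]
      norm_num
      linarith
    rw [hL]
    linarith
  have hL0 : 0 ≤ 4 * L := by linarith
  have hM1 : (M : ℝ) ≤ 4 * L := Nat.floor_le hL0
  have hM2 : 4 * L < M + 1 := Nat.lt_floor_add_one _
  have hMpos : 0 < M := by
    rw [hM]
    exact Nat.floor_pos.2 (by linarith)
  have h34 : 4 * B * (3 / 4) ^ M ≤ 2 / 3 := by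
    have h1 : (1 / 4 : ℝ) ≤ Real.log (4 / 3) := by
      have := Real.one_sub_inv_le_log_of_pos (by norm_num : (0 : ℝ) < 4 / 3)
      norm_num at this ⊢
      linarith
    have h2 : 8 * B ≤ (4 / 3 : ℝ) ^ (M + 1) := by
      have h3 : L ≤ Real.log ((4 / 3 : ℝ) ^ (M + 1)) := by
        rw [Real.log_pow]
        push_cast
        have h4 : (0 : ℝ) ≤ (M : ℝ) + 1 := by positivity
        nlinarith
      rw [hL] at h3
      exact (Real.log_le_log_iff (by positivity) (by positivity)).1 h3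
    have h5 : (3 / 4 : ℝ) ^ M * (4 / 3) ^ M = 1 := by
      rw [← mul_pow]
      norm_num
    rw [pow_succ] at h2
    have h6 : (0 : ℝ) < (3 / 4 : ℝ) ^ M := by positivity
    have h7 := mul_le_mul_of_nonneg_left h2 h6.le
    have h8 : (3 / 4 : ℝ) ^ M * ((4 / 3) ^ M * (4 / 3)) = 4 / 3 := by
      rw [← mul_assoc, h5, one_mul]
    rw [h8] at h7
    linarith
  -- the head
  have hsm : Summable (fun m : ℕ => g m * u ^ m) := hsum.summable
  have hsplit := hsm.sum_add_tsum_nat_add M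
  rw [hsum.tsum_eq] at hsplit
  have hhead : 1 - lam * ∑ m ∈ Finset.range M, u ^ m ≤ ∑ m ∈ Finset.range M, g m * u ^ m := by
    have h1 : ∀ m : ℕ, -(lam * u ^ m) ≤ g m * u ^ m := by
      intro m
      have h2 := hco m
      have hm : (0 : ℝ) < m.factorial := by exact_mod_cast Nat.factorial_pos m
      have h3 : -lam ≤ g m := by
        rw [hg]
        simp only
        rw [le_div_iff₀ hm]
        linarith
      have h4 := mul_le_mul_of_nonneg_right h3 (pow_nonneg hu0.le m)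
      linarith
    obtain ⟨N, hN⟩ : ∃ N, M = N + 1 := ⟨M - 1, by omega⟩
    rw [hN, Finset.sum_range_succ', Finset.sum_range_succ', mul_add, Finset.mul_sum]
    have h5 : g 0 = (G 2).re := by
      rw [hg]
      simp
    have h6 : -(∑ i ∈ Finset.range N, lam * u ^ (i + 1)) ≤ ∑ i ∈ Finset.range N, g (i + 1) * u ^ (i + 1) := by
      rw [← Finset.sum_neg_distrib]
      exact Finset.sum_le_sum fun i _ => h1 (i + 1)
    rw [h5]
    simp only [pow_zero, mul_one]
    linarith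
  have htail : -(4 * B * (3 / 4) ^ M) ≤ ∑' m : ℕ, g (m + M) * u ^ (m + M) := by
    have h1 : Summable (fun m : ℕ => B * (3 / 4 : ℝ) ^ (m + M)) := by
      have h2 : Summable (fun m : ℕ => (3 / 4 : ℝ) ^ m) :=
        summable_geometric_of_lt_one (by norm_num) (by norm_num)
      exact ((summable_nat_add_iff M).2 h2).mul_left B
    have h3 : ∑' m : ℕ, B * (3 / 4 : ℝ) ^ (m + M) = 4 * B * (3 / 4) ^ M := by
      rw [tsum_mul_left]
      have h4 : ∀ m : ℕ, (3 / 4 : ℝ) ^ (m + M) = (3 / 4) ^ m * (3 / 4) ^ M := fun m => pow_add _ _ _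
      rw [tsum_congr h4, tsum_mul_right, tsum_geometric_of_lt_one (by norm_num) (by norm_num)]
      ring
    have h5 : Summable (fun m : ℕ => g (m + M) * u ^ (m + M)) := (summable_nat_add_iff M).2 hsm
    rw [← h3, ← tsum_neg]
    refine h1.neg.tsum_le_tsum (fun m => ?_) h5
    exact (abs_le.1 (hterm (m + M))).1
  have hgeom : ∑ m ∈ Finset.range M, u ^ m = (u ^ M - 1) / (1 - β) := by
    rw [geom_sum_eq hu1.ne']
    congr 1
    rw [hu]
    ring
  rw [hgeom] at hhead
  have hmain : 1 / 3 ≤ lam * u ^ M / (1 - β) := by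
    have h1 : lam * ((u ^ M - 1) / (1 - β)) = lam * u ^ M / (1 - β) - lam / (1 - β) := by
      field_simp
    rw [h1] at hhead
    linarith
  -- the power
  have hpow : u ^ M ≤ (8 * B) ^ (4 * (1 - β)) := by
    have h1 : u ≤ Real.exp (1 - β) := by
      have := Real.add_one_le_exp (1 - β)
      rw [hu]
      linarith
    calc u ^ M ≤ Real.exp (1 - β) ^ M := pow_le_pow_left₀ hu0.le h1 M
      _ = Real.exp (M * (1 - β)) := by rw [← Real.exp_nat_mul]
      _ ≤ Real.exp (L * (4 * (1 - β))) := by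
          refine Real.exp_le_exp.2 ?_
          nlinarith
      _ = (8 * B) ^ (4 * (1 - β)) := by
          rw [Real.rpow_def_of_pos (by positivity)]
  have hP : 0 < (8 * B) ^ (4 * (1 - β)) := Real.rpow_pos_of_pos (by positivity) _
  have h2 : (1 - β) / 3 ≤ lam * (8 * B) ^ (4 * (1 - β)) := by
    have h3 : (1 - β) / 3 ≤ lam * u ^ M := by
      rw [le_div_iff₀ hβ0] at hmain
      linarith
    exact h3.trans (mul_le_mul_of_nonneg_left hpow hlam)
  rw [Real.rpow_neg (by positivity), ← div_eq_mul_inv, div_le_iff₀ hP]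
  linarith

end Pool.Agent.LibSW40
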