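import Pool.Agent.LibSW40.S11
import Pool.Agent.LibMaier.ZeroFree

/-!
Row B1 (MEDIUM). Zero-free region for all characters of modulus `q ≤ x^K`.

PLAN. `T = 2 x^K + exp L₀` in `LibMaier.zero_free`; `LL q T ≤ (3K + 3) log x` for large `x`, so if `ρ.im ≠ 0` or `χ² ≠ 1`:
`ρ.re ≤ 1 - kk / LL q T ≤ 1 - x^(-1/3)`. Otherwise `ρ` is real and `χ² = 1`: `siegel_zero` with `ε = 1/(4(K+1))`:
`1 - ρ.re ≥ c q^(-ε) ≥ c x^(-1/4) ≥ x^(-1/3)`.
-/

set_option autoImplicit false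

namespace Pool.Agent.LibSW40

open Complex DirichletCharacter Filter

theorem zero_free_pow (K : ℕ) : ∀ᶠ x : ℝ in atTop, ∀ (q : ℕ) [NeZero q], (q : ℝ) ≤ x ^ K →
    ∀ χ : DirichletCharacter ℂ q, χ ≠ 1 → ∀ ρ : ℂ, LFunction χ ρ = 0 → |ρ.im| ≤ x ^ K →
      ρ.re ≤ 1 - x ^ (-(1 / 3 : ℝ)) := by
  obtain ⟨L₀, hL1, hz⟩ := LibMaier.zero_free
  have hK0 : (0 : ℝ) ≤ K := Nat.cast_nonneg K
  have hε0 : (0 : ℝ) < 1 / (4 * ((K : ℝ) + 1)) := by positivity
  obtain ⟨c, hc, hs⟩ := siegel_zero (1 / (4 * ((K : ℝ) + 1))) hε0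
  have hkk : 0 < LibMaier.kk := by
    unfold LibMaier.kk
    norm_num
  have h2 : ∀ᶠ x : ℝ in atTop, ‖Real.log x‖ ≤ LibMaier.kk / (2 * K + 1) * ‖x ^ (1 / 3 : ℝ)‖ :=
    (isLittleO_log_rpow_atTop (by norm_num : (0 : ℝ) < 1 / 3)).bound (by positivity)
  have h3 : ∀ᶠ x : ℝ in atTop, x ^ (-(1 / 12 : ℝ)) ≤ c :=
    (tendsto_rpow_neg_atTop (by norm_num : (0 : ℝ) < 1 / 12)).eventually_le_const hc
  filter_upwards [h2, h3, eventually_ge_atTop (Real.exp L₀ + 5), eventually_gt_atTop 1]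
    with x hx2 hx3 hx4 hx1 q hq hqx χ hχ ρ hρ hρi
  have hx0 : 0 < x := by linarith
  have hxK : 1 ≤ x ^ K := one_le_pow₀ hx1.le
  have hlog : 0 < Real.log x := Real.log_pos hx1
  have hq1 : (1 : ℝ) ≤ q := by exact_mod_cast Nat.one_le_iff_ne_zero.2 (NeZero.ne q)
  by_cases hcase : ρ.im ≠ 0 ∨ χ ^ 2 ≠ 1
  · have hT : 0 ≤ 2 * x ^ K + Real.exp L₀ := by positivity
    have hpos : 0 < (q : ℝ) * (2 * x ^ K + Real.exp L₀ + 3) := by positivity
    have hLL : L₀ ≤ LibMaier.LL q (2 * x ^ K + Real.exp L₀) := by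
      unfold LibMaier.LL
      rw [Real.le_log_iff_exp_le hpos]
      have h5 : Real.exp L₀ ≤ 2 * x ^ K + Real.exp L₀ + 3 := by linarith
      have h6 : 2 * x ^ K + Real.exp L₀ + 3 ≤ (q : ℝ) * (2 * x ^ K + Real.exp L₀ + 3) :=
        le_mul_of_one_le_left (by positivity) hq1
      linarith
    have h7 := hz q (2 * x ^ K + Real.exp L₀) hT hLL χ hχ ρ hρ
      (by linarith [Real.exp_pos L₀]) hcase
    have hLp : 0 < LibMaier.LL q (2 * x ^ K + Real.exp L₀) := by linarith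
    have hLu : LibMaier.LL q (2 * x ^ K + Real.exp L₀) ≤ (2 * K + 1) * Real.log x := by
      have h8 : (q : ℝ) * (2 * x ^ K + Real.exp L₀ + 3) ≤ x ^ (2 * K + 1) := by
        have h9 : 2 * x ^ K + Real.exp L₀ + 3 ≤ x ^ (K + 1) := by
          have h10 : (Real.exp L₀ + 3) * 1 ≤ (Real.exp L₀ + 3) * x ^ K :=
            mul_le_mul_of_nonneg_left hxK (by positivity)
          have h11 : (Real.exp L₀ + 5) * x ^ K ≤ x * x ^ K :=
            mul_le_mul_of_nonneg_right hx4 (by positivity)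
          rw [pow_succ']
          nlinarith
        calc (q : ℝ) * (2 * x ^ K + Real.exp L₀ + 3) ≤ x ^ K * x ^ (K + 1) :=
              mul_le_mul hqx h9 (by positivity) (by positivity)
          _ = x ^ (2 * K + 1) := by rw [← pow_add]; congr 1; ring
      unfold LibMaier.LL
      calc Real.log ((q : ℝ) * (2 * x ^ K + Real.exp L₀ + 3)) ≤ Real.log (x ^ (2 * K + 1)) :=
            Real.log_le_log hpos h8
        _ = (2 * K + 1) * Real.log x := by
            rw [Real.log_pow]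
            push_cast
            ring
    have h12 : x ^ (-(1 / 3 : ℝ)) ≤ LibMaier.kk / LibMaier.LL q (2 * x ^ K + Real.exp L₀) := by
      rw [le_div_iff₀ hLp]
      rw [Real.norm_of_nonneg hlog.le, Real.norm_of_nonneg (by positivity)] at hx2
      have h13 : (2 * K + 1) * Real.log x ≤ LibMaier.kk * x ^ (1 / 3 : ℝ) := by
        rw [div_mul_eq_mul_div, le_div_iff₀ (by positivity)] at hx2
        linarith
      have h14 : x ^ (-(1 / 3 : ℝ)) * x ^ (1 / 3 : ℝ) = 1 := by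
        rw [← Real.rpow_add hx0]
        norm_num
      have h15 : 0 < x ^ (-(1 / 3 : ℝ)) := by positivity
      calc x ^ (-(1 / 3 : ℝ)) * LibMaier.LL q (2 * x ^ K + Real.exp L₀)
          ≤ x ^ (-(1 / 3 : ℝ)) * (LibMaier.kk * x ^ (1 / 3 : ℝ)) :=
            mul_le_mul_of_nonneg_left (hLu.trans h13) h15.le
        _ = LibMaier.kk := by
            rw [mul_comm LibMaier.kk, ← mul_assoc, h14, one_mul]
    linarith
  · rw [not_or, not_not, not_not] at hcase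
    obtain ⟨hi, hχ2⟩ := hcase
    have hρr : ρ = ((ρ.re : ℝ) : ℂ) := by
      apply Complex.ext
      · simp
      · simp [hi]
    rw [hρr] at hρ
    have h5 := hs q χ hχ hχ2 ρ.re hρ
    have h6 : x ^ (-(1 / 4 : ℝ)) ≤ (q : ℝ) ^ (-(1 / (4 * ((K : ℝ) + 1)))) := by
      have h7 : (x ^ K : ℝ) ^ (-(1 / (4 * ((K : ℝ) + 1)))) ≤ (q : ℝ) ^ (-(1 / (4 * ((K : ℝ) + 1)))) :=
        Real.rpow_le_rpow_of_nonpos (by linarith) hqx (by linarith)
      refine le_trans ?_ h7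
      rw [← Real.rpow_natCast x K, ← Real.rpow_mul hx0.le]
      apply Real.rpow_le_rpow_of_exponent_le hx1.le
      have h8 : (K : ℝ) * (1 / (4 * ((K : ℝ) + 1))) ≤ 1 / 4 := by
        rw [mul_one_div, div_le_div_iff₀ (by positivity) (by norm_num)]
        linarith
      linarith
    have h9 : x ^ (-(1 / 3 : ℝ)) ≤ c * x ^ (-(1 / 4 : ℝ)) := by
      have h10 : x ^ (-(1 / 3 : ℝ)) = x ^ (-(1 / 12 : ℝ)) * x ^ (-(1 / 4 : ℝ)) := by
        rw [← Real.rpow_add hx0]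
        norm_num
      rw [h10]
      exact mul_le_mul_of_nonneg_right hx3 (by positivity)
    have h11 := mul_le_mul_of_nonneg_left h6 hc.le
    linarith

end Pool.Agent.LibSW40
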