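import Pool.Agent.LibSW40.B1
import Pool.Agent.LibHG31.CB1
import Pool.Agent.LibMaier.SmallBound

/-!
Row B2 (MEDIUM). Twisted Gaussian sums for the moduli `q ≤ x^K`.

PLAN. `LibHG31.norm_GS_low` with `α = x^(-1/3)`, `T = x^(K+1)` (`zero_free_pow (K+1)`; `T - 2 - |lam| ≥ x/2`):
`≤ (T e^(-x^(2/3)/4) + 6 e^(-x²/8)) 20 (LL q T + 3) x^(2/3) + 6 LS(1/x) e^(-x²/16)`, `LS (1/x)` by `LibMaier.LS_le`. Template of the
final estimate: `LibHG31/CB3.lean` (`cb3_final`) and `LibPL63/B1.lean` (`eventually_growth`, `small_char`).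
-/

set_option autoImplicit false

namespace Pool.Agent.LibSW40

open Complex DirichletCharacter Filter
open scoped ArithmeticFunction.vonMangoldt
open Pool.Agent.LibPL63 (GS)
open Pool.Agent.LibHG31 (tw cp)
open Pool.Agent.LibMaier (LL LS)

private theorem b2_log_le (ε : ℝ) (hε : 0 < ε) :
    ∀ᶠ x : ℝ in atTop, Real.log x ≤ ε * x ^ (2 / 3 : ℝ) := by
  have h := (isLittleO_log_rpow_atTop (show (0 : ℝ) < 2 / 3 by norm_num)).bound hε
  filter_upwards [h, eventually_ge_atTop (1 : ℝ)] with x hx hx1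
  rw [Real.norm_eq_abs, Real.norm_eq_abs] at hx
  rw [abs_of_nonneg (Real.rpow_nonneg (by linarith) _)] at hx
  exact (le_abs_self _).trans hx

private theorem b2_half_le (ε : ℝ) (hε : 0 < ε) :
    ∀ᶠ x : ℝ in atTop, x ^ (1 / 2 : ℝ) ≤ ε * x ^ (2 / 3 : ℝ) := by
  have h : ∀ᶠ x : ℝ in atTop, 1 / ε ≤ x ^ (1 / 6 : ℝ) :=
    (tendsto_rpow_atTop (show (0 : ℝ) < 1 / 6 by norm_num)).eventually_ge_atTop _
  filter_upwards [h, eventually_ge_atTop (1 : ℝ)] with x hx hx1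
  have hx0 : 0 < x := by linarith
  have e : x ^ (2 / 3 : ℝ) = x ^ (1 / 2 : ℝ) * x ^ (1 / 6 : ℝ) := by
    rw [← Real.rpow_add hx0]
    norm_num
  have h1 : 1 ≤ ε * x ^ (1 / 6 : ℝ) := by
    rw [div_le_iff₀ hε] at hx
    linarith
  rw [e]
  calc x ^ (1 / 2 : ℝ) = x ^ (1 / 2 : ℝ) * 1 := by ring
    _ ≤ x ^ (1 / 2 : ℝ) * (ε * x ^ (1 / 6 : ℝ)) := mul_le_mul_of_nonneg_left h1 (Real.rpow_nonneg hx0.le _)
    _ = ε * (x ^ (1 / 2 : ℝ) * x ^ (1 / 6 : ℝ)) := by ring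

private theorem b2_final (C : ℝ) (M : ℕ) :
    ∀ᶠ x : ℝ in atTop, C * x ^ M * Real.exp (-(x ^ (2 / 3 : ℝ) / 4)) ≤ Real.exp (-(x ^ (1 / 2 : ℝ))) := by
  have h1 := b2_log_le (1 / (12 * (M + 1))) (by positivity)
  have h2 := b2_half_le (1 / 12) (by positivity)
  have h3 : ∀ᶠ x : ℝ in atTop, 12 * |C| ≤ x ^ (2 / 3 : ℝ) :=
    (tendsto_rpow_atTop (show (0 : ℝ) < 2 / 3 by norm_num)).eventually_ge_atTop _
  filter_upwards [h1, h2, h3, eventually_ge_atTop (1 : ℝ)] with x hx1 hx2 hx3 hx4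
  have hx0 : 0 < x := by linarith
  obtain ⟨Y, hY⟩ : ∃ Y : ℝ, Y = x ^ (2 / 3 : ℝ) := ⟨_, rfl⟩
  rw [← hY] at hx1 hx2 hx3 ⊢
  have hY0 : 0 ≤ Y := by rw [hY]; exact Real.rpow_nonneg hx0.le _
  have hpow : x ^ M ≤ Real.exp (Y / 12) := by
    have h4 : x ^ M = Real.exp (M * Real.log x) := by
      rw [Real.exp_nat_mul, Real.exp_log hx0]
    rw [h4]
    apply Real.exp_le_exp.2
    have h5 : (M : ℝ) * Real.log x ≤ M * (1 / (12 * (M + 1)) * Y) :=
      mul_le_mul_of_nonneg_left hx1 (Nat.cast_nonneg _)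
    refine h5.trans ?_
    have h6 : (M : ℝ) * (1 / (12 * (M + 1))) ≤ 1 / 12 := by
      rw [mul_one_div, div_le_div_iff₀ (by positivity) (by norm_num)]
      linarith
    calc (M : ℝ) * (1 / (12 * (M + 1)) * Y) = (M : ℝ) * (1 / (12 * (M + 1))) * Y := by ring
      _ ≤ 1 / 12 * Y := mul_le_mul_of_nonneg_right h6 hY0
      _ = Y / 12 := by ring
  have hC : C ≤ Real.exp (Y / 12) := by
    have := Real.add_one_le_exp (Y / 12)
    have := le_abs_self C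
    linarith
  calc C * x ^ M * Real.exp (-(Y / 4)) ≤ Real.exp (Y / 12) * Real.exp (Y / 12) * Real.exp (-(Y / 4)) := by
        apply mul_le_mul_of_nonneg_right _ (Real.exp_pos _).le
        calc C * x ^ M ≤ Real.exp (Y / 12) * x ^ M := mul_le_mul_of_nonneg_right hC (by positivity)
          _ ≤ _ := mul_le_mul_of_nonneg_left hpow (Real.exp_pos _).le
    _ = Real.exp (-(1 / 12 * Y)) := by
        rw [← Real.exp_add, ← Real.exp_add]
        congr 1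
        ring
    _ ≤ Real.exp (-(x ^ (1 / 2 : ℝ))) := by
        apply Real.exp_le_exp.2
        linarith

theorem GS_tw_le (K : ℕ) : ∀ᶠ x : ℝ in atTop, ∀ (q : ℕ) [NeZero q], (q : ℝ) ≤ x ^ K →
    ∀ χ : DirichletCharacter ℂ q, χ ≠ 1 → ∀ lam : ℝ, |lam| ≤ x ^ K →
      ‖GS (tw χ lam * (fun n : ℕ => (Λ n : ℂ))) x‖ ≤ Real.exp (-(x ^ (1 / 2 : ℝ))) := by
  have h64 : ∀ᶠ x : ℝ in atTop, 4 ≤ x ^ (1 / 3 : ℝ) :=
    (tendsto_rpow_atTop (show (0 : ℝ) < 1 / 3 by norm_num)).eventually_ge_atTop _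
  filter_upwards [eventually_ge_atTop (8 : ℝ), h64, zero_free_pow (K + 1),
    b2_final 10000 (3 * K + 8)] with x h8 h64 hzf hfin
  intro q _ hq χ hχ lam hlam
  have hx0 : 0 < x := by linarith
  have hx1 : (1 : ℝ) ≤ x := by linarith
  have hxK : 1 ≤ x ^ K := one_le_pow₀ (by linarith)
  have hq1 : (1 : ℝ) ≤ q := by exact_mod_cast Nat.one_le_iff_ne_zero.2 (NeZero.ne q)
  -- the parameters
  obtain ⟨T, hT⟩ : ∃ T : ℝ, T = x ^ (K + 1) := ⟨_, rfl⟩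
  have hTe : T = x ^ K * x := by rw [hT, pow_succ]
  have hT0 : 0 < T := by rw [hT]; positivity
  have hTx : x ≤ T := by rw [hTe]; nlinarith
  obtain ⟨R, hR⟩ : ∃ R : ℝ, R = T - 2 - |lam| := ⟨_, rfl⟩
  have hRx : x / 2 ≤ R := by
    rw [hR, hTe]
    nlinarith [mul_nonneg (sub_nonneg.2 hxK) (show (0 : ℝ) ≤ x - 1 by linarith)]
  obtain ⟨α, hα⟩ : ∃ α : ℝ, α = x ^ (-(1 / 3 : ℝ)) := ⟨_, rfl⟩
  have hα0 : 0 < α := by rw [hα]; exact Real.rpow_pos_of_pos hx0 _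
  have hαinv : α * x ^ (1 / 3 : ℝ) = 1 := by
    rw [hα, ← Real.rpow_add hx0]
    norm_num
  have hα4 : α ≤ 1 / 4 := by
    have : α * 4 ≤ 1 := by
      rw [← hαinv]
      exact mul_le_mul_of_nonneg_left h64 hα0.le
    linarith
  have hαx : α * x = x ^ (2 / 3 : ℝ) := by
    rw [hα]
    nth_rw 2 [← Real.rpow_one x]
    rw [← Real.rpow_add hx0]
    norm_num
  have hα2 : 1 / α ^ 2 = x ^ (2 / 3 : ℝ) := by
    have e : x ^ (2 / 3 : ℝ) = (x ^ (1 / 3 : ℝ)) ^ 2 := by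
      rw [← Real.rpow_natCast (x ^ (1 / 3 : ℝ)) 2, ← Real.rpow_mul hx0.le]
      norm_num
    rw [e, div_eq_iff (by positivity), ← mul_pow, mul_comm, hαinv, one_pow]
  have hx23 : x ^ (2 / 3 : ℝ) ≤ x := by
    calc x ^ (2 / 3 : ℝ) ≤ x ^ (1 : ℝ) := Real.rpow_le_rpow_of_exponent_le hx1 (by norm_num)
      _ = x := Real.rpow_one x
  have hqT : (q : ℝ) ≤ x ^ (K + 1) := by
    refine hq.trans ?_
    exact pow_le_pow_right₀ hx1 (by omega)
  have hz : ∀ ρ : ℂ, LFunction χ ρ = 0 → |ρ.im| ≤ T → ρ.re ≤ 1 - α := by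
    intro ρ hρ hρT
    rw [hα]
    exact hzf q hqT χ hχ ρ hρ (by rw [← hT]; exact hρT)
  have hlow := Pool.Agent.LibHG31.norm_GS_low hχ hα0 hα4 hz (lam := lam) (by linarith) (x := x) (by linarith)
  rw [← hR] at hlow
  obtain ⟨E, hE⟩ : ∃ E : ℝ, E = Real.exp (-(x ^ (2 / 3 : ℝ) / 4)) := ⟨_, rfl⟩
  have hE0 : 0 < E := by rw [hE]; exact Real.exp_pos _
  have hE1 : Real.exp (-(α * x / 4)) = E := by rw [hE, hαx]
  have hRsq : (x / 2) ^ 2 ≤ R ^ 2 := pow_le_pow_left₀ (by positivity) hRx 2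
  have hE2 : Real.exp (-R ^ 2 / 2) ≤ E := by
    rw [hE]
    apply Real.exp_le_exp.2
    nlinarith
  have hE3 : Real.exp (-R ^ 2 / 4) ≤ E := by
    rw [hE]
    apply Real.exp_le_exp.2
    nlinarith
  have hLS := Pool.Agent.LibMaier.LS_inv_le (x := x) (by linarith)
  have hLS0 := Pool.Agent.LibMaier.LS_nonneg (1 / x)
  -- the logarithm
  have hLL : LL q T ≤ 2 * (x ^ K * T) := by
    unfold LL
    refine (Real.log_le_sub_one_of_pos (by positivity)).trans ?_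
    have h1 : (q : ℝ) * (T + 3) ≤ x ^ K * (2 * T) :=
      mul_le_mul hq (by linarith) (by positivity) (by positivity)
    nlinarith
  have hLL0 : 0 ≤ LL q T := by
    unfold LL
    apply Real.log_nonneg
    nlinarith
  have hxKT : 8 ≤ x ^ K * T := by nlinarith
  rw [hE1] at hlow
  have hf1 : T * E + 6 * Real.exp (-R ^ 2 / 2) ≤ 2 * T * E := by nlinarith
  have hf2 : 20 * (LL q T + 3) / α ^ 2 ≤ 60 * (x ^ K * T) * x := by
    have e1 : 20 * (LL q T + 3) / α ^ 2 = 20 * (LL q T + 3) * (1 / α ^ 2) := by ring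
    rw [e1, hα2]
    apply mul_le_mul _ hx23 (Real.rpow_nonneg hx0.le _) (by positivity)
    linarith
  have hP1 : (T * E + 6 * Real.exp (-R ^ 2 / 2)) * (20 * (LL q T + 3) / α ^ 2) ≤
      (2 * T * E) * (60 * (x ^ K * T) * x) :=
    mul_le_mul hf1 hf2 (by positivity) (by positivity)
  have hP2 : 6 * LS (1 / x) * Real.exp (-R ^ 2 / 4) ≤ 6 * (865 * x ^ 2) * E :=
    mul_le_mul (by linarith) hE3 (Real.exp_pos _).le (by positivity)
  refine (hlow.trans (add_le_add hP1 hP2)).trans (le_trans ?_ hfin)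
  rw [← hE]
  have hp1 : x ^ (3 * K + 3) ≤ x ^ (3 * K + 8) := pow_le_pow_right₀ hx1 (by omega)
  have hp2 : x ^ 2 ≤ x ^ (3 * K + 8) := pow_le_pow_right₀ hx1 (by omega)
  have e2 : (2 * T * E) * (60 * (x ^ K * T) * x) = 120 * x ^ (3 * K + 3) * E := by
    rw [hT]
    ring
  rw [e2]
  nlinarith [mul_le_mul_of_nonneg_right hp1 hE0.le, mul_le_mul_of_nonneg_right hp2 hE0.le]

end Pool.Agent.LibSW40
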