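import Pool.Agent.LibSW40.B2
import Pool.Agent.LibHG31.CB6
import Pool.Agent.LibPL63.B0b

/-!
Row B3 (MEDIUM). Gaussian sums with a frequency over primes in a residue class.

PLAN. Orthogonality of the characters modulo `q` as in `LibPL63/B0b.lean` (`ap_sum_abs_le`):
`GS (cap q a · cp lam) = (1/φ(q)) ∑_χ conj(χ a) GS (tw χ lam * Λ)`. `χ ≠ 1`: `GS_tw_le K`. `χ = 1`: differs from
`GS (Λ · cp lam)` by the terms `n` not coprime to `q`: `≤ 4 ω(q) e^(-x/4)` (`tsum_not_coprime_le`), and `LibHG31.zeta_GS K`.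
-/

set_option autoImplicit false

namespace Pool.Agent.LibSW40

open Complex DirichletCharacter Filter
open scoped ArithmeticFunction.vonMangoldt
open Pool.Agent.LibPL63 (GS)
open Pool.Agent.LibHG31 (tw cp)

/-- `Λ` on the residue class `a` modulo `q` -/
noncomputable def cap (q a n : ℕ) : ℂ := if n ≡ a [MOD q] then (Λ n : ℂ) else 0

private theorem b3_norm_cp (lam : ℝ) (n : ℕ) : ‖cp lam n‖ = 1 := by
  unfold cp
  exact Complex.norm_exp_ofReal_mul_I _

private theorem b3_small (K : ℕ) : ∀ᶠ x : ℝ in atTop,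
    4 * x ^ K * Real.exp (-x / 4) ≤ Real.exp (-(x ^ (1 / 2 : ℝ))) := by
  have h1 := (Real.tendsto_pow_mul_exp_neg_atTop_nhds_zero K).comp
    (tendsto_id.atTop_div_const (show (0:ℝ) < 8 by norm_num))
  have h2 := h1.eventually (gt_mem_nhds (show (0:ℝ) < 1 / (4 * 8 ^ K) by positivity))
  filter_upwards [h2, eventually_ge_atTop (64 : ℝ)] with x hx hx64
  have hx0 : 0 < x := by linarith
  simp only [Function.comp_apply, id] at hx
  have hs : x ^ (1 / 2 : ℝ) ≤ x / 8 := by
    rw [← Real.sqrt_eq_rpow, Real.sqrt_le_left (by linarith)]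
    nlinarith
  have h3 : Real.exp (-x / 4) ≤ Real.exp (-(x / 8)) * Real.exp (-(x ^ (1 / 2 : ℝ))) := by
    rw [← Real.exp_add]
    apply Real.exp_le_exp.2
    linarith
  have h4 : 4 * x ^ K * Real.exp (-(x / 8)) ≤ 1 := by
    have h5 : (x / 8) ^ K * Real.exp (-(x / 8)) * (4 * 8 ^ K) ≤ 1 := by
      have := mul_le_mul_of_nonneg_right hx.le (show (0:ℝ) ≤ 4 * 8 ^ K by positivity)
      rwa [one_div, inv_mul_cancel₀ (by positivity)] at this
    have h6 : (x / 8) ^ K * Real.exp (-(x / 8)) * (4 * 8 ^ K) = 4 * x ^ K * Real.exp (-(x / 8)) := by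
      rw [div_pow]
      field_simp
    rwa [h6] at h5
  calc 4 * x ^ K * Real.exp (-x / 4)
      ≤ 4 * x ^ K * (Real.exp (-(x / 8)) * Real.exp (-(x ^ (1 / 2 : ℝ)))) :=
        mul_le_mul_of_nonneg_left h3 (by positivity)
    _ = (4 * x ^ K * Real.exp (-(x / 8))) * Real.exp (-(x ^ (1 / 2 : ℝ))) := by ring
    _ ≤ 1 * Real.exp (-(x ^ (1 / 2 : ℝ))) := mul_le_mul_of_nonneg_right h4 (Real.exp_pos _).le
    _ = _ := one_mul _

private theorem b3_sum {q : ℕ} (χ : DirichletCharacter ℂ q) (lam x : ℝ) : Summable fun n : ℕ =>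
    (tw χ lam * (fun n : ℕ => (Λ n : ℂ))) n *
      ((Pool.Agent.LibMaier.gw (Real.log n - x) / n : ℝ) : ℂ) := by
  refine Summable.of_norm_bounded (Pool.Agent.LibMaier.summable_wn x) fun n => ?_
  have hw : 0 ≤ Pool.Agent.LibMaier.gw (Real.log n - x) / n :=
    div_nonneg (Pool.Agent.LibMaier.gw_nonneg _) (Nat.cast_nonneg _)
  rw [norm_mul, Pi.mul_apply, norm_mul, Complex.norm_real, Complex.norm_real, Real.norm_eq_abs,
    Real.norm_eq_abs, abs_of_nonneg ArithmeticFunction.vonMangoldt_nonneg, abs_of_nonneg hw]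
  unfold Pool.Agent.LibMaier.wn
  have h1 : ‖tw χ lam n‖ ≤ 1 := by
    unfold tw
    rw [norm_mul, b3_norm_cp, mul_one]
    exact χ.norm_le_one _
  exact mul_le_mul_of_nonneg_right
    (mul_le_of_le_one_left ArithmeticFunction.vonMangoldt_nonneg h1) hw

private theorem b3_one {q : ℕ} [NeZero q] (lam x : ℝ) :
    ‖GS (tw (1 : DirichletCharacter ℂ q) lam * (fun n : ℕ => (Λ n : ℂ))) x -
      GS (fun n => (Λ n : ℂ) * cp lam n) x‖ ≤ 4 * q.primeFactors.card * Real.exp (-x / 4) := by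
  classical
  refine le_trans ?_ (Pool.Agent.LibPL63.tsum_not_coprime_le (NeZero.ne q) x)
  have hs3 : Summable fun n : ℕ => (if n.Coprime q then 0 else Pool.Agent.LibMaier.wn x n) := by
    refine Summable.of_nonneg_of_le (fun n => ?_) (fun n => ?_) (Pool.Agent.LibMaier.summable_wn x)
    · split_ifs
      · exact le_rfl
      · exact Pool.Agent.LibMaier.wn_nonneg x n
    · split_ifs
      · exact Pool.Agent.LibMaier.wn_nonneg x n
      · exact le_rfl
  have hs1 := b3_sum (1 : DirichletCharacter ℂ q) lam x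
  have hs2 : Summable fun n : ℕ => ((Λ n : ℂ) * cp lam n) *
      ((Pool.Agent.LibMaier.gw (Real.log n - x) / n : ℝ) : ℂ) := by
    refine Summable.of_norm_bounded (Pool.Agent.LibMaier.summable_wn x) fun n => ?_
    have hw : 0 ≤ Pool.Agent.LibMaier.gw (Real.log n - x) / n :=
      div_nonneg (Pool.Agent.LibMaier.gw_nonneg _) (Nat.cast_nonneg _)
    rw [norm_mul, norm_mul, Complex.norm_real, Complex.norm_real, Real.norm_eq_abs,
      Real.norm_eq_abs, abs_of_nonneg ArithmeticFunction.vonMangoldt_nonneg, abs_of_nonneg hw,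
      b3_norm_cp, mul_one]
    exact le_rfl
  unfold GS
  rw [← hs1.tsum_sub hs2]
  refine tsum_of_norm_bounded hs3.hasSum fun n => ?_
  have hw : 0 ≤ Pool.Agent.LibMaier.gw (Real.log n - x) / n :=
    div_nonneg (Pool.Agent.LibMaier.gw_nonneg _) (Nat.cast_nonneg _)
  rw [Pi.mul_apply]
  unfold tw
  by_cases hc : n.Coprime q
  · rw [if_pos hc]
    have hu : IsUnit (n : ZMod q) := (ZMod.isUnit_iff_coprime _ _).2 hc
    rw [MulChar.one_apply hu, one_mul, mul_comm (cp lam n), sub_self, norm_zero]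
  · rw [if_neg hc]
    have hu : ¬ IsUnit (n : ZMod q) := fun hu => hc ((ZMod.isUnit_iff_coprime _ _).1 hu)
    rw [MulChar.map_nonunit _ hu, zero_mul, zero_mul, zero_mul, zero_sub, norm_neg]
    rw [norm_mul, norm_mul, Complex.norm_real, Complex.norm_real, Real.norm_eq_abs,
      Real.norm_eq_abs, abs_of_nonneg ArithmeticFunction.vonMangoldt_nonneg, abs_of_nonneg hw,
      b3_norm_cp, mul_one]
    exact le_rfl

private theorem b3_orth {q a : ℕ} [NeZero q] (ha : a.Coprime q) (lam x : ℝ) :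
    (q.totient : ℂ) * GS (fun n => cap q a n * cp lam n) x =
      ∑ χ : DirichletCharacter ℂ q, χ ((a : ZMod q)⁻¹) *
        GS (tw χ lam * (fun n : ℕ => (Λ n : ℂ))) x := by
  classical
  have hu : IsUnit (a : ZMod q) := (ZMod.isUnit_iff_coprime _ _).2 ha
  unfold GS
  simp_rw [← tsum_mul_left]
  rw [← Summable.tsum_finsetSum (fun χ _ => (b3_sum χ lam x).mul_left _)]
  apply tsum_congr
  intro n
  have h1 := DirichletCharacter.sum_char_inv_mul_char_eq ℂ hu (n : ZMod q)
  have h2 : ∑ χ : DirichletCharacter ℂ q, χ ((a : ZMod q)⁻¹) *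
      ((tw χ lam * (fun n : ℕ => (Λ n : ℂ))) n *
        ((Pool.Agent.LibMaier.gw (Real.log n - x) / n : ℝ) : ℂ)) =
      (∑ χ : DirichletCharacter ℂ q, χ ((a : ZMod q)⁻¹) * χ (n : ZMod q)) *
        (cp lam n * (Λ n : ℂ) * ((Pool.Agent.LibMaier.gw (Real.log n - x) / n : ℝ) : ℂ)) := by
    rw [Finset.sum_mul]
    apply Finset.sum_congr rfl
    intro χ _
    rw [Pi.mul_apply]
    unfold tw
    ring
  rw [h2, h1]
  unfold cap
  by_cases h : n ≡ a [MOD q]
  · have h' : (a : ZMod q) = (n : ZMod q) := ((ZMod.natCast_eq_natCast_iff n a q).2 h).symm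
    rw [if_pos h, if_pos h']
    ring
  · have h' : ¬ (a : ZMod q) = (n : ZMod q) := fun h'' =>
      h ((ZMod.natCast_eq_natCast_iff n a q).1 h''.symm)
    rw [if_neg h, if_neg h']
    ring

theorem GS_ap (K : ℕ) : ∀ᶠ x : ℝ in atTop, ∀ q a : ℕ, 1 ≤ q → (q : ℝ) ≤ x ^ K → a.Coprime q →
    ∀ lam : ℝ, |lam| ≤ x ^ K →
      ‖GS (fun n => cap q a n * cp lam n) x -
        (1 / (q.totient : ℂ)) * cexp (((lam * x : ℝ) : ℂ) * I - ((lam ^ 2 / 2 : ℝ) : ℂ))‖ ≤
        2 * Real.exp (-(x ^ (1 / 2 : ℝ))) := by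
  classical
  obtain ⟨x0, hx01, hz⟩ := Pool.Agent.LibHG31.zeta_GS K
  filter_upwards [GS_tw_le K, b3_small K, eventually_ge_atTop x0, eventually_ge_atTop (1 : ℝ)]
    with x hx1 hx2 hx3 hx4 q a hq hqx ha lam hlam
  haveI : NeZero q := ⟨by omega⟩
  have hφ : 0 < q.totient := Nat.totient_pos.2 (by omega)
  have hφR : (1 : ℝ) ≤ q.totient := by exact_mod_cast hφ
  have hφC : (q.totient : ℂ) ≠ 0 := by
    exact_mod_cast hφ.ne'
  set ε : ℝ := Real.exp (-(x ^ (1 / 2 : ℝ))) with hε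
  have hε0 : 0 < ε := Real.exp_pos _
  set M : ℂ := cexp (((lam * x : ℝ) : ℂ) * I - ((lam ^ 2 / 2 : ℝ) : ℂ)) with hM
  have hz1 := hz x hx3 lam hlam
  have hz2 : Real.exp (-(2 * Real.sqrt x)) ≤ ε := by
    rw [hε, ← Real.sqrt_eq_rpow]
    apply Real.exp_le_exp.2
    have := Real.sqrt_nonneg x
    linarith
  have hcard : (q.primeFactors.card : ℝ) ≤ x ^ K := by
    refine le_trans ?_ hqx
    have : q.primeFactors ⊆ Finset.Icc 1 q := by
      intro p hp
      have hp1 := Nat.prime_of_mem_primeFactors hp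
      have hp2 := Nat.le_of_mem_primeFactors hp
      exact Finset.mem_Icc.2 ⟨hp1.one_le, hp2⟩
    have h2 := Finset.card_le_card this
    rw [Nat.card_Icc] at h2
    have h3 : q.primeFactors.card ≤ q := by omega
    exact_mod_cast h3
  have h1 : ‖GS (tw (1 : DirichletCharacter ℂ q) lam * (fun n : ℕ => (Λ n : ℂ))) x -
      GS (fun n => (Λ n : ℂ) * cp lam n) x‖ ≤ ε := by
    refine (b3_one lam x).trans (le_trans ?_ hx2)
    exact mul_le_mul_of_nonneg_right (mul_le_mul_of_nonneg_left hcard (by norm_num)) (Real.exp_pos _).le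
  have hid := b3_orth ha lam x
  rw [← Finset.add_sum_erase _ _ (Finset.mem_univ (1 : DirichletCharacter ℂ q))] at hid
  have hu : IsUnit (a : ZMod q) := (ZMod.isUnit_iff_coprime _ _).2 ha
  have h4 : (1 : DirichletCharacter ℂ q) ((a : ZMod q)⁻¹) = 1 := MulChar.one_apply
    (IsUnit.of_mul_eq_one (a : ZMod q) (ZMod.inv_mul_of_unit (a : ZMod q) hu))
  rw [h4, one_mul] at hid
  have hcardχ : ((Finset.univ : Finset (DirichletCharacter ℂ q)).erase 1).card = q.totient - 1 := by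
    rw [Finset.card_erase_of_mem (Finset.mem_univ _), Finset.card_univ,
      ← Nat.card_eq_fintype_card, DirichletCharacter.card_eq_totient_of_hasEnoughRootsOfUnity]
  have h5 : ‖∑ χ ∈ (Finset.univ : Finset (DirichletCharacter ℂ q)).erase 1,
      χ ((a : ZMod q)⁻¹) * GS (tw χ lam * (fun n : ℕ => (Λ n : ℂ))) x‖ ≤ (q.totient - 1) * ε := by
    refine (norm_sum_le _ _).trans ?_
    refine (Finset.sum_le_card_nsmul _ _ ε ?_).trans (le_of_eq ?_)
    · intro χ hχ
      rw [norm_mul]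
      refine le_trans (mul_le_of_le_one_left (norm_nonneg _) (χ.norm_le_one _)) ?_
      exact hx1 q hqx χ (Finset.ne_of_mem_erase hχ) lam hlam
    · rw [hcardχ, nsmul_eq_mul, Nat.cast_sub hφ, Nat.cast_one]
  have hmain : ‖(q.totient : ℂ) * (GS (fun n => cap q a n * cp lam n) x - (1 / (q.totient : ℂ)) * M)‖ ≤
      q.totient * (2 * ε) := by
    have h6 : (q.totient : ℂ) * (GS (fun n => cap q a n * cp lam n) x - (1 / (q.totient : ℂ)) * M) =
        (GS (tw (1 : DirichletCharacter ℂ q) lam * (fun n : ℕ => (Λ n : ℂ))) x -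
          GS (fun n => (Λ n : ℂ) * cp lam n) x) +
        (GS (fun n => (Λ n : ℂ) * cp lam n) x - M) +
        ∑ χ ∈ (Finset.univ : Finset (DirichletCharacter ℂ q)).erase 1,
          χ ((a : ZMod q)⁻¹) * GS (tw χ lam * (fun n : ℕ => (Λ n : ℂ))) x := by
      rw [mul_sub, hid, ← mul_assoc, mul_one_div_cancel hφC, one_mul]
      ring
    rw [h6]
    refine (norm_add₃_le).trans ?_
    have h7 := hz1.trans hz2
    nlinarith
  rw [norm_mul, Complex.norm_natCast] at hmain
  exact le_of_mul_le_mul_left hmain (by linarith)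

end Pool.Agent.LibSW40
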