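import Pool.Agent.LibHG31.CF1
import Pool.Agent.LibHG31.CF2

/-!
Row B4a (MEDIUM, only real analysis). The trapezoid on the logarithmic scale.

PLAN. On the support `|w - x| ≤ 2`: `1/gw(w-x) = √(2π) e^((w-x)²/2) ≤ 18.6`, `e^w ≤ e^(x+1)`, product `≤ 51 e^x`;
derivative of `e^w / gw(w-x)` is `(1 + (w-x)) e^w / gw(w-x)`; `trap` is `1/η`-Lipschitz with values in `[0,1]`; `Gt` vanishes
outside `[s1, s2]` (length `≤ 3`), is continuous.
-/

set_option autoImplicit false

namespace Pool.Agent.LibSW40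

open MeasureTheory
open Pool.Agent.LibMaier (gw)

/-- trapezoid: `0` outside `[s1, s2]`, `1` on `[s1 + η, s2 - η]`, linear in between -/
noncomputable def trap (η s1 s2 w : ℝ) : ℝ := max 0 (min 1 (min ((w - s1) / η) ((s2 - w) / η)))

theorem trap_nonneg (η s1 s2 w : ℝ) : 0 ≤ trap η s1 s2 w := le_max_left _ _

theorem trap_le_one (η s1 s2 w : ℝ) : trap η s1 s2 w ≤ 1 :=
  max_le zero_le_one (min_le_left _ _)

/-- the location function -/
noncomputable def Gt (x η s1 s2 : ℝ) (w : ℝ) : ℂ :=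
  ((trap η s1 s2 w * Real.exp w / gw (w - x) : ℝ) : ℂ)

private theorem b4a_trap_zero {η s1 s2 w : ℝ} (hη : 0 < η) (hw : w ∉ Set.Icc s1 s2) :
    trap η s1 s2 w = 0 := by
  unfold trap
  apply max_eq_left
  by_cases h : s1 ≤ w
  · have h2 : s2 < w := by
      by_contra hc
      exact hw ⟨h, not_lt.1 hc⟩
    refine (min_le_right _ _).trans ((min_le_right _ _).trans ?_)
    exact div_nonpos_of_nonpos_of_nonneg (by linarith) hη.le
  · refine (min_le_right _ _).trans ((min_le_left _ _).trans ?_)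
    exact div_nonpos_of_nonpos_of_nonneg (by linarith [not_le.1 h]) hη.le

private theorem b4a_trap_lip {η s1 s2 : ℝ} (hη : 0 < η) (v w : ℝ) :
    |trap η s1 s2 w - trap η s1 s2 v| ≤ |w - v| / η := by
  unfold trap
  have h1 : |(w - s1) / η - (v - s1) / η| = |w - v| / η := by
    rw [← sub_div, abs_div, abs_of_pos hη]
    congr 2
    ring
  have h2 : |(s2 - w) / η - (s2 - v) / η| = |w - v| / η := by
    rw [← sub_div, abs_div, abs_of_pos hη, ← abs_neg (w - v)]
    congr 2
    ring
  have h0 : 0 ≤ |w - v| / η := div_nonneg (abs_nonneg _) hη.le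
  refine (abs_max_sub_max_le_max _ _ _ _).trans (max_le (by simpa using h0) ?_)
  refine (abs_min_sub_min_le_max _ _ _ _).trans (max_le (by simpa using h0) ?_)
  refine (abs_min_sub_min_le_max _ _ _ _).trans (max_le h1.le h2.le)

/-- the smooth factor -/
private noncomputable def b4a_F (x w : ℝ) : ℝ := Real.exp w / gw (w - x)

private theorem b4a_F_eq (x w : ℝ) : b4a_F x w =
    Real.sqrt (2 * Real.pi) * (Real.exp x * Real.exp ((w - x) + (w - x) ^ 2 / 2)) := by
  unfold b4a_F gw
  rw [← Real.exp_add, div_div_eq_mul_div, mul_comm, mul_div_assoc, ← Real.exp_sub]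
  congr 2
  ring

private theorem b4a_sqrt : Real.sqrt (2 * Real.pi) ≤ 13 / 5 := by
  rw [Real.sqrt_le_left (by norm_num)]
  have := Real.pi_lt_d2
  norm_num at this ⊢
  linarith

private theorem b4a_exp : Real.exp (3 / 2) ≤ 9 / 2 := by
  have h1 : Real.exp (3 / 2) ^ 2 = Real.exp 1 ^ 3 := by
    rw [← Real.exp_nat_mul, ← Real.exp_nat_mul]
    norm_num
  have h2 := Real.exp_one_lt_d9
  have h3 : Real.exp 1 ^ 3 ≤ (2.7182818286 : ℝ) ^ 3 := pow_le_pow_left₀ (Real.exp_pos _).le h2.le 3
  by_contra hc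
  push Not at hc
  have h4 : (9 / 2 : ℝ) ^ 2 < Real.exp (3 / 2) ^ 2 := pow_lt_pow_left₀ hc (by norm_num) (by norm_num)
  rw [h1] at h4
  norm_num at h3 h4
  linarith

private theorem b4a_exp_u {u : ℝ} (h1 : -2 ≤ u) (h2 : u ≤ 1) :
    Real.exp (u + u ^ 2 / 2) ≤ 9 / 2 := by
  refine le_trans (Real.exp_le_exp.2 ?_) b4a_exp
  nlinarith

private theorem b4a_F_le {x w : ℝ} (h1 : x - 2 ≤ w) (h2 : w ≤ x + 1) :
    b4a_F x w ≤ 12 * Real.exp x := by
  rw [b4a_F_eq]
  have h3 := b4a_exp_u (u := w - x) (by linarith) (by linarith)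
  have h4 := b4a_sqrt
  have h5 := Real.exp_pos x
  have h6 := Real.exp_pos (w - x + (w - x) ^ 2 / 2)
  calc Real.sqrt (2 * Real.pi) * (Real.exp x * Real.exp ((w - x) + (w - x) ^ 2 / 2))
      ≤ 13 / 5 * (Real.exp x * (9 / 2)) := by
        apply mul_le_mul h4 (mul_le_mul_of_nonneg_left h3 h5.le) (by positivity) (by norm_num)
    _ ≤ 12 * Real.exp x := by linarith

private theorem b4a_F_pos (x w : ℝ) : 0 < b4a_F x w := by
  rw [b4a_F_eq]
  have := Real.pi_pos
  positivity

private theorem b4a_exp_sub {a b M : ℝ} (ha : Real.exp a ≤ M) (hb : Real.exp b ≤ M) :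
    |Real.exp a - Real.exp b| ≤ M * |a - b| := by
  have key : ∀ a b : ℝ, b ≤ a → Real.exp a ≤ M → Real.exp a - Real.exp b ≤ M * (a - b) := by
    intro a b hab ha
    have h1 : Real.exp a - Real.exp b = Real.exp a * (1 - Real.exp (b - a)) := by
      rw [mul_sub, mul_one, ← Real.exp_add]
      congr 2
      ring
    have h2 : 1 - Real.exp (b - a) ≤ a - b := by
      have := Real.add_one_le_exp (b - a)
      linarith
    rw [h1]
    calc Real.exp a * (1 - Real.exp (b - a)) ≤ Real.exp a * (a - b) :=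
          mul_le_mul_of_nonneg_left h2 (Real.exp_pos _).le
      _ ≤ M * (a - b) := mul_le_mul_of_nonneg_right ha (by linarith)
  rcases le_total b a with h | h
  · rw [abs_of_nonneg (sub_nonneg.2 (Real.exp_le_exp.2 h)), abs_of_nonneg (sub_nonneg.2 h)]
    exact key a b h ha
  · rw [abs_sub_comm, abs_sub_comm a b, abs_of_nonneg (sub_nonneg.2 (Real.exp_le_exp.2 h)),
      abs_of_nonneg (sub_nonneg.2 h)]
    exact key b a h hb

private theorem b4a_F_lip {x v w : ℝ} (hv1 : x - 2 ≤ v) (hv2 : v ≤ x + 1) (h1 : x - 2 ≤ w)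
    (h2 : w ≤ x + 1) : |b4a_F x w - b4a_F x v| ≤ 24 * Real.exp x * |w - v| := by
  rw [b4a_F_eq, b4a_F_eq, ← mul_sub, ← mul_sub, abs_mul, abs_mul,
    abs_of_nonneg (Real.sqrt_nonneg _), abs_of_pos (Real.exp_pos x)]
  have h3 := b4a_exp_sub (b4a_exp_u (u := w - x) (by linarith) (by linarith))
    (b4a_exp_u (u := v - x) (by linarith) (by linarith))
  have h4 : |((w - x) + (w - x) ^ 2 / 2) - ((v - x) + (v - x) ^ 2 / 2)| ≤ 2 * |w - v| := by
    have h5 : ((w - x) + (w - x) ^ 2 / 2) - ((v - x) + (v - x) ^ 2 / 2) =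
        (1 + ((w - x) + (v - x)) / 2) * (w - v) := by ring
    rw [h5, abs_mul]
    apply mul_le_mul_of_nonneg_right _ (abs_nonneg _)
    rw [abs_le]
    constructor <;> linarith
  have h5 : |Real.exp ((w - x) + (w - x) ^ 2 / 2) - Real.exp ((v - x) + (v - x) ^ 2 / 2)| ≤
      9 * |w - v| := by linarith
  have h6 := b4a_sqrt
  have h7 := Real.exp_pos x
  have h8 := abs_nonneg (w - v)
  calc Real.sqrt (2 * Real.pi) * (Real.exp x *
        |Real.exp ((w - x) + (w - x) ^ 2 / 2) - Real.exp ((v - x) + (v - x) ^ 2 / 2)|)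
      ≤ 13 / 5 * (Real.exp x * (9 * |w - v|)) := by
        apply mul_le_mul h6 (mul_le_mul_of_nonneg_left h5 h7.le) (by positivity) (by norm_num)
    _ ≤ 24 * Real.exp x * |w - v| := by
        have := mul_nonneg h7.le h8
        nlinarith

private theorem b4a_Gt (x η s1 s2 w : ℝ) :
    Gt x η s1 s2 w = ((trap η s1 s2 w * b4a_F x w : ℝ) : ℂ) := by
  unfold Gt b4a_F
  rw [mul_div_assoc]

private theorem b4a_cont {x η s1 s2 : ℝ} : Continuous (Gt x η s1 s2) := by
  have h1 : Gt x η s1 s2 = fun w => ((trap η s1 s2 w * (Real.sqrt (2 * Real.pi) *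
      (Real.exp x * Real.exp ((w - x) + (w - x) ^ 2 / 2))) : ℝ) : ℂ) := by
    funext w
    rw [b4a_Gt, b4a_F_eq]
  rw [h1]
  unfold trap
  fun_prop

theorem Gt_props {x η s1 s2 : ℝ} (hη : 0 < η) (hη1 : η ≤ 1) (h1 : x - 2 ≤ s1) (h12 : s1 ≤ s2)
    (h2 : s2 ≤ x + 1) :
    Integrable (Gt x η s1 s2) ∧ (∀ w, ‖Gt x η s1 s2 w‖ ≤ 60 * Real.exp x) ∧
    (∫ w, ‖Gt x η s1 s2 w‖) ≤ 180 * Real.exp x ∧
    ∀ v w, ‖Gt x η s1 s2 w - Gt x η s1 s2 v‖ ≤ 240 * Real.exp x / η * |w - v| := by
  have hzero : ∀ w, w ∉ Set.Icc s1 s2 → Gt x η s1 s2 w = 0 := by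
    intro w hw
    rw [b4a_Gt, b4a_trap_zero hη hw]
    simp
  have hnorm : ∀ w, ‖Gt x η s1 s2 w‖ = trap η s1 s2 w * b4a_F x w := by
    intro w
    rw [b4a_Gt, Complex.norm_real, Real.norm_eq_abs,
      abs_of_nonneg (mul_nonneg (trap_nonneg _ _ _ _) (b4a_F_pos _ _).le)]
  have hex := Real.exp_pos x
  have hb12 : ∀ w, ‖Gt x η s1 s2 w‖ ≤ 12 * Real.exp x := by
    intro w
    by_cases hw : w ∈ Set.Icc s1 s2
    · rw [hnorm]
      refine le_trans (mul_le_of_le_one_left (b4a_F_pos _ _).le (trap_le_one _ _ _ _)) ?_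
      exact b4a_F_le (by linarith [hw.1]) (by linarith [hw.2])
    · rw [hzero w hw, norm_zero]
      positivity
  have hint : Integrable (Gt x η s1 s2) := by
    have h3 : IntegrableOn (Gt x η s1 s2) (Set.Icc s1 s2) := b4a_cont.continuousOn.integrableOn_Icc
    exact h3.integrable_of_forall_notMem_eq_zero hzero
  refine ⟨hint, fun w => (hb12 w).trans (by linarith), ?_, ?_⟩
  · have h3 : ∫ w, ‖Gt x η s1 s2 w‖ = ∫ w in Set.Icc s1 s2, ‖Gt x η s1 s2 w‖ := by
      rw [setIntegral_eq_integral_of_forall_compl_eq_zero]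
      intro w hw
      rw [hzero w hw, norm_zero]
    rw [h3]
    have h4 : ∫ w in Set.Icc s1 s2, ‖Gt x η s1 s2 w‖ ≤ ∫ _w in Set.Icc s1 s2, 12 * Real.exp x := by
      apply integral_mono_of_nonneg
      · exact Filter.Eventually.of_forall fun w => norm_nonneg _
      · exact integrableOn_const (by simp) enorm_ne_top
      · exact Filter.Eventually.of_forall fun w => hb12 w
    refine h4.trans ?_
    rw [setIntegral_const, Real.volume_real_Icc, smul_eq_mul, max_eq_left (by linarith)]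
    nlinarith
  · intro v w
    have hd : 0 ≤ |w - v| := abs_nonneg _
    have hlip := b4a_trap_lip (s1 := s1) (s2 := s2) hη v w
    have hfin : ∀ c : ℝ, 0 ≤ c → c ≤ 240 → c * Real.exp x / η * |w - v| ≤ 240 * Real.exp x / η * |w - v| := by
      intro c hc0 hc
      apply mul_le_mul_of_nonneg_right _ hd
      apply div_le_div_of_nonneg_right _ hη.le
      exact mul_le_mul_of_nonneg_right hc hex.le
    rw [b4a_Gt, b4a_Gt, ← Complex.ofReal_sub, Complex.norm_real, Real.norm_eq_abs]
    by_cases hw : w ∈ Set.Icc s1 s2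
    · have hFw := b4a_F_le (x := x) (w := w) (by linarith [hw.1]) (by linarith [hw.2])
      have hFw0 := b4a_F_pos x w
      by_cases hv : v ∈ Set.Icc s1 s2
      · have h5 : trap η s1 s2 w * b4a_F x w - trap η s1 s2 v * b4a_F x v =
            (trap η s1 s2 w - trap η s1 s2 v) * b4a_F x w +
              trap η s1 s2 v * (b4a_F x w - b4a_F x v) := by ring
        have h6 := b4a_F_lip (x := x) (v := v) (w := w) (by linarith [hv.1]) (by linarith [hv.2])
          (by linarith [hw.1]) (by linarith [hw.2])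
        have h7 : |(trap η s1 s2 w - trap η s1 s2 v) * b4a_F x w| ≤ |w - v| / η * (12 * Real.exp x) := by
          rw [abs_mul, abs_of_pos hFw0]
          exact mul_le_mul hlip hFw hFw0.le (div_nonneg hd hη.le)
        have h8 : |trap η s1 s2 v * (b4a_F x w - b4a_F x v)| ≤ 24 * Real.exp x * |w - v| := by
          rw [abs_mul, abs_of_nonneg (trap_nonneg _ _ _ _)]
          exact (mul_le_of_le_one_left (abs_nonneg _) (trap_le_one _ _ _ _)).trans h6
        have h9 : 24 * Real.exp x * |w - v| ≤ 24 * Real.exp x / η * |w - v| := by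
          apply mul_le_mul_of_nonneg_right _ hd
          rw [le_div_iff₀ hη]
          have : 24 * Real.exp x * η ≤ 24 * Real.exp x * 1 :=
            mul_le_mul_of_nonneg_left hη1 (by positivity)
          linarith
        rw [h5]
        refine (abs_add_le _ _).trans ?_
        have h10 : |w - v| / η * (12 * Real.exp x) + 24 * Real.exp x / η * |w - v| =
            36 * Real.exp x / η * |w - v| := by ring
        have := hfin 36 (by norm_num) (by norm_num)
        linarith
      · have hTv := b4a_trap_zero (s1 := s1) (s2 := s2) hη hv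
        rw [hTv] at hlip ⊢
        rw [zero_mul, sub_zero, abs_mul, abs_of_pos hFw0]
        rw [sub_zero] at hlip
        have h7 : |trap η s1 s2 w| * b4a_F x w ≤ |w - v| / η * (12 * Real.exp x) :=
          mul_le_mul hlip hFw hFw0.le (div_nonneg hd hη.le)
        have h10 : |w - v| / η * (12 * Real.exp x) = 12 * Real.exp x / η * |w - v| := by ring
        have := hfin 12 (by norm_num) (by norm_num)
        linarith
    · have hTw := b4a_trap_zero (s1 := s1) (s2 := s2) hη hw
      rw [hTw] at hlip ⊢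
      rw [zero_mul, zero_sub, abs_neg]
      rw [zero_sub, abs_neg] at hlip
      by_cases hv : v ∈ Set.Icc s1 s2
      · have hFv := b4a_F_le (x := x) (w := v) (by linarith [hv.1]) (by linarith [hv.2])
        have hFv0 := b4a_F_pos x v
        rw [abs_mul, abs_of_pos hFv0]
        have h7 : |trap η s1 s2 v| * b4a_F x v ≤ |w - v| / η * (12 * Real.exp x) :=
          mul_le_mul hlip hFv hFv0.le (div_nonneg hd hη.le)
        have h10 : |w - v| / η * (12 * Real.exp x) = 12 * Real.exp x / η * |w - v| := by ring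
        have := hfin 12 (by norm_num) (by norm_num)
        linarith
      · rw [b4a_trap_zero (s1 := s1) (s2 := s2) hη hv, zero_mul, abs_zero]
        positivity

end Pool.Agent.LibSW40
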