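import Pool.Agent.LibSW40.B3
import Pool.Agent.LibSW40.B4a
import Pool.Agent.LibHG31.CF3

/-!
Row B4b (MEDIUM/STRONG, analysis). Smoothed sums over primes in progressions.

PLAN. `G = Gt x η s1 s2`. `LibHG31.expand` (`c = cap q a`): the sum is `(1/2π) ∫ e^(-δ²λ²/2) FT G λ · GS(cap q a · cp λ) x dλ`. The same
for the integral: `∫ sm δ G v gw(v-x) dv = (1/2π) ∫ e^(-δ²λ²/2) FT G λ cexp(iλx - λ²/2) dλ` (`LibHG31.sm_eq`, Fubini, `LibHG31.cb6_ft`).
Difference of the two integrands: for `|λ| ≤ x^K` `GS_ap K` (`2 e^(-√x)`); for `|λ| > x^K` trivially `≤ 3`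
(`norm_GS_cp_le`, `∑' ‖cap‖ gw/n ≤ S0 x → 1`), and there `e^(-δ²λ²/2) ≤ e^(-x²/4) e^(-δ²λ²/4)` because `δ x^K ≥ x`. `‖FT G‖ ≤ 180 e^x`
(`LibHG31.FT_le`, `Gt_props`), `∫ e^(-δ²λ²/4) ≤ 4/δ ≤ 4 x^K`.
-/

set_option autoImplicit false

namespace Pool.Agent.LibSW40

open Complex Filter MeasureTheory
open Pool.Agent.LibMaier (gw)
open Pool.Agent.LibHG31 (sm)

private theorem b4b_int {δ : ℝ} (hδ : 0 < δ) :
    Integrable (fun lam : ℝ => Real.exp (-(δ ^ 2 * lam ^ 2 / 4))) ∧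
    (∫ lam : ℝ, Real.exp (-(δ ^ 2 * lam ^ 2 / 4))) ≤ 4 / δ := by
  have h0 : (fun lam : ℝ => Real.exp (-(δ ^ 2 * lam ^ 2 / 4))) =
      fun lam : ℝ => Real.exp (-(δ ^ 2 / 4) * lam ^ 2) := by
    funext lam
    congr 1
    ring
  rw [h0]
  refine ⟨integrable_exp_neg_mul_sq (by positivity), ?_⟩
  rw [integral_gaussian, Real.sqrt_le_iff]
  refine ⟨by positivity, ?_⟩
  rw [div_pow, div_div_eq_mul_div, div_le_div_iff_of_pos_right (by positivity)]
  have := Real.pi_lt_d2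
  linarith

private theorem b4b_cn (lam x : ℝ) :
    ‖cexp (((lam * x : ℝ) : ℂ) * I - ((lam ^ 2 / 2 : ℝ) : ℂ))‖ ≤ 1 := by
  rw [Complex.norm_exp, Complex.sub_re, Complex.ofReal_re, Complex.re_ofReal_mul, Complex.I_re, mul_zero,
    zero_sub]
  apply Real.exp_le_one_iff.2
  have := sq_nonneg lam
  linarith

private theorem b4b_sm_int {δ : ℝ} (hδ : 0 < δ) {G : ℝ → ℂ} (hG : Integrable G) (x : ℝ) :
    Integrable (fun lam : ℝ => ((Real.exp (-(δ ^ 2 * lam ^ 2 / 2)) : ℝ) : ℂ) * LibHG31.FT G lam *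
      cexp (((lam * x : ℝ) : ℂ) * I - ((lam ^ 2 / 2 : ℝ) : ℂ))) ∧
    ∫ v : ℝ, sm δ G v * ((gw (v - x) : ℝ) : ℂ) = ((1 / (2 * Real.pi) : ℝ) : ℂ) *
      ∫ lam : ℝ, ((Real.exp (-(δ ^ 2 * lam ^ 2 / 2)) : ℝ) : ℂ) * LibHG31.FT G lam *
        cexp (((lam * x : ℝ) : ℂ) * I - ((lam ^ 2 / 2 : ℝ) : ℂ)) := by
  have hE := LibHG31.cf1_int hδ
  have hFTc := LibHG31.continuous_FT hG
  have hEn : ∀ lam : ℝ, ‖((Real.exp (-(δ ^ 2 * lam ^ 2 / 2)) : ℝ) : ℂ)‖ = Real.exp (-(δ ^ 2 * lam ^ 2 / 2)) := by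
    intro lam
    rw [Complex.norm_real, Real.norm_eq_abs, abs_of_pos (Real.exp_pos _)]
  have hEF : Integrable (fun lam : ℝ => ((Real.exp (-(δ ^ 2 * lam ^ 2 / 2)) : ℝ) : ℂ) * LibHG31.FT G lam) := by
    refine Integrable.mono' (hE.mul_const (∫ w, ‖G w‖)) ?_ (Filter.Eventually.of_forall fun lam => ?_)
    · exact (Continuous.mul (by fun_prop) hFTc).aestronglyMeasurable
    · rw [norm_mul, hEn]
      exact mul_le_mul_of_nonneg_left (LibHG31.FT_le lam) (Real.exp_pos _).le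
  refine ⟨?_, ?_⟩
  · refine hEF.mul_bdd (c := 1) ?_ (Filter.Eventually.of_forall fun lam => b4b_cn lam x)
    apply Continuous.aestronglyMeasurable
    fun_prop
  · have hint : Integrable (Function.uncurry fun (v lam : ℝ) =>
        ((Real.exp (-(δ ^ 2 * lam ^ 2 / 2)) : ℝ) : ℂ) * LibHG31.FT G lam *
          (((gw (v - x) : ℝ) : ℂ) * cexp (((lam * v : ℝ) : ℂ) * I))) (volume.prod volume) := by
      have h1 : Integrable fun v : ℝ => ((gw (v - x) : ℝ) : ℂ) := (LibH.integrable_gw.comp_sub_right x).ofReal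
      have h2 := h1.mul_prod hEF
      have h3 := h2.bdd_mul (c := 1) (f := fun p : ℝ × ℝ => cexp (((p.2 * p.1 : ℝ) : ℂ) * I)) ?_ ?_
      · refine h3.congr (Filter.Eventually.of_forall fun p => ?_)
        simp only [Function.uncurry]
        ring
      · apply Continuous.aestronglyMeasurable
        fun_prop
      · refine Filter.Eventually.of_forall fun p => ?_
        rw [Complex.norm_exp_ofReal_mul_I]
    have h4 : ∀ v : ℝ, sm δ G v * ((gw (v - x) : ℝ) : ℂ) = ((1 / (2 * Real.pi) : ℝ) : ℂ) *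
        ∫ lam : ℝ, ((Real.exp (-(δ ^ 2 * lam ^ 2 / 2)) : ℝ) : ℂ) * LibHG31.FT G lam *
          (((gw (v - x) : ℝ) : ℂ) * cexp (((lam * v : ℝ) : ℂ) * I)) := by
      intro v
      rw [LibHG31.sm_eq hδ hG, mul_assoc, ← integral_mul_const]
      congr 1
      refine integral_congr_ae (Filter.Eventually.of_forall fun lam => ?_)
      simp only
      ring
    simp_rw [h4]
    rw [integral_const_mul, integral_integral_swap hint]
    congr 1
    refine integral_congr_ae (Filter.Eventually.of_forall fun lam => ?_)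
    simp only
    rw [integral_const_mul, LibHG31.cb6_ft]

private theorem b4b_cap_norm (q a n : ℕ) (x : ℝ) :
    ‖cap q a n‖ * (gw (Real.log n - x) / n) ≤ LibMaier.wn x n := by
  have hw : 0 ≤ gw (Real.log n - x) / n := div_nonneg (LibMaier.gw_nonneg _) (Nat.cast_nonneg _)
  unfold LibMaier.wn
  apply mul_le_mul_of_nonneg_right _ hw
  unfold cap
  split_ifs
  · rw [Complex.norm_real, Real.norm_eq_abs, abs_of_nonneg ArithmeticFunction.vonMangoldt_nonneg]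
  · rw [norm_zero]
    exact ArithmeticFunction.vonMangoldt_nonneg

private theorem b4b_cap_sum (q a : ℕ) (x : ℝ) :
    (Summable fun n : ℕ => ‖cap q a n‖ * (gw (Real.log n - x) / n)) ∧
    ∑' n : ℕ, ‖cap q a n‖ * (gw (Real.log n - x) / n) ≤ LibMaier.S0 x := by
  have h1 : Summable fun n : ℕ => ‖cap q a n‖ * (gw (Real.log n - x) / n) := by
    refine Summable.of_nonneg_of_le (fun n => ?_) (fun n => b4b_cap_norm q a n x) (LibMaier.summable_wn x)
    exact mul_nonneg (norm_nonneg _) (div_nonneg (LibMaier.gw_nonneg _) (Nat.cast_nonneg _))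
  refine ⟨h1, ?_⟩
  unfold LibMaier.S0
  exact h1.tsum_le_tsum (fun n => b4b_cap_norm q a n x) (LibMaier.summable_wn x)

private theorem b4b_S0 : ∀ᶠ x : ℝ in atTop, LibMaier.S0 x ≤ 2 := by
  obtain ⟨K, hK, h⟩ := LibH.S0_remainder
  filter_upwards [eventually_ge_atTop (max 1 K)] with x hx
  have hx1 : 1 ≤ x := (le_max_left _ _).trans hx
  have hxK : K ≤ x := (le_max_right _ _).trans hx
  have h1 := (abs_le.1 (h x hx1)).2
  have h2 : K / x ≤ 1 := (div_le_one (by linarith)).2 hxK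
  linarith

private theorem b4b_growth (k : ℕ) (C : ℝ) : ∀ᶠ x : ℝ in atTop,
    C * x ^ k ≤ Real.exp (x ^ (1 / 2 : ℝ) / 2) := by
  have h1 := Real.tendsto_pow_mul_exp_neg_atTop_nhds_zero (2 * k)
  have h2 : Tendsto (fun x : ℝ => x ^ (1 / 2 : ℝ) / 2) atTop atTop :=
    (tendsto_rpow_atTop (by norm_num)).atTop_div_const (by norm_num)
  have h3 := h1.comp h2
  have hpos : 0 < 1 / ((|C| + 1) * 4 ^ k) := by positivity
  filter_upwards [h3.eventually (eventually_le_nhds hpos), eventually_ge_atTop (0 : ℝ)] with x hx hx0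
  simp only [Function.comp_apply] at hx
  have e1 : (x ^ (1 / 2 : ℝ) / 2) ^ (2 * k) = x ^ k / 4 ^ k := by
    rw [div_pow, pow_mul, pow_mul]
    congr 1
    · congr 1
      rw [← Real.sqrt_eq_rpow, Real.sq_sqrt hx0]
    · norm_num
  rw [e1, Real.exp_neg, ← div_eq_mul_inv, div_le_iff₀ (Real.exp_pos _), div_le_iff₀ (by positivity)] at hx
  have e2 : 1 / ((|C| + 1) * 4 ^ k) * Real.exp (x ^ (1 / 2 : ℝ) / 2) * 4 ^ k =
      Real.exp (x ^ (1 / 2 : ℝ) / 2) / (|C| + 1) := by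
    field_simp
  rw [e2, le_div_iff₀ (by positivity)] at hx
  have hxk : 0 ≤ x ^ k := pow_nonneg hx0 k
  have h5 := le_abs_self C
  nlinarith

/-- comparison of the two integrals -/
private theorem b4b_main {δ X ε T : ℝ} (hδ : 0 < δ) {G : ℝ → ℂ} (hG : Integrable G) (c : ℕ → ℂ) (x : ℝ)
    (hc : Summable fun n : ℕ => ‖c n‖ * (gw (Real.log n - x) / n))
    (hT : ∑' n : ℕ, ‖c n‖ * (gw (Real.log n - x) / n) ≤ T) (hT0 : 0 ≤ T) (φ : ℝ) (hφ0 : 0 ≤ φ) (hφ1 : φ ≤ 1)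
    (hε : 0 ≤ ε) (hX : x ≤ δ * X) (hx0 : 0 ≤ x)
    (hle : ∀ lam : ℝ, |lam| ≤ X → ‖LibPL63.GS (fun n => c n * LibHG31.cp lam n) x -
      (φ : ℂ) * cexp (((lam * x : ℝ) : ℂ) * I - ((lam ^ 2 / 2 : ℝ) : ℂ))‖ ≤ ε) :
    ‖(∑' n : ℕ, c n * sm δ G (Real.log n) * ((gw (Real.log n - x) / n : ℝ) : ℂ)) -
        (φ : ℂ) * ∫ v : ℝ, sm δ G v * ((gw (v - x) : ℝ) : ℂ)‖ ≤
      (ε + (T + 1) * Real.exp (-(x ^ 2 / 4))) * (∫ w, ‖G w‖) * (4 / δ) := by
  obtain ⟨i1, i2, i3⟩ := LibHG31.expand hδ hG c x hc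
  obtain ⟨j1, j2⟩ := b4b_sm_int hδ hG x
  obtain ⟨k1, k2⟩ := b4b_int hδ
  rw [i3, j2, mul_left_comm, ← mul_sub, ← integral_const_mul, ← integral_sub i1 (j1.const_mul _)]
  set I1 : ℝ := ∫ w, ‖G w‖ with hI1
  have hI10 : 0 ≤ I1 := integral_nonneg fun w => norm_nonneg _
  have hb : ∀ lam : ℝ, ‖((Real.exp (-(δ ^ 2 * lam ^ 2 / 2)) : ℝ) : ℂ) * LibHG31.FT G lam *
      LibPL63.GS (fun n => c n * LibHG31.cp lam n) x -
      (φ : ℂ) * (((Real.exp (-(δ ^ 2 * lam ^ 2 / 2)) : ℝ) : ℂ) * LibHG31.FT G lam *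
        cexp (((lam * x : ℝ) : ℂ) * I - ((lam ^ 2 / 2 : ℝ) : ℂ)))‖ ≤
      (ε + (T + 1) * Real.exp (-(x ^ 2 / 4))) * I1 * Real.exp (-(δ ^ 2 * lam ^ 2 / 4)) := by
    intro lam
    have e1 : ((Real.exp (-(δ ^ 2 * lam ^ 2 / 2)) : ℝ) : ℂ) * LibHG31.FT G lam *
        LibPL63.GS (fun n => c n * LibHG31.cp lam n) x -
        (φ : ℂ) * (((Real.exp (-(δ ^ 2 * lam ^ 2 / 2)) : ℝ) : ℂ) * LibHG31.FT G lam *
          cexp (((lam * x : ℝ) : ℂ) * I - ((lam ^ 2 / 2 : ℝ) : ℂ))) =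
        ((Real.exp (-(δ ^ 2 * lam ^ 2 / 2)) : ℝ) : ℂ) * LibHG31.FT G lam *
        (LibPL63.GS (fun n => c n * LibHG31.cp lam n) x -
          (φ : ℂ) * cexp (((lam * x : ℝ) : ℂ) * I - ((lam ^ 2 / 2 : ℝ) : ℂ))) := by ring
    rw [e1, norm_mul, norm_mul, Complex.norm_real, Real.norm_eq_abs, abs_of_pos (Real.exp_pos _)]
    set D : ℝ := ‖LibPL63.GS (fun n => c n * LibHG31.cp lam n) x -
          (φ : ℂ) * cexp (((lam * x : ℝ) : ℂ) * I - ((lam ^ 2 / 2 : ℝ) : ℂ))‖ with hD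
    have hD0 : 0 ≤ D := norm_nonneg _
    have hF := LibHG31.FT_le (G := G) lam
    rw [← hI1] at hF
    have hDT : D ≤ T + 1 := by
      rw [hD]
      refine (norm_sub_le _ _).trans (add_le_add ((LibHG31.norm_GS_cp_le c x lam hc).trans hT) ?_)
      rw [norm_mul, Complex.norm_real, Real.norm_eq_abs, abs_of_nonneg hφ0]
      exact mul_le_one₀ hφ1 (norm_nonneg _) (b4b_cn lam x)
    set e4 : ℝ := Real.exp (-(δ ^ 2 * lam ^ 2 / 4)) with he4
    have he4p : 0 < e4 := Real.exp_pos _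
    have e2 : Real.exp (-(δ ^ 2 * lam ^ 2 / 2)) = e4 * e4 := by
      rw [he4, ← Real.exp_add]
      congr 1
      ring
    have he41 : e4 ≤ 1 := by
      rw [he4]
      apply Real.exp_le_one_iff.2
      have : 0 ≤ δ ^ 2 * lam ^ 2 / 4 := by positivity
      linarith
    have hkey : e4 * D ≤ ε + (T + 1) * Real.exp (-(x ^ 2 / 4)) := by
      rcases le_or_gt |lam| X with h | h
      · have h1 := hle lam h
        rw [← hD] at h1
        have h2 : e4 * D ≤ 1 * ε := mul_le_mul he41 h1 hD0 zero_le_one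
        have h3 : 0 ≤ (T + 1) * Real.exp (-(x ^ 2 / 4)) := by positivity
        linarith
      · have h1 : x ≤ δ * |lam| := hX.trans (mul_le_mul_of_nonneg_left h.le hδ.le)
        have h2 : x ^ 2 ≤ δ ^ 2 * lam ^ 2 := by
          have h3 := pow_le_pow_left₀ hx0 h1 2
          rwa [mul_pow, sq_abs] at h3
        have h3 : e4 ≤ Real.exp (-(x ^ 2 / 4)) := by
          rw [he4]
          apply Real.exp_le_exp.2
          linarith
        have h4 : e4 * D ≤ Real.exp (-(x ^ 2 / 4)) * (T + 1) :=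
          mul_le_mul h3 hDT hD0 (Real.exp_pos _).le
        linarith
    rw [e2]
    calc e4 * e4 * ‖LibHG31.FT G lam‖ * D = (e4 * D) * ‖LibHG31.FT G lam‖ * e4 := by ring
      _ ≤ (ε + (T + 1) * Real.exp (-(x ^ 2 / 4))) * I1 * e4 := by
        apply mul_le_mul_of_nonneg_right _ he4p.le
        exact mul_le_mul hkey hF (norm_nonneg _) (by positivity)
  rw [norm_mul, Complex.norm_real, Real.norm_eq_abs, abs_of_pos (by positivity)]
  have h5 := norm_integral_le_of_norm_le (k1.const_mul _) (Filter.Eventually.of_forall hb)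
  rw [integral_const_mul] at h5
  have h6 : 1 / (2 * Real.pi) ≤ 1 := by
    rw [div_le_one (by positivity)]
    have := Real.pi_gt_three
    linarith
  refine (mul_le_of_le_one_left (norm_nonneg _) h6).trans (h5.trans ?_)
  exact mul_le_mul_of_nonneg_left k2 (by positivity)

theorem sm_compare (K : ℕ) (hK : 1 ≤ K) : ∀ᶠ x : ℝ in atTop, ∀ q a : ℕ, 1 ≤ q → (q : ℝ) ≤ x ^ K →
    a.Coprime q → ∀ δ η s1 s2 : ℝ, (x ^ (K - 1))⁻¹ ≤ δ → δ ≤ 1 → 0 < η → η ≤ 1 → x - 2 ≤ s1 → s1 ≤ s2 →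
    s2 ≤ x + 1 →
      ‖(∑' n : ℕ, cap q a n * sm δ (Gt x η s1 s2) (Real.log n) * ((gw (Real.log n - x) / n : ℝ) : ℂ)) -
        (1 / (q.totient : ℂ)) * ∫ v : ℝ, sm δ (Gt x η s1 s2) v * ((gw (v - x) : ℝ) : ℂ)‖ ≤
        Real.exp x * Real.exp (-(x ^ (1 / 2 : ℝ) / 2)) := by
  have g1 := b4b_growth (K - 1) 7920
  have g2 : ∀ᶠ x : ℝ in atTop, 4 ≤ x := eventually_ge_atTop 4
  filter_upwards [GS_ap K, b4b_S0, g1, g2] with x hGS hS0 hg hx4 q a hq hqK hqa δ η s1 s2 hδ hδ1 hη hη1 hs1 hs12 hs2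
  have hx0 : 0 < x := by linarith
  have hxK1 : 0 < x ^ (K - 1) := by positivity
  have hδ0 : 0 < δ := lt_of_lt_of_le (inv_pos.2 hxK1) hδ
  obtain ⟨hG, -, hG1, -⟩ := Gt_props (x := x) hη hη1 hs1 hs12 hs2
  obtain ⟨hc, hcS⟩ := b4b_cap_sum q a x
  have hφ : 1 ≤ (q.totient : ℝ) := by exact_mod_cast Nat.totient_pos.2 hq
  have hX : x ≤ δ * x ^ K := by
    have h1 : x ^ K = x ^ (K - 1) * x := by
      rw [← pow_succ]
      congr 1
      omega
    rw [h1, ← mul_assoc]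
    have h2 : 1 ≤ δ * x ^ (K - 1) := by
      rw [inv_le_iff_one_le_mul₀ hxK1] at hδ
      exact hδ
    nlinarith
  have hm := b4b_main (ε := 2 * Real.exp (-(x ^ (1 / 2 : ℝ)))) (T := 2) hδ0 hG (cap q a) x hc (hcS.trans hS0)
    (by norm_num) (1 / (q.totient : ℝ)) (by positivity) ((div_le_one (by linarith)).2 hφ) (by positivity)
    hX hx0.le
    (fun lam hlam => by
      have h1 := hGS q a hq hqK hqa lam hlam
      push_cast at h1 ⊢
      exact h1)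
  have e1 : (((1 / (q.totient : ℝ)) : ℝ) : ℂ) = 1 / (q.totient : ℂ) := by push_cast; rfl
  rw [e1] at hm
  refine hm.trans ?_
  set y : ℝ := x ^ (1 / 2 : ℝ) with hy
  have hy2 : y ^ 2 = x := by
    rw [hy, ← Real.sqrt_eq_rpow, Real.sq_sqrt hx0.le]
  have hy0 : 0 ≤ y := by rw [hy]; positivity
  have hyx : y ≤ x ^ 2 / 4 := by
    have h1 : y ≤ x := by nlinarith
    nlinarith
  have h1 : Real.exp (-(x ^ 2 / 4)) ≤ Real.exp (-y) := Real.exp_le_exp.2 (by linarith)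
  have h2 : 2 * Real.exp (-y) + (2 + 1) * Real.exp (-(x ^ 2 / 4)) ≤ 5 * Real.exp (-y) := by linarith
  have h3 : 4 / δ ≤ 4 * x ^ (K - 1) := by
    rw [div_le_iff₀ hδ0]
    rw [inv_le_iff_one_le_mul₀ hxK1] at hδ
    nlinarith
  have hI0 : 0 ≤ ∫ w, ‖Gt x η s1 s2 w‖ := integral_nonneg fun w => norm_nonneg _
  calc (2 * Real.exp (-y) + (2 + 1) * Real.exp (-(x ^ 2 / 4))) * (∫ w, ‖Gt x η s1 s2 w‖) * (4 / δ)
      ≤ (5 * Real.exp (-y)) * (180 * Real.exp x) * (4 * x ^ (K - 1)) := by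
        apply mul_le_mul _ h3 (by positivity) (by positivity)
        exact mul_le_mul h2 hG1 hI0 (by positivity)
    _ = Real.exp x * (Real.exp (-y) * (3600 * x ^ (K - 1))) := by ring
    _ ≤ Real.exp x * (Real.exp (-y) * Real.exp (y / 2)) := by
        apply mul_le_mul_of_nonneg_left _ (Real.exp_pos _).le
        apply mul_le_mul_of_nonneg_left _ (Real.exp_pos _).le
        have : 3600 * x ^ (K - 1) ≤ 7920 * x ^ (K - 1) := by nlinarith
        exact this.trans hg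
    _ = Real.exp x * Real.exp (-(y / 2)) := by
        rw [← Real.exp_add (-y) (y / 2), show -y + y / 2 = -(y / 2) by ring]

end Pool.Agent.LibSW40
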