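import Pool.Agent.LibSW40.B4b

/-!
Row B4c (MEDIUM). The smoothing is removed.

PLAN. `η = (x^K)⁻¹`, `δ = (x^(3K+1))⁻¹`, `sm_compare (3K+2)`. `LibHG31.sm_sub_le` with the Lipschitz constant `240 e^x / η`:
`‖sm δ G v - G v‖ ≤ 240 e^x δ/η = 240 e^x x^(-(2K+1))`, summed against `‖cap‖ gw/n` (`≤ S0 x ≤ 2` for large `x`) and against `gw(v-x) dv`
(mass 1). `G (log n) gw(log n - x)/n = trap (log n)` for `n ≥ 1` (`e^(log n) = n`), and `G v gw(v-x) = trap v e^v`.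
-/

set_option autoImplicit false

namespace Pool.Agent.LibSW40

open Filter MeasureTheory
open scoped ArithmeticFunction.vonMangoldt

private theorem b4c_sm_integrable {δ : ℝ} (hδ : 0 < δ) {G : ℝ → ℂ} (hG : Integrable G) (x : ℝ) :
    Integrable fun v : ℝ => LibHG31.sm δ G v * ((LibMaier.gw (v - x) : ℝ) : ℂ) := by
  have hE := LibHG31.cf1_int hδ
  have hFTc := LibHG31.continuous_FT hG
  have hEF : Integrable (fun lam : ℝ => ((Real.exp (-(δ ^ 2 * lam ^ 2 / 2)) : ℝ) : ℂ) * LibHG31.FT G lam) := by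
    refine Integrable.mono' (hE.mul_const (∫ w, ‖G w‖)) ?_ (Filter.Eventually.of_forall fun lam => ?_)
    · exact (Continuous.mul (by fun_prop) hFTc).aestronglyMeasurable
    · rw [norm_mul, Complex.norm_real, Real.norm_eq_abs, abs_of_pos (Real.exp_pos _)]
      exact mul_le_mul_of_nonneg_left (LibHG31.FT_le lam) (Real.exp_pos _).le
  have hint : Integrable (Function.uncurry fun (v lam : ℝ) =>
      ((Real.exp (-(δ ^ 2 * lam ^ 2 / 2)) : ℝ) : ℂ) * LibHG31.FT G lam *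
        (((LibMaier.gw (v - x) : ℝ) : ℂ) * Complex.exp (((lam * v : ℝ) : ℂ) * Complex.I))) (volume.prod volume) := by
    have h1 : Integrable fun v : ℝ => ((LibMaier.gw (v - x) : ℝ) : ℂ) :=
      (LibH.integrable_gw.comp_sub_right x).ofReal
    have h2 := h1.mul_prod hEF
    have h3 := h2.bdd_mul (c := 1) (f := fun p : ℝ × ℝ => Complex.exp (((p.2 * p.1 : ℝ) : ℂ) * Complex.I)) ?_ ?_
    · refine h3.congr (Filter.Eventually.of_forall fun p => ?_)
      simp only [Function.uncurry]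
      ring
    · apply Continuous.aestronglyMeasurable
      fun_prop
    · refine Filter.Eventually.of_forall fun p => ?_
      rw [Complex.norm_exp_ofReal_mul_I]
  have h5 := hint.integral_prod_left.const_mul ((1 / (2 * Real.pi) : ℝ) : ℂ)
  refine h5.congr (Filter.Eventually.of_forall fun v => ?_)
  simp only [Function.uncurry_apply_pair]
  rw [LibHG31.sm_eq hδ hG, mul_assoc, ← integral_mul_const]
  congr 1
  refine integral_congr_ae (Filter.Eventually.of_forall fun lam => ?_)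
  simp only
  ring

private theorem b4c_cap_norm (q a n : ℕ) (x : ℝ) :
    ‖cap q a n‖ * (LibMaier.gw (Real.log n - x) / n) ≤ LibMaier.wn x n := by
  have hw : 0 ≤ LibMaier.gw (Real.log n - x) / n := div_nonneg (LibMaier.gw_nonneg _) (Nat.cast_nonneg _)
  unfold LibMaier.wn
  apply mul_le_mul_of_nonneg_right _ hw
  unfold cap
  split_ifs
  · rw [Complex.norm_real, Real.norm_eq_abs, abs_of_nonneg ArithmeticFunction.vonMangoldt_nonneg]
  · rw [norm_zero]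
    exact ArithmeticFunction.vonMangoldt_nonneg

private theorem b4c_S0 : ∀ᶠ x : ℝ in atTop, LibMaier.S0 x ≤ 2 := by
  obtain ⟨K, hK, h⟩ := LibH.S0_remainder
  filter_upwards [eventually_ge_atTop (max 1 K)] with x hx
  have hx1 : 1 ≤ x := (le_max_left _ _).trans hx
  have hxK : K ≤ x := (le_max_right _ _).trans hx
  have h1 := (abs_le.1 (h x hx1)).2
  have h2 : K / x ≤ 1 := (div_le_one (by linarith)).2 hxK
  linarith

private theorem b4c_growth (k : ℕ) (C : ℝ) : ∀ᶠ x : ℝ in atTop,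
    C * x ^ k ≤ Real.exp (x ^ (1 / 2 : ℝ) / 2) := by
  have h1 := Real.tendsto_pow_mul_exp_neg_atTop_nhds_zero (2 * k)
  have h2 : Tendsto (fun x : ℝ => x ^ (1 / 2 : ℝ) / 2) atTop atTop :=
    (tendsto_rpow_atTop (by norm_num)).atTop_div_const (by norm_num)
  have h3 := h1.comp h2
  have hpos : 0 < 1 / ((|C| + 1) * 4 ^ k) := by positivity
  filter_upwards [h3.eventually (eventually_le_nhds hpos), eventually_ge_atTop (0 : ℝ)] with x hx hx0
  simp only [Function.comp_apply] at hx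
  have e1 : (x ^ (1 / 2 : ℝ) / 2) ^ (2 * k) = x ^ k / 4 ^ k := by
    rw [div_pow, pow_mul, pow_mul]
    congr 1
    · congr 1
      rw [← Real.sqrt_eq_rpow, Real.sq_sqrt hx0]
    · norm_num
  rw [e1, Real.exp_neg, ← div_eq_mul_inv, div_le_iff₀ (Real.exp_pos _), div_le_iff₀ (by positivity)] at hx
  have e2 : 1 / ((|C| + 1) * 4 ^ k) * Real.exp (x ^ (1 / 2 : ℝ) / 2) * 4 ^ k =
      Real.exp (x ^ (1 / 2 : ℝ) / 2) / (|C| + 1) := by
    field_simp
  rw [e2, le_div_iff₀ (by positivity)] at hx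
  have hxk : 0 ≤ x ^ k := pow_nonneg hx0 k
  have h5 := le_abs_self C
  nlinarith

private theorem b4c_gw_pos (u : ℝ) : 0 < LibMaier.gw u := by
  unfold LibMaier.gw
  positivity

private theorem b4c_gw_cont : Continuous LibMaier.gw := by
  unfold LibMaier.gw
  fun_prop

private theorem b4c_term (q a : ℕ) (x η s1 s2 : ℝ) (n : ℕ) :
    cap q a n * Gt x η s1 s2 (Real.log n) * ((LibMaier.gw (Real.log n - x) / n : ℝ) : ℂ) =
      (((if n ≡ a [MOD q] then Λ n else 0) * trap η s1 s2 (Real.log n) : ℝ) : ℂ) := by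
  rcases Nat.eq_zero_or_pos n with hn | hn
  · subst hn
    unfold cap
    have h0 : Λ 0 = 0 := ArithmeticFunction.map_zero
    rw [h0]
    simp
  · have hn' : (0 : ℝ) < n := by exact_mod_cast hn
    have hg := b4c_gw_pos (Real.log n - x)
    have e1 : cap q a n = (((if n ≡ a [MOD q] then Λ n else 0) : ℝ) : ℂ) := by
      unfold cap
      split_ifs <;> simp
    rw [e1]
    unfold Gt
    rw [Real.exp_log hn', ← Complex.ofReal_mul, ← Complex.ofReal_mul]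
    congr 1
    have hg' := hg.ne'
    generalize LibMaier.gw (Real.log n - x) = g at hg' ⊢
    field_simp

/-- the smoothing is removed: abstract form -/
private theorem b4c_main {δ L B T : ℝ} (hδ : 0 < δ) {G : ℝ → ℂ} (hG : Integrable G) (c : ℕ → ℂ) (x : ℝ)
    (hc : Summable fun n : ℕ => ‖c n‖ * (LibMaier.gw (Real.log n - x) / n))
    (hT : ∑' n : ℕ, ‖c n‖ * (LibMaier.gw (Real.log n - x) / n) ≤ T) (φ : ℝ) (hφ0 : 0 ≤ φ) (hφ1 : φ ≤ 1)
    (hL0 : 0 ≤ L) (hL : ∀ v w, ‖G w - G v‖ ≤ L * |w - v|) (hB : ∀ w, ‖G w‖ ≤ B) :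
    ‖((∑' n : ℕ, c n * LibHG31.sm δ G (Real.log n) * ((LibMaier.gw (Real.log n - x) / n : ℝ) : ℂ)) -
        (φ : ℂ) * ∫ v : ℝ, LibHG31.sm δ G v * ((LibMaier.gw (v - x) : ℝ) : ℂ)) -
      ((∑' n : ℕ, c n * G (Real.log n) * ((LibMaier.gw (Real.log n - x) / n : ℝ) : ℂ)) -
        (φ : ℂ) * ∫ v : ℝ, G v * ((LibMaier.gw (v - x) : ℝ) : ℂ))‖ ≤ (T + 1) * (L * δ) := by
  obtain ⟨-, i2, -⟩ := LibHG31.expand hδ hG c x hc
  have hw : ∀ n : ℕ, 0 ≤ LibMaier.gw (Real.log n - x) / n := fun n =>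
    div_nonneg (LibMaier.gw_nonneg _) (Nat.cast_nonneg _)
  have i2' : Summable fun n : ℕ => c n * G (Real.log n) * ((LibMaier.gw (Real.log n - x) / n : ℝ) : ℂ) := by
    refine Summable.of_norm_bounded (hc.mul_right B) fun n => ?_
    rw [norm_mul, norm_mul, Complex.norm_real, Real.norm_eq_abs, abs_of_nonneg (hw n)]
    calc ‖c n‖ * ‖G (Real.log n)‖ * (LibMaier.gw (Real.log n - x) / n)
        ≤ ‖c n‖ * B * (LibMaier.gw (Real.log n - x) / n) :=
          mul_le_mul_of_nonneg_right (mul_le_mul_of_nonneg_left (hB _) (norm_nonneg _)) (hw n)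
      _ = _ := by ring
  have hsm : ∀ v, ‖LibHG31.sm δ G v - G v‖ ≤ L * δ := fun v => LibHG31.sm_sub_le hδ hG (hL v)
  have hgi : Integrable fun v : ℝ => LibMaier.gw (v - x) := LibH.integrable_gw.comp_sub_right x
  have j1 := b4c_sm_integrable hδ hG x
  have j2 : Integrable fun v : ℝ => G v * ((LibMaier.gw (v - x) : ℝ) : ℂ) := by
    refine Integrable.mono' (hgi.const_mul B) ?_ (Filter.Eventually.of_forall fun v => ?_)
    · exact hG.aestronglyMeasurable.mul hgi.ofReal.aestronglyMeasurable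
    · rw [norm_mul, Complex.norm_real, Real.norm_eq_abs, abs_of_nonneg (LibMaier.gw_nonneg _)]
      exact mul_le_mul_of_nonneg_right (hB v) (LibMaier.gw_nonneg _)
  have e1 : ((∑' n : ℕ, c n * LibHG31.sm δ G (Real.log n) * ((LibMaier.gw (Real.log n - x) / n : ℝ) : ℂ)) -
        (φ : ℂ) * ∫ v : ℝ, LibHG31.sm δ G v * ((LibMaier.gw (v - x) : ℝ) : ℂ)) -
      ((∑' n : ℕ, c n * G (Real.log n) * ((LibMaier.gw (Real.log n - x) / n : ℝ) : ℂ)) -
        (φ : ℂ) * ∫ v : ℝ, G v * ((LibMaier.gw (v - x) : ℝ) : ℂ)) =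
      (∑' n : ℕ, (c n * LibHG31.sm δ G (Real.log n) * ((LibMaier.gw (Real.log n - x) / n : ℝ) : ℂ) -
        c n * G (Real.log n) * ((LibMaier.gw (Real.log n - x) / n : ℝ) : ℂ))) -
      (φ : ℂ) * ∫ v : ℝ, (LibHG31.sm δ G v * ((LibMaier.gw (v - x) : ℝ) : ℂ) -
        G v * ((LibMaier.gw (v - x) : ℝ) : ℂ)) := by
    rw [i2.tsum_sub i2', integral_sub j1 j2]
    ring
  rw [e1]
  have hLδ : 0 ≤ L * δ := by positivity
  have h1 : ‖∑' n : ℕ, (c n * LibHG31.sm δ G (Real.log n) * ((LibMaier.gw (Real.log n - x) / n : ℝ) : ℂ) -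
        c n * G (Real.log n) * ((LibMaier.gw (Real.log n - x) / n : ℝ) : ℂ))‖ ≤ T * (L * δ) := by
    refine (tsum_of_norm_bounded (hc.mul_right (L * δ)).hasSum fun n => ?_).trans ?_
    · have e2 : c n * LibHG31.sm δ G (Real.log n) * ((LibMaier.gw (Real.log n - x) / n : ℝ) : ℂ) -
          c n * G (Real.log n) * ((LibMaier.gw (Real.log n - x) / n : ℝ) : ℂ) =
          c n * (LibHG31.sm δ G (Real.log n) - G (Real.log n)) *
            ((LibMaier.gw (Real.log n - x) / n : ℝ) : ℂ) := by ring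
      rw [e2, norm_mul, norm_mul, Complex.norm_real, Real.norm_eq_abs, abs_of_nonneg (hw n)]
      calc ‖c n‖ * ‖LibHG31.sm δ G (Real.log n) - G (Real.log n)‖ * (LibMaier.gw (Real.log n - x) / n)
          ≤ ‖c n‖ * (L * δ) * (LibMaier.gw (Real.log n - x) / n) :=
            mul_le_mul_of_nonneg_right (mul_le_mul_of_nonneg_left (hsm _) (norm_nonneg _)) (hw n)
        _ = _ := by ring
    · rw [tsum_mul_right]
      exact mul_le_mul_of_nonneg_right hT hLδ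
  have h2 : ‖∫ v : ℝ, (LibHG31.sm δ G v * ((LibMaier.gw (v - x) : ℝ) : ℂ) -
        G v * ((LibMaier.gw (v - x) : ℝ) : ℂ))‖ ≤ L * δ := by
    refine (norm_integral_le_of_norm_le (hgi.const_mul (L * δ))
      (Filter.Eventually.of_forall fun v => ?_)).trans ?_
    · rw [← sub_mul, norm_mul, Complex.norm_real, Real.norm_eq_abs, abs_of_nonneg (LibMaier.gw_nonneg _)]
      exact mul_le_mul_of_nonneg_right (hsm v) (LibMaier.gw_nonneg _)
    · rw [integral_const_mul, integral_sub_right_eq_self (fun u : ℝ => LibMaier.gw u) x, LibH.integral_gw,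
        mul_one]
  refine (norm_sub_le _ _).trans ?_
  rw [norm_mul, Complex.norm_real, Real.norm_eq_abs, abs_of_nonneg hφ0]
  have h3 : φ * ‖∫ v : ℝ, (LibHG31.sm δ G v * ((LibMaier.gw (v - x) : ℝ) : ℂ) -
        G v * ((LibMaier.gw (v - x) : ℝ) : ℂ))‖ ≤ 1 * (L * δ) := mul_le_mul hφ1 h2 (norm_nonneg _) zero_le_one
  linarith

theorem trap_sum (K : ℕ) : ∀ᶠ x : ℝ in atTop, ∀ q a : ℕ, 1 ≤ q → (q : ℝ) ≤ x ^ K → a.Coprime q →
    ∀ s1 s2 : ℝ, x - 2 ≤ s1 → s1 ≤ s2 → s2 ≤ x + 1 →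
      |(∑' n : ℕ, (if n ≡ a [MOD q] then Λ n else 0) * trap (x ^ K)⁻¹ s1 s2 (Real.log n)) -
        (1 / (q.totient : ℝ)) * ∫ w : ℝ, trap (x ^ K)⁻¹ s1 s2 w * Real.exp w| ≤
        Real.exp x * (x ^ K)⁻¹ := by
  filter_upwards [sm_compare (3 * K + 2) (by omega), b4c_S0, b4c_growth K 2, eventually_ge_atTop (1440 : ℝ)] with
    x hcmp hS0 hg hx q a hq hqK hqa s1 s2 hs1 hs12 hs2
  have hx0 : 0 < x := by linarith
  have hx1 : 1 ≤ x := by linarith
  have hxK : 1 ≤ x ^ K := one_le_pow₀ hx1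
  have hη : 0 < (x ^ K)⁻¹ := by positivity
  have hη1 : (x ^ K)⁻¹ ≤ 1 := inv_le_one_of_one_le₀ hxK
  have hx3 : 1 ≤ x ^ (3 * K + 1) := one_le_pow₀ hx1
  have hδ : 0 < (x ^ (3 * K + 1))⁻¹ := by positivity
  have hδ1 : (x ^ (3 * K + 1))⁻¹ ≤ 1 := inv_le_one_of_one_le₀ hx3
  have hqK' : (q : ℝ) ≤ x ^ (3 * K + 2) := hqK.trans (pow_le_pow_right₀ hx1 (by omega))
  have h1 := hcmp q a hq hqK' hqa (x ^ (3 * K + 1))⁻¹ (x ^ K)⁻¹ s1 s2
    (by rw [show 3 * K + 2 - 1 = 3 * K + 1 by omega]) hδ1 hη hη1 hs1 hs12 hs2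
  obtain ⟨hG, hG60, -, hGL⟩ := Gt_props (x := x) hη hη1 hs1 hs12 hs2
  have hc : Summable fun n : ℕ => ‖cap q a n‖ * (LibMaier.gw (Real.log n - x) / n) := by
    refine Summable.of_nonneg_of_le (fun n => ?_) (fun n => b4c_cap_norm q a n x) (LibMaier.summable_wn x)
    exact mul_nonneg (norm_nonneg _) (div_nonneg (LibMaier.gw_nonneg _) (Nat.cast_nonneg _))
  have hcS : ∑' n : ℕ, ‖cap q a n‖ * (LibMaier.gw (Real.log n - x) / n) ≤ 2 := by
    refine le_trans ?_ hS0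
    unfold LibMaier.S0
    exact hc.tsum_le_tsum (fun n => b4c_cap_norm q a n x) (LibMaier.summable_wn x)
  have hφ : 1 ≤ (q.totient : ℝ) := by exact_mod_cast Nat.totient_pos.2 hq
  have h2 := b4c_main hδ hG (cap q a) x hc hcS (1 / (q.totient : ℝ)) (by positivity)
    ((div_le_one (by linarith)).2 hφ) (L := 240 * Real.exp x / (x ^ K)⁻¹) (by positivity) hGL hG60
  have e1 : (((1 / (q.totient : ℝ)) : ℝ) : ℂ) = 1 / (q.totient : ℂ) := by push_cast; rfl
  rw [e1] at h2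
  have e2 : ∑' n : ℕ, cap q a n * Gt x (x ^ K)⁻¹ s1 s2 (Real.log n) *
      ((LibMaier.gw (Real.log n - x) / n : ℝ) : ℂ) =
      ((∑' n : ℕ, (if n ≡ a [MOD q] then Λ n else 0) * trap (x ^ K)⁻¹ s1 s2 (Real.log n) : ℝ) : ℂ) := by
    rw [Complex.ofReal_tsum]
    exact tsum_congr fun n => b4c_term q a x _ s1 s2 n
  have e3 : ∫ v : ℝ, Gt x (x ^ K)⁻¹ s1 s2 v * ((LibMaier.gw (v - x) : ℝ) : ℂ) =
      ((∫ w : ℝ, trap (x ^ K)⁻¹ s1 s2 w * Real.exp w : ℝ) : ℂ) := by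
    rw [← integral_complex_ofReal]
    refine integral_congr_ae (Filter.Eventually.of_forall fun v => ?_)
    simp only
    unfold Gt
    rw [← Complex.ofReal_mul]
    congr 1
    exact div_mul_cancel₀ _ (b4c_gw_pos _).ne'
  rw [e2, e3] at h2
  set S : ℝ := ∑' n : ℕ, (if n ≡ a [MOD q] then Λ n else 0) * trap (x ^ K)⁻¹ s1 s2 (Real.log n) with hS
  set J : ℝ := ∫ w : ℝ, trap (x ^ K)⁻¹ s1 s2 w * Real.exp w with hJ
  have e4 : ((S - 1 / (q.totient : ℝ) * J : ℝ) : ℂ) = (S : ℂ) - 1 / (q.totient : ℂ) * (J : ℂ) := by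
    push_cast
    rfl
  have e5 : |S - 1 / (q.totient : ℝ) * J| = ‖(S : ℂ) - 1 / (q.totient : ℂ) * (J : ℂ)‖ := by
    rw [← e4, Complex.norm_real, Real.norm_eq_abs]
  rw [e5]
  rw [norm_sub_rev] at h2
  have h3 := norm_le_norm_add_norm_sub' ((S : ℂ) - 1 / (q.totient : ℂ) * (J : ℂ))
    ((∑' n : ℕ, cap q a n * LibHG31.sm (x ^ (3 * K + 1))⁻¹ (Gt x (x ^ K)⁻¹ s1 s2) (Real.log n) *
      ((LibMaier.gw (Real.log n - x) / n : ℝ) : ℂ)) -
        (1 / (q.totient : ℂ)) * ∫ v : ℝ, LibHG31.sm (x ^ (3 * K + 1))⁻¹ (Gt x (x ^ K)⁻¹ s1 s2) v *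
          ((LibMaier.gw (v - x) : ℝ) : ℂ))
  refine h3.trans ((add_le_add h1 h2).trans ?_)
  have hexp := Real.exp_pos x
  have t1 : Real.exp (-(x ^ (1 / 2 : ℝ) / 2)) ≤ (x ^ K)⁻¹ / 2 := by
    rw [Real.exp_neg, inv_eq_one_div, inv_eq_one_div, div_div, one_div_le_one_div (Real.exp_pos _) (by positivity)]
    linarith
  have t2 : (2 + 1) * (240 * Real.exp x / (x ^ K)⁻¹ * (x ^ (3 * K + 1))⁻¹) ≤ Real.exp x * ((x ^ K)⁻¹ / 2) := by
    have e6 : x ^ (3 * K + 1) = x ^ K * x ^ K * (x ^ K * x) := by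
      rw [show 3 * K + 1 = K + K + (K + 1) by omega, pow_add, pow_add, pow_succ]
    have e7 : 240 * Real.exp x / (x ^ K)⁻¹ * (x ^ (3 * K + 1))⁻¹ =
        240 * Real.exp x * ((x ^ K)⁻¹ * (x ^ K * x)⁻¹) := by
      rw [e6]
      field_simp
    have h4 : 1440 ≤ x ^ K * x := by nlinarith
    have h5 : (x ^ K * x)⁻¹ ≤ (1440 : ℝ)⁻¹ := inv_anti₀ (by norm_num) h4
    rw [e7]
    have h6 : (x ^ K)⁻¹ * (x ^ K * x)⁻¹ ≤ (x ^ K)⁻¹ * (1440 : ℝ)⁻¹ :=
      mul_le_mul_of_nonneg_left h5 hη.le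
    have h7 : 240 * Real.exp x * ((x ^ K)⁻¹ * (x ^ K * x)⁻¹) ≤ 240 * Real.exp x * ((x ^ K)⁻¹ * (1440 : ℝ)⁻¹) :=
      mul_le_mul_of_nonneg_left h6 (by positivity)
    linarith
  have t3 := mul_le_mul_of_nonneg_left t1 hexp.le
  linarith

end Pool.Agent.LibSW40
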