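import Pool.Agent.LibSW40.B4c

/-!
Row B4d (MEDIUM). Sharp windows.

PLAN. `trap_sum (K+1)` (`η = x^(-(K+1))`) for `[s1, s2] = [log t1, log t2]` (lower bound: `trap ≤ 1_{(t1,t2]}` on integers since
`trap = 0` at the ends; if `t1 = t2` trivial) and for `[log t1 - η, log t2 + η]` (upper bound: `trap = 1` on `[log t1, log t2]`);
`(t2 - t1) - 2 η e^x·3 ≤ ∫ trap e^w ≤ (t2 - t1) + 3·4 η e^x`. The sum is over a finite set: `trap (log n) = 0` for large `n`.
-/

set_option autoImplicit false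

namespace Pool.Agent.LibSW40

open Filter Finset
open scoped ArithmeticFunction.vonMangoldt

private theorem b4d_trap_zero_left {η s1 s2 w : ℝ} (hη : 0 < η) (h : w ≤ s1) : trap η s1 s2 w = 0 := by
  unfold trap
  apply max_eq_left
  refine (min_le_right _ _).trans ((min_le_left _ _).trans ?_)
  exact div_nonpos_of_nonpos_of_nonneg (by linarith) hη.le

private theorem b4d_trap_zero_right {η s1 s2 w : ℝ} (hη : 0 < η) (h : s2 ≤ w) : trap η s1 s2 w = 0 := by
  unfold trap
  apply max_eq_left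
  refine (min_le_right _ _).trans ((min_le_right _ _).trans ?_)
  exact div_nonpos_of_nonpos_of_nonneg (by linarith) hη.le

private theorem b4d_trap_one {η s1 s2 w : ℝ} (hη : 0 < η) (h1 : s1 + η ≤ w) (h2 : w ≤ s2 - η) :
    trap η s1 s2 w = 1 := by
  unfold trap
  have a1 : 1 ≤ (w - s1) / η := by rw [le_div_iff₀ hη]; linarith
  have a2 : 1 ≤ (s2 - w) / η := by rw [le_div_iff₀ hη]; linarith
  rw [min_eq_left (le_min a1 a2)]
  exact max_eq_right zero_le_one

private theorem b4d_trap_cont (η s1 s2 : ℝ) : Continuous (trap η s1 s2) := by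
  unfold trap
  fun_prop

private theorem b4d_supp {η s1 s2 : ℝ} (hη : 0 < η) (w : ℝ) (hw : w ∉ Set.Ioc s1 s2) :
    trap η s1 s2 w * Real.exp w = 0 := by
  rw [Set.mem_Ioc, not_and_or, not_lt, not_le] at hw
  rcases hw with h | h
  · rw [b4d_trap_zero_left hη h, zero_mul]
  · rw [b4d_trap_zero_right hη h.le, zero_mul]

private theorem b4d_int_eq {η s1 s2 : ℝ} (hη : 0 < η) (h12 : s1 ≤ s2) :
    ∫ w : ℝ, trap η s1 s2 w * Real.exp w = ∫ w in s1..s2, trap η s1 s2 w * Real.exp w := by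
  rw [intervalIntegral.integral_of_le h12]
  exact (MeasureTheory.setIntegral_eq_integral_of_forall_compl_eq_zero fun w hw => b4d_supp hη w hw).symm

private theorem b4d_int_nonneg (η s1 s2 : ℝ) : 0 ≤ ∫ w : ℝ, trap η s1 s2 w * Real.exp w :=
  MeasureTheory.integral_nonneg fun w => mul_nonneg (trap_nonneg _ _ _ _) (Real.exp_pos _).le

private theorem b4d_int_upper {η s1 s2 : ℝ} (hη : 0 < η) (h12 : s1 ≤ s2) :
    ∫ w : ℝ, trap η s1 s2 w * Real.exp w ≤ Real.exp s2 - Real.exp s1 := by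
  rw [b4d_int_eq hη h12, ← integral_exp]
  have hc : Continuous fun w => trap η s1 s2 w * Real.exp w := (b4d_trap_cont η s1 s2).mul Real.continuous_exp
  refine intervalIntegral.integral_mono_on h12 (hc.intervalIntegrable _ _)
    (Real.continuous_exp.intervalIntegrable _ _) fun w _ => ?_
  exact mul_le_of_le_one_left (Real.exp_pos _).le (trap_le_one _ _ _ _)

private theorem b4d_int_lower {η s1 s2 : ℝ} (hη : 0 < η) (h : s1 + η ≤ s2 - η) :
    Real.exp (s2 - η) - Real.exp (s1 + η) ≤ ∫ w : ℝ, trap η s1 s2 w * Real.exp w := by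
  have hc : Continuous fun w => trap η s1 s2 w * Real.exp w := (b4d_trap_cont η s1 s2).mul Real.continuous_exp
  rw [b4d_int_eq hη (by linarith), ← integral_exp]
  have h1 : ∫ w in (s1 + η)..(s2 - η), Real.exp w = ∫ w in (s1 + η)..(s2 - η), trap η s1 s2 w * Real.exp w := by
    apply intervalIntegral.integral_congr
    intro w hw
    rw [Set.uIcc_of_le h] at hw
    simp only
    rw [b4d_trap_one hη hw.1 hw.2, one_mul]
  rw [h1]
  apply intervalIntegral.integral_mono_interval (by linarith) h (by linarith)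
  · exact MeasureTheory.ae_of_all _ fun w => mul_nonneg (trap_nonneg _ _ _ _) (Real.exp_pos _).le
  · exact hc.intervalIntegrable _ _

private theorem b4d_exp_le {η : ℝ} (h0 : 0 ≤ η) (h1 : η ≤ 1) :
    1 - η ≤ Real.exp (-η) ∧ Real.exp η ≤ 1 + 2 * η := by
  constructor
  · have := Real.add_one_le_exp (-η)
    linarith
  · have h2 := Real.exp_bound_div_one_sub_of_interval h0
    have h3 := Real.abs_exp_sub_one_le (x := η) (by rw [abs_of_nonneg h0]; exact h1)
    rw [abs_of_nonneg h0] at h3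
    have h4 := (abs_le.1 h3).2
    linarith

theorem window (K : ℕ) : ∀ᶠ x : ℝ in atTop, ∀ q a : ℕ, 1 ≤ q → (q : ℝ) ≤ x ^ K → a.Coprime q →
    ∀ t1 t2 : ℝ, Real.exp (x - 1) ≤ t1 → t1 ≤ t2 → t2 ≤ Real.exp x →
      |(∑ n ∈ (Ioc ⌊t1⌋₊ ⌊t2⌋₊).filter (fun n => n ≡ a [MOD q]), Λ n) - (t2 - t1) / (q.totient : ℝ)| ≤
        Real.exp x * (x ^ K)⁻¹ := by
  filter_upwards [trap_sum (K + 1), eventually_ge_atTop (4 : ℝ)] with x htr hx q a hq hqK hqa t1 t2 ht1 ht12 ht2
  have hx0 : 0 < x := by linarith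
  have hx1 : 1 ≤ x := by linarith
  have hxK : 1 ≤ x ^ (K + 1) := one_le_pow₀ hx1
  have hqK' : (q : ℝ) ≤ x ^ (K + 1) := hqK.trans (pow_le_pow_right₀ hx1 (by omega))
  obtain ⟨η, hηd⟩ : ∃ η : ℝ, η = (x ^ (K + 1))⁻¹ := ⟨_, rfl⟩
  have hη : 0 < η := by rw [hηd]; positivity
  have hη1 : η ≤ 1 := by rw [hηd]; exact inv_le_one_of_one_le₀ hxK
  have ht10 : 0 < t1 := (Real.exp_pos _).trans_le ht1
  have ht20 : 0 < t2 := ht10.trans_le ht12
  obtain ⟨s1, hs1⟩ : ∃ s1 : ℝ, s1 = Real.log t1 := ⟨_, rfl⟩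
  obtain ⟨s2, hs2⟩ : ∃ s2 : ℝ, s2 = Real.log t2 := ⟨_, rfl⟩
  have hes1 : Real.exp s1 = t1 := by rw [hs1, Real.exp_log ht10]
  have hes2 : Real.exp s2 = t2 := by rw [hs2, Real.exp_log ht20]
  have hs1x : x - 1 ≤ s1 := by rw [hs1, Real.le_log_iff_exp_le ht10]; exact ht1
  have hs2x : s2 ≤ x := by rw [hs2, Real.log_le_iff_le_exp ht20]; exact ht2
  have hs12 : s1 ≤ s2 := by rw [hs1, hs2]; exact Real.log_le_log ht10 ht12
  have hφ : 1 ≤ (q.totient : ℝ) := by exact_mod_cast Nat.totient_pos.2 hq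
  have hφ0 : 0 < (q.totient : ℝ) := by linarith
  obtain ⟨be1, be2⟩ := b4d_exp_le hη.le hη1
  have hex := Real.exp_pos x
  obtain ⟨S, hS⟩ : ∃ S : Finset ℕ, S = (Ioc ⌊t1⌋₊ ⌊t2⌋₊).filter (fun n => n ≡ a [MOD q]) := ⟨_, rfl⟩
  rw [← hS]
  have hmemS : ∀ n : ℕ, n ∈ S ↔ (t1 < n ∧ (n : ℝ) ≤ t2) ∧ n ≡ a [MOD q] := by
    intro n
    rw [hS, Finset.mem_filter, Finset.mem_Ioc, Nat.floor_lt ht10.le, Nat.le_floor_iff ht20.le]
  have h1 := htr q a hq hqK' hqa s1 s2 (by linarith) hs12 (by linarith)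
  have h2 := htr q a hq hqK' hqa (s1 - η) (s2 + η) (by linarith) (by linarith) (by linarith)
  rw [← hηd] at h1 h2
  -- lower bound for the sum
  have l1 : ∑' n : ℕ, (if n ≡ a [MOD q] then Λ n else 0) * trap η s1 s2 (Real.log n) ≤ ∑ n ∈ S, Λ n := by
    rw [tsum_eq_sum (s := S)]
    · refine Finset.sum_le_sum fun n hn => ?_
      rw [if_pos ((hmemS n).1 hn).2]
      exact mul_le_of_le_one_right ArithmeticFunction.vonMangoldt_nonneg (trap_le_one _ _ _ _)
    · intro n hn
      by_cases hna : n ≡ a [MOD q]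
      · rcases Nat.eq_zero_or_pos n with h0 | h0
        · subst h0
          have h00 : Λ 0 = 0 := ArithmeticFunction.map_zero
          rw [h00, ite_self, zero_mul]
        · have hn0 : (0 : ℝ) < n := by exact_mod_cast h0
          rw [hmemS, not_and_or, not_and_or, not_lt, not_le] at hn
          rcases hn with (h | h) | h
          · rw [b4d_trap_zero_left hη (by rw [hs1]; exact Real.log_le_log hn0 h), mul_zero]
          · rw [b4d_trap_zero_right hη (by rw [hs2]; exact Real.log_le_log ht20 h.le), mul_zero]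
          · exact absurd hna h
      · rw [if_neg hna, zero_mul]
  -- upper bound for the sum
  have l2 : ∑ n ∈ S, Λ n ≤
      ∑' n : ℕ, (if n ≡ a [MOD q] then Λ n else 0) * trap η (s1 - η) (s2 + η) (Real.log n) := by
    have hnn : ∀ n : ℕ, 0 ≤ (if n ≡ a [MOD q] then Λ n else 0) * trap η (s1 - η) (s2 + η) (Real.log n) := by
      intro n
      apply mul_nonneg _ (trap_nonneg _ _ _ _)
      split_ifs
      · exact ArithmeticFunction.vonMangoldt_nonneg
      · exact le_rfl
    have hsum : Summable fun n : ℕ =>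
        (if n ≡ a [MOD q] then Λ n else 0) * trap η (s1 - η) (s2 + η) (Real.log n) := by
      refine summable_of_ne_finset_zero (s := Finset.range (⌊Real.exp (s2 + η)⌋₊ + 1)) fun n hn => ?_
      rw [Finset.mem_range, not_lt] at hn
      have h3 : Real.exp (s2 + η) < n := (Nat.floor_lt (Real.exp_pos _).le).1 (by omega)
      have h4 : s2 + η ≤ Real.log n := by
        rw [Real.le_log_iff_exp_le ((Real.exp_pos _).trans h3)]
        exact h3.le
      rw [b4d_trap_zero_right hη h4, mul_zero]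
    refine le_trans (le_of_eq ?_) (hsum.sum_le_tsum S fun n _ => hnn n)
    refine Finset.sum_congr rfl fun n hn => ?_
    obtain ⟨⟨h3, h4⟩, h5⟩ := (hmemS n).1 hn
    have hn0 : (0 : ℝ) < n := ht10.trans h3
    have h6 : s1 ≤ Real.log n := by rw [hs1]; exact Real.log_le_log ht10 h3.le
    have h7 : Real.log n ≤ s2 := by rw [hs2]; exact Real.log_le_log hn0 h4
    rw [if_pos h5, b4d_trap_one hη (by linarith) (by linarith), mul_one]
  -- the integrals
  have m1 : (t2 - t1) - 3 * η * Real.exp x ≤ ∫ w : ℝ, trap η s1 s2 w * Real.exp w := by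
    rcases le_or_gt (s1 + η) (s2 - η) with h | h
    · refine le_trans ?_ (b4d_int_lower hη h)
      rw [sub_eq_add_neg s2 η, Real.exp_add, Real.exp_add, hes1, hes2]
      have e1 : t2 * (1 - η) ≤ t2 * Real.exp (-η) := mul_le_mul_of_nonneg_left be1 ht20.le
      have e2 : t1 * Real.exp η ≤ t1 * (1 + 2 * η) := mul_le_mul_of_nonneg_left be2 ht10.le
      have e3 : t2 * η ≤ Real.exp x * η := mul_le_mul_of_nonneg_right ht2 hη.le
      have e4 : t1 * η ≤ Real.exp x * η := mul_le_mul_of_nonneg_right (ht12.trans ht2) hη.le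
      linarith
    · refine le_trans ?_ (b4d_int_nonneg η s1 s2)
      have e1 : s2 < s1 + 2 * η := by linarith
      have e2 : t2 * (1 - 2 * η) ≤ t1 := by
        have e3 : t2 * Real.exp (-(2 * η)) ≤ t1 := by
          rw [← hes1, ← hes2, ← Real.exp_add]
          apply Real.exp_le_exp.2
          linarith
        have e4 : 1 - 2 * η ≤ Real.exp (-(2 * η)) := by
          have := Real.add_one_le_exp (-(2 * η))
          linarith
        exact (mul_le_mul_of_nonneg_left e4 ht20.le).trans e3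
      have e5 : t2 * η ≤ Real.exp x * η := mul_le_mul_of_nonneg_right ht2 hη.le
      have e6 : 0 ≤ Real.exp x * η := by positivity
      linarith
  have m2 : ∫ w : ℝ, trap η (s1 - η) (s2 + η) w * Real.exp w ≤ (t2 - t1) + 3 * η * Real.exp x := by
    refine (b4d_int_upper hη (by linarith)).trans ?_
    rw [sub_eq_add_neg s1 η, Real.exp_add, Real.exp_add, hes1, hes2]
    have e1 : t1 * (1 - η) ≤ t1 * Real.exp (-η) := mul_le_mul_of_nonneg_left be1 ht10.le
    have e2 : t2 * Real.exp η ≤ t2 * (1 + 2 * η) := mul_le_mul_of_nonneg_left be2 ht20.le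
    have e3 : t2 * η ≤ Real.exp x * η := mul_le_mul_of_nonneg_right ht2 hη.le
    have e4 : t1 * η ≤ Real.exp x * η := mul_le_mul_of_nonneg_right (ht12.trans ht2) hη.le
    linarith
  obtain ⟨h1a, h1b⟩ := abs_le.1 h1
  obtain ⟨h2a, h2b⟩ := abs_le.1 h2
  have hφi : 1 / (q.totient : ℝ) ≤ 1 := (div_le_one hφ0).2 hφ
  have hφi0 : 0 ≤ 1 / (q.totient : ℝ) := by positivity
  have n1 := mul_le_mul_of_nonneg_left m1 hφi0
  have n2 := mul_le_mul_of_nonneg_left m2 hφi0
  have n3 : 1 / (q.totient : ℝ) * (3 * η * Real.exp x) ≤ 3 * η * Real.exp x :=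
    mul_le_of_le_one_left (by positivity) hφi
  have hfin : 4 * η ≤ (x ^ K)⁻¹ := by
    have e1 : (x ^ K)⁻¹ = η * x := by
      rw [hηd, pow_succ]
      field_simp
    rw [e1]
    nlinarith
  have hfin2 : Real.exp x * (4 * η) ≤ Real.exp x * (x ^ K)⁻¹ := mul_le_mul_of_nonneg_left hfin hex.le
  have e7 : (t2 - t1) / (q.totient : ℝ) = 1 / (q.totient : ℝ) * (t2 - t1) := by ring
  rw [e7, abs_le]
  constructor
  · have n4 : 1 / (q.totient : ℝ) * ((t2 - t1) - 3 * η * Real.exp x) =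
        1 / (q.totient : ℝ) * (t2 - t1) - 1 / (q.totient : ℝ) * (3 * η * Real.exp x) := by ring
    linarith
  · have n4 : 1 / (q.totient : ℝ) * ((t2 - t1) + 3 * η * Real.exp x) =
        1 / (q.totient : ℝ) * (t2 - t1) + 1 / (q.totient : ℝ) * (3 * η * Real.exp x) := by ring
    linarith

end Pool.Agent.LibSW40
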