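import Pool.Agent.LibPL63.B3

/-!
Row C1 (MEDIUM). Reorganization of the sum over the moduli `4 e`, `e` odd squarefree. Template: `reorganize` (`LibPL63/B3.lean`).

PLAN. `r.1 ∣ 4 e`, `e` odd squarefree: `r.1 = j r'` with `j = gcd(r.1, 4)`, `r' = r.1 / j ∣ e` odd squarefree, `r' ≥ r.1 / 4`; so
`∑_{e : r' ∣ e} C^ω(e)/φ(4e) ≤ ∑_{q ≤ Q, q squarefree, r' ∣ q} C^ω(q)/φ(q) ≤ C^ω(r')/φ(r') (K log Q)^C` (`sum_wt_dvd_le`; `φ(4e) ≥ φ(e)`)
`≤ K' r'^(-1/2) (K log Q)^C ≤ 2 K' r.1^(-1/2) (K log Q)^C` (`wt_le_rpow`).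
-/

set_option autoImplicit false

namespace Pool.Agent.LibSW40

open Finset Pool.Agent.LibPL63

/-- odd squarefree numbers up to `Q` -/
def osf (Q : ℕ) : Finset ℕ := (Icc 1 Q).filter (fun e => Squarefree e ∧ e % 2 = 1)

private theorem c1_dvd {d e : ℕ} (h : d ∣ 4 * e) : d / Nat.gcd d 4 ∣ e := by
  have hg : 0 < Nat.gcd d 4 := Nat.gcd_pos_of_pos_right d (by norm_num)
  have hco : Nat.Coprime (d / Nat.gcd d 4) (4 / Nat.gcd d 4) := Nat.coprime_div_gcd_div_gcd hg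
  have h1 : Nat.gcd d 4 * (d / Nat.gcd d 4) = d := Nat.mul_div_cancel' (Nat.gcd_dvd_left d 4)
  have h2 : Nat.gcd d 4 * (4 / Nat.gcd d 4) = 4 := Nat.mul_div_cancel' (Nat.gcd_dvd_right d 4)
  have h3 : Nat.gcd d 4 * (d / Nat.gcd d 4) ∣ Nat.gcd d 4 * ((4 / Nat.gcd d 4) * e) := by
    rw [h1, ← mul_assoc, h2]
    exact h
  have h4 : d / Nat.gcd d 4 ∣ (4 / Nat.gcd d 4) * e := Nat.dvd_of_mul_dvd_mul_left hg h3
  exact hco.dvd_of_dvd_mul_left h4

private theorem c1_le (d : ℕ) : d ≤ 4 * (d / Nat.gcd d 4) := by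
  have h1 : Nat.gcd d 4 * (d / Nat.gcd d 4) = d := Nat.mul_div_cancel' (Nat.gcd_dvd_left d 4)
  have h2 : Nat.gcd d 4 ≤ 4 := Nat.le_of_dvd (by norm_num) (Nat.gcd_dvd_right d 4)
  calc d = Nat.gcd d 4 * (d / Nat.gcd d 4) := h1.symm
    _ ≤ 4 * (d / Nat.gcd d 4) := Nat.mul_le_mul_right _ h2

private theorem c1_rpow {d d' : ℕ} (hd : 1 ≤ d) (h : d ≤ 4 * d') :
    (d' : ℝ) ^ (-(1 / 2 : ℝ)) ≤ 2 * (d : ℝ) ^ (-(1 / 2 : ℝ)) := by
  have hd0 : (0 : ℝ) < d := by exact_mod_cast hd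
  have hd' : (0 : ℝ) < d' := by
    have : 0 < d' := by omega
    exact_mod_cast this
  have h1 : (d : ℝ) / 4 ≤ d' := by
    have : (d : ℝ) ≤ 4 * d' := by exact_mod_cast h
    linarith
  have h2 : (d' : ℝ) ^ (-(1 / 2 : ℝ)) ≤ ((d : ℝ) / 4) ^ (-(1 / 2 : ℝ)) :=
    Real.rpow_le_rpow_of_nonpos (by positivity) h1 (by norm_num)
  have h3 : ((d : ℝ) / 4) ^ (-(1 / 2 : ℝ)) = 2 * (d : ℝ) ^ (-(1 / 2 : ℝ)) := by
    rw [Real.div_rpow hd0.le (by norm_num)]
    have h4 : (4 : ℝ) ^ (-(1 / 2 : ℝ)) = 1 / 2 := by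
      rw [show (4 : ℝ) = 2 ^ (2 : ℝ) by norm_num, ← Real.rpow_mul (by norm_num)]
      norm_num
    rw [h4]
    ring
  rw [← h3]
  exact h2

theorem reorganize4 (C : ℕ) (hC : 1 ≤ C) : ∃ K : ℝ, 0 < K ∧ ∀ Q : ℕ, 2 ≤ Q → ∀ f : PC → ℝ, (∀ r, 0 ≤ f r) →
    ∑ e ∈ osf Q, (C : ℝ) ^ e.primeFactors.card / ((4 * e).totient : ℝ) *
        ∑ r ∈ (prims (4 * e)).filter (fun r => r.1 ∣ 4 * e), f r ≤
      K * Real.log Q ^ C * ∑ r ∈ prims (4 * Q), (r.1 : ℝ) ^ (-(1 / 2 : ℝ)) * f r := by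
  classical
  obtain ⟨K1, hK1, h1⟩ := sum_wt_dvd_le
  obtain ⟨K2, hK2, h2⟩ := wt_le_rpow C hC
  refine ⟨2 * K2 * K1 ^ C, by positivity, fun Q hQ f hf => ?_⟩
  have hlog : 0 ≤ Real.log Q := Real.log_nonneg (by exact_mod_cast (by omega : 1 ≤ Q))
  set w : ℕ → ℝ := fun e => (C : ℝ) ^ e.primeFactors.card / ((4 * e).totient : ℝ) with hw
  have hw0 : ∀ e, 0 ≤ w e := fun e => by positivity
  have hwle : ∀ e, 1 ≤ e → w e ≤ (C : ℝ) ^ e.primeFactors.card / (e.totient : ℝ) := by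
    intro e he
    have hpos : 0 < e.totient := Nat.totient_pos.2 (by omega)
    have hle : e.totient ≤ (4 * e).totient :=
      Nat.le_of_dvd (Nat.totient_pos.2 (by omega)) (Nat.totient_dvd_of_dvd (Dvd.intro_left 4 rfl))
    apply div_le_div_of_nonneg_left (by positivity) (by exact_mod_cast hpos)
    exact_mod_cast hle
  have hA : ∀ e ∈ osf Q, 1 ≤ e ∧ e ≤ Q ∧ Squarefree e := by
    intro e he
    unfold osf at he
    rw [Finset.mem_filter, Finset.mem_Icc] at he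
    exact ⟨he.1.1, he.1.2, he.2.1⟩
  have hT : ∀ r ∈ prims (4 * Q), ∑ e ∈ (osf Q).filter (fun e => r.1 ∣ 4 * e), w e ≤
      2 * K2 * K1 ^ C * Real.log Q ^ C * (r.1 : ℝ) ^ (-(1 / 2 : ℝ)) := by
    intro r hr
    rw [mem_prims] at hr
    have hrhs : 0 ≤ 2 * K2 * K1 ^ C * Real.log Q ^ C * (r.1 : ℝ) ^ (-(1 / 2 : ℝ)) := by positivity
    set d' := r.1 / Nat.gcd r.1 4 with hd'
    have hle4 : r.1 ≤ 4 * d' := c1_le r.1
    by_cases hsq : Squarefree d'
    · calc ∑ e ∈ (osf Q).filter (fun e => r.1 ∣ 4 * e), w e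
          ≤ ∑ e ∈ (osf Q).filter (fun e => r.1 ∣ 4 * e),
              (C : ℝ) ^ e.primeFactors.card / (e.totient : ℝ) := by
            refine Finset.sum_le_sum fun e he => hwle e ?_
            exact (hA e (Finset.mem_of_mem_filter e he)).1
        _ ≤ ∑ q ∈ (Icc 1 Q).filter (fun q => Squarefree q ∧ d' ∣ q),
              (C : ℝ) ^ q.primeFactors.card / (q.totient : ℝ) := by
            apply Finset.sum_le_sum_of_subset_of_nonneg
            · intro e he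
              rw [Finset.mem_filter] at he
              obtain ⟨ha, hb, hc⟩ := hA e he.1
              rw [Finset.mem_filter, Finset.mem_Icc]
              exact ⟨⟨ha, hb⟩, hc, c1_dvd he.2⟩
            · intro q _ _
              positivity
        _ ≤ (C : ℝ) ^ d'.primeFactors.card / (d'.totient : ℝ) * (K1 * Real.log Q) ^ C :=
            h1 C Q d' hC hQ (by omega)
        _ ≤ (K2 * (d' : ℝ) ^ (-(1 / 2 : ℝ))) * (K1 * Real.log Q) ^ C :=
            mul_le_mul_of_nonneg_right (h2 d' hsq) (by positivity)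
        _ ≤ (K2 * (2 * (r.1 : ℝ) ^ (-(1 / 2 : ℝ)))) * (K1 * Real.log Q) ^ C := by
            apply mul_le_mul_of_nonneg_right _ (by positivity)
            exact mul_le_mul_of_nonneg_left (c1_rpow (by omega) hle4) hK2.le
        _ = _ := by
            rw [mul_pow]
            ring
    · have hemp : (osf Q).filter (fun e => r.1 ∣ 4 * e) = ∅ := by
        apply Finset.filter_eq_empty_iff.2
        intro e he h
        exact hsq ((hA e he).2.2.squarefree_of_dvd (c1_dvd h))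
      rw [hemp, Finset.sum_empty]
      exact hrhs
  have hstep : ∀ e ∈ osf Q, ∑ r ∈ (prims (4 * e)).filter (fun r => r.1 ∣ 4 * e), f r ≤
      ∑ r ∈ prims (4 * Q), if r.1 ∣ 4 * e then f r else 0 := by
    intro e he
    rw [← Finset.sum_filter]
    apply Finset.sum_le_sum_of_subset_of_nonneg
    · intro r hr
      rw [Finset.mem_filter, mem_prims] at hr
      rw [Finset.mem_filter, mem_prims]
      have := (hA e he).2.1
      exact ⟨⟨hr.1.1, hr.1.2.1.trans (by omega), hr.1.2.2⟩, hr.2⟩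
    · intro r _ _
      exact hf r
  calc ∑ e ∈ osf Q, w e * ∑ r ∈ (prims (4 * e)).filter (fun r => r.1 ∣ 4 * e), f r
      ≤ ∑ e ∈ osf Q, w e * ∑ r ∈ prims (4 * Q), (if r.1 ∣ 4 * e then f r else 0) :=
        Finset.sum_le_sum fun e he => mul_le_mul_of_nonneg_left (hstep e he) (hw0 e)
    _ = ∑ r ∈ prims (4 * Q), ∑ e ∈ osf Q, w e * (if r.1 ∣ 4 * e then f r else 0) := by
        simp_rw [Finset.mul_sum]
        rw [Finset.sum_comm]
    _ ≤ ∑ r ∈ prims (4 * Q),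
          (2 * K2 * K1 ^ C * Real.log Q ^ C * (r.1 : ℝ) ^ (-(1 / 2 : ℝ))) * f r := by
        refine Finset.sum_le_sum fun r hr => ?_
        calc ∑ e ∈ osf Q, w e * (if r.1 ∣ 4 * e then f r else 0)
            = ∑ e ∈ osf Q, (if r.1 ∣ 4 * e then w e else 0) * f r := by
              refine Finset.sum_congr rfl fun e _ => ?_
              split_ifs <;> ring
          _ = (∑ e ∈ (osf Q).filter (fun e => r.1 ∣ 4 * e), w e) * f r := by
              rw [← Finset.sum_mul, ← Finset.sum_filter]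
          _ ≤ _ := mul_le_mul_of_nonneg_right (hT r hr) (hf r)
    _ = 2 * K2 * K1 ^ C * Real.log Q ^ C *
          ∑ r ∈ prims (4 * Q), (r.1 : ℝ) ^ (-(1 / 2 : ℝ)) * f r := by
        rw [Finset.mul_sum]
        refine Finset.sum_congr rfl fun r _ => ?_
        ring

end Pool.Agent.LibSW40
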