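import Pool.Agent.LibSW40.B1
import Pool.Agent.LibPL63.BV

/-!
Row C2 (MEDIUM). Mass of all primitive characters of conductor `≤ e^(x/24)`. Template: `weighted_family` (`LibPL63/B6.lean`).

PLAN. `m = 2K + 2`. (i) `r.1 ≤ x^m`: `‖SS r.2 x‖ ≤ exp(-x^(1/2))`: `LibPL63.small_char` (`LibPL63/B1.lean`; `c = 1`, `a = 1/3`, `b = 1/2`)
with the zeros from `zero_free_pow (m+1)`; at most `x^(2m)` characters. (ii) `x^m < r.1 ≤ exp(x^(1/3))`: `small_conductors`: same bound,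
at most `exp(2 x^(1/3))` characters, except one `r₀`, for which `r₀.1^(-1/2) ‖SS r₀.2 x‖ ≤ x^(-m/2) · 2` (trivial bound `‖SS‖ ≤ S0 x ≤ 2`).
(iii) `r.1 > exp(x^(1/3))`: `exp(-x^(1/3)/2) ∑ ‖SS‖ ≤ exp(-x^(1/3)/2) x^K2` (`largeFamily`).
-/

set_option autoImplicit false

namespace Pool.Agent.LibSW40

open Finset Filter Pool.Agent.LibPL63 Pool.Agent.LibMaier

/-- the trivial bound -/
private theorem c2_SS_le {q : ℕ} (χ : DirichletCharacter ℂ q) (x : ℝ) : ‖SS χ x‖ ≤ S0 x := by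
  unfold SS S0
  refine tsum_of_norm_bounded (summable_wn x).hasSum fun n => ?_
  have hw : 0 ≤ gw (Real.log n - x) / n := div_nonneg (gw_nonneg _) (Nat.cast_nonneg _)
  rw [norm_mul, norm_mul, Complex.norm_real, Complex.norm_real, Real.norm_eq_abs,
    Real.norm_eq_abs, abs_of_nonneg ArithmeticFunction.vonMangoldt_nonneg, abs_of_nonneg hw]
  unfold wn
  apply mul_le_mul_of_nonneg_right _ hw
  exact mul_le_of_le_one_right ArithmeticFunction.vonMangoldt_nonneg (χ.norm_le_one _)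

theorem prim_mass (K : ℕ) : ∀ᶠ x : ℝ in atTop, ∀ Q : ℕ, (Q : ℝ) ≤ Real.exp (x / 24) →
    ∑ r ∈ prims Q, (r.1 : ℝ) ^ (-(1 / 2 : ℝ)) * ‖SS r.2 x‖ ≤ (x ^ K)⁻¹ := by
  classical
  obtain ⟨K2, x0, hLF⟩ := largeFamily
  set m : ℕ := 2 * K + 2 with hm
  set N : ℕ := 2 * m + K + K2 with hN
  have hS2 : ∀ᶠ x : ℝ in atTop, S0 x ≤ 2 :=
    (tendsto_S0.eventually (gt_mem_nhds (show (1 : ℝ) < 2 by norm_num))).mono fun x hx => le_of_lt hx
  filter_upwards [zero_free_pow m, small_char (c := 1) (a := 1 / 3) (b := 1 / 2) (by norm_num) (by norm_num)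
    (by norm_num) (by norm_num), small_conductors, eventually_growth3 4 N, hS2,
    eventually_ge_atTop x0] with x hzf hsc hcon hg hS0 hx0
  obtain ⟨hx1, g1, g2, g3, g4⟩ := hg
  obtain ⟨r₀, hr₀⟩ := hcon
  intro Q hQ
  have hxpos : 0 < x := by linarith
  have hxone : 1 ≤ x := by linarith
  set y : ℝ := x ^ (1 / 4 : ℝ) with hy
  set z : ℝ := x ^ (1 / 3 : ℝ) with hz
  set w : ℝ := x ^ (1 / 2 : ℝ) with hw
  have hy0 : 0 ≤ y := by positivity
  have hz0 : 0 ≤ z := by positivity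
  have hw0 : 0 ≤ w := by positivity
  set E := Real.exp z with hE
  have hE0 : 0 < E := Real.exp_pos _
  have hxK : 0 < x ^ K := by positivity
  have hpow : ∀ j : ℕ, j ≤ N → x ^ j ≤ x ^ N := fun j hj => pow_le_pow_right₀ hxone hj
  have hxmE : x ^ m ≤ E := by
    have h1 := hpow m (by omega)
    have h2 : (0 : ℝ) ≤ x ^ N := by positivity
    calc x ^ m ≤ 4 * x ^ N := by linarith
      _ ≤ Real.exp y := g1
      _ ≤ E := Real.exp_le_exp.2 (by linarith)
  -- a general comparison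
  have hcmp : ∀ (j : ℕ) (s : ℝ), j + K ≤ N → y + s ≤ 0 → x ^ j * Real.exp s ≤ (x ^ K)⁻¹ / 4 := by
    intro j s hj hs
    rw [inv_eq_one_div, div_div, le_div_iff₀ (by positivity)]
    have h1 := hpow (j + K) hj
    calc x ^ j * Real.exp s * (x ^ K * 4) = 4 * x ^ (j + K) * Real.exp s := by rw [pow_add]; ring
      _ ≤ 4 * x ^ N * Real.exp s := by gcongr
      _ ≤ Real.exp y * Real.exp s := mul_le_mul_of_nonneg_right g1 (Real.exp_pos _).le
      _ = Real.exp (y + s) := by rw [Real.exp_add]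
      _ ≤ 1 := Real.exp_le_one_iff.2 hs
  -- split the sum
  set S := prims Q with hS
  set f : PC → ℝ := fun r => (r.1 : ℝ) ^ (-(1 / 2 : ℝ)) * ‖SS r.2 x‖ with hf
  have hwt1 : ∀ r ∈ S, (r.1 : ℝ) ^ (-(1 / 2 : ℝ)) ≤ 1 := by
    intro r hr
    rw [hS, mem_prims] at hr
    have h10 : (1 : ℝ) ≤ r.1 := by exact_mod_cast (by omega : 1 ≤ r.1)
    exact Real.rpow_le_one_of_one_le_of_nonpos h10 (by norm_num)
  have hcard : ∀ B : ℝ, 0 ≤ B → ((S.filter (fun r => (r.1 : ℝ) ≤ B)).card : ℝ) ≤ B ^ 2 := by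
    intro B hB
    have h3 : S.filter (fun r => (r.1 : ℝ) ≤ B) ⊆ prims ⌊B⌋₊ := by
      intro r hr
      rw [Finset.mem_filter, hS, mem_prims] at hr
      rw [mem_prims]
      exact ⟨hr.1.1, Nat.le_floor hr.2, hr.1.2.2⟩
    calc ((S.filter (fun r => (r.1 : ℝ) ≤ B)).card : ℝ) ≤ ((prims ⌊B⌋₊).card : ℝ) := by
          exact_mod_cast Finset.card_le_card h3
      _ ≤ ((⌊B⌋₊ ^ 2 : ℕ) : ℝ) := by exact_mod_cast card_prims _
      _ ≤ B ^ 2 := by
          push_cast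
          exact pow_le_pow_left₀ (Nat.cast_nonneg _) (Nat.floor_le hB) 2
  -- very small conductors
  have hA : ∑ r ∈ S.filter (fun r => (r.1 : ℝ) ≤ x ^ m), f r ≤ (x ^ K)⁻¹ / 4 := by
    have h1 : ∀ r ∈ S.filter (fun r => (r.1 : ℝ) ≤ x ^ m), f r ≤ Real.exp (-w) := by
      intro r hr
      rw [Finset.mem_filter] at hr
      have h2 := hr.1
      rw [hS, mem_prims] at h2
      obtain ⟨h3, h4, h5⟩ := h2
      have hne : NeZero r.1 := ⟨by omega⟩
      have h6 : ‖SS r.2 x‖ ≤ Real.exp (-w) := by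
        refine hsc r.1 (hr.2.trans hxmE) r.2 (primitive_ne_one h3 h5) fun ρ hρ him => ?_
        have h7 := hzf r.1 hr.2 r.2 (primitive_ne_one h3 h5) ρ hρ
          (him.trans (le_self_pow₀ hxone (by omega)))
        rwa [Real.rpow_neg hxpos.le, ← one_div] at h7
      calc f r ≤ 1 * Real.exp (-w) :=
            mul_le_mul (hwt1 r hr.1) h6 (norm_nonneg _) zero_le_one
        _ = Real.exp (-w) := one_mul _
    calc ∑ r ∈ S.filter (fun r => (r.1 : ℝ) ≤ x ^ m), f r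
        ≤ ∑ r ∈ S.filter (fun r => (r.1 : ℝ) ≤ x ^ m), Real.exp (-w) := Finset.sum_le_sum h1
      _ = ((S.filter (fun r => (r.1 : ℝ) ≤ x ^ m)).card : ℝ) * Real.exp (-w) := by
          rw [Finset.sum_const, nsmul_eq_mul]
      _ ≤ (x ^ m) ^ 2 * Real.exp (-w) :=
          mul_le_mul_of_nonneg_right (hcard _ (by positivity)) (Real.exp_pos _).le
      _ = x ^ (m * 2) * Real.exp (-w) := by rw [← pow_mul]
      _ ≤ (x ^ K)⁻¹ / 4 := hcmp _ _ (by omega) (by linarith)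
  -- small conductors
  have hB : ∑ r ∈ S.filter (fun r => ¬ (r.1 : ℝ) ≤ x ^ m ∧ (r.1 : ℝ) ≤ E), f r ≤
      (x ^ K)⁻¹ / 4 + (x ^ K)⁻¹ / 4 := by
    have h1 : ∀ r ∈ S.filter (fun r => ¬ (r.1 : ℝ) ≤ x ^ m ∧ (r.1 : ℝ) ≤ E),
        f r ≤ Real.exp (-w) + (if r = r₀ then (x ^ K)⁻¹ / 4 else 0) := by
      intro r hr
      rw [Finset.mem_filter] at hr
      have h2 := hr.1
      rw [hS, mem_prims] at h2
      obtain ⟨h3, h4, h5⟩ := h2
      obtain ⟨h6, h7⟩ := hr.2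
      push Not at h6
      by_cases hrr : r = r₀
      · rw [if_pos hrr]
        have h8 : (r.1 : ℝ) ^ (-(1 / 2 : ℝ)) ≤ (x ^ (K + 1))⁻¹ := by
          calc (r.1 : ℝ) ^ (-(1 / 2 : ℝ)) ≤ (x ^ m) ^ (-(1 / 2 : ℝ)) :=
                Real.rpow_le_rpow_of_nonpos (by positivity) h6.le (by norm_num)
            _ = (x ^ (K + 1))⁻¹ := by
                rw [← Real.rpow_natCast x m, ← Real.rpow_mul hxpos.le, ← Real.rpow_natCast x (K + 1),
                  ← Real.rpow_neg hxpos.le]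
                congr 1
                rw [hm]
                push_cast
                ring
        have h9 : ‖SS r.2 x‖ ≤ 2 := (c2_SS_le r.2 x).trans hS0
        have h10 : (x ^ (K + 1))⁻¹ * 2 ≤ (x ^ K)⁻¹ / 4 := by
          rw [pow_succ, mul_inv, mul_assoc, div_eq_mul_inv]
          apply mul_le_mul_of_nonneg_left _ (by positivity)
          rw [inv_mul_le_iff₀ hxpos]
          linarith
        have h11 : f r ≤ (x ^ (K + 1))⁻¹ * 2 := mul_le_mul h8 h9 (norm_nonneg _) (by positivity)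
        have := (Real.exp_pos (-w)).le
        linarith
      · rw [if_neg hrr, add_zero]
        calc f r ≤ 1 * Real.exp (-w) :=
              mul_le_mul (hwt1 r hr.1) (hr₀ r h3 h5 h7 hrr) (norm_nonneg _) zero_le_one
          _ = Real.exp (-w) := one_mul _
    refine (Finset.sum_le_sum h1).trans ?_
    rw [Finset.sum_add_distrib]
    apply add_le_add
    · rw [Finset.sum_const, nsmul_eq_mul]
      have h2 : ((S.filter (fun r => ¬ (r.1 : ℝ) ≤ x ^ m ∧ (r.1 : ℝ) ≤ E)).card : ℝ) ≤ E ^ 2 := by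
        refine le_trans ?_ (hcard E hE0.le)
        have : S.filter (fun r => ¬ (r.1 : ℝ) ≤ x ^ m ∧ (r.1 : ℝ) ≤ E) ⊆ S.filter (fun r => (r.1 : ℝ) ≤ E) := by
          intro r hr
          rw [Finset.mem_filter] at hr ⊢
          exact ⟨hr.1, hr.2.2⟩
        exact_mod_cast Finset.card_le_card this
      calc _ ≤ E ^ 2 * Real.exp (-w) := mul_le_mul_of_nonneg_right h2 (Real.exp_pos _).le
        _ = x ^ 0 * Real.exp (2 * z - w) := by
            rw [hE, ← Real.exp_nat_mul, ← Real.exp_add, pow_zero, one_mul]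
            push_cast
            ring_nf
        _ ≤ (x ^ K)⁻¹ / 4 := hcmp 0 _ (by omega) (by linarith)
    · rw [Finset.sum_ite_eq']
      split_ifs
      · exact le_refl _
      · positivity
  -- large conductors
  have hC : ∑ r ∈ S.filter (fun r => ¬ (r.1 : ℝ) ≤ E), f r ≤ (x ^ K)⁻¹ / 4 := by
    have h1 : ∀ r ∈ S.filter (fun r => ¬ (r.1 : ℝ) ≤ E), f r ≤ Real.exp (-(z / 2)) * ‖SS r.2 x‖ := by
      intro r hr
      rw [Finset.mem_filter] at hr
      have h7 := hr.2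
      push Not at h7
      apply mul_le_mul_of_nonneg_right _ (norm_nonneg _)
      calc (r.1 : ℝ) ^ (-(1 / 2 : ℝ)) ≤ E ^ (-(1 / 2 : ℝ)) :=
            Real.rpow_le_rpow_of_nonpos hE0 h7.le (by norm_num)
        _ = Real.exp (-(z / 2)) := by
            rw [hE, ← Real.exp_mul]
            congr 1
            ring
    calc ∑ r ∈ S.filter (fun r => ¬ (r.1 : ℝ) ≤ E), f r
        ≤ ∑ r ∈ S.filter (fun r => ¬ (r.1 : ℝ) ≤ E), Real.exp (-(z / 2)) * ‖SS r.2 x‖ :=
          Finset.sum_le_sum h1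
      _ = Real.exp (-(z / 2)) * ∑ r ∈ S.filter (fun r => ¬ (r.1 : ℝ) ≤ E), ‖SS r.2 x‖ := by
          rw [Finset.mul_sum]
      _ ≤ Real.exp (-(z / 2)) * x ^ K2 := by
          apply mul_le_mul_of_nonneg_left _ (Real.exp_pos _).le
          apply hLF x hx0 Q hQ
          intro r hr
          rw [Finset.mem_filter, hS, mem_prims] at hr
          exact hr.1
      _ = x ^ K2 * Real.exp (-(z / 2)) := mul_comm _ _
      _ ≤ (x ^ K)⁻¹ / 4 := hcmp K2 _ (by omega) (by linarith)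
  have hsplit : ∑ r ∈ S, f r = ∑ r ∈ S.filter (fun r => (r.1 : ℝ) ≤ x ^ m), f r +
      (∑ r ∈ S.filter (fun r => ¬ (r.1 : ℝ) ≤ x ^ m ∧ (r.1 : ℝ) ≤ E), f r +
        ∑ r ∈ S.filter (fun r => ¬ (r.1 : ℝ) ≤ E), f r) := by
    rw [← Finset.sum_filter_add_sum_filter_not S (fun r => (r.1 : ℝ) ≤ x ^ m)]
    congr 1
    rw [← Finset.sum_filter_add_sum_filter_not (S.filter (fun r => ¬ (r.1 : ℝ) ≤ x ^ m)) (fun r => (r.1 : ℝ) ≤ E),
      Finset.filter_filter, Finset.filter_filter]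
    congr 1
    apply Finset.sum_congr _ fun _ _ => rfl
    apply Finset.filter_congr
    intro r _
    constructor
    · exact fun h => h.2
    · exact fun h => ⟨fun h2 => h (h2.trans hxmE), h⟩
  rw [hsplit]
  linarith

end Pool.Agent.LibSW40
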