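import Pool.Agent.LibSW40.C1
import Pool.Agent.LibSW40.C2

/-!
Row C3 (MEDIUM). **Bombieri-Vinogradov** for the moduli `4 e`. Template: `BV_main` (`LibPL63/B7.lean`).

PLAN. `erB x (4e) = (1/φ(4e)) (4 ω(4e) e^(-x/4) + csum x (4e)) + (4 ω(4e) + Kpp) e^(-x/4)`; `csum_le`; main part by `reorganize4` and
`prim_mass (K + C + 1)` (`4 ⌊e^(x/25)⌋ ≤ e^(x/24)` for large `x`); everything else carries `e^(-x/4)` and is `≤ Q^4 e^(-x/4)` times constants.
May assume `C ≥ 1` (monotone).
-/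

set_option autoImplicit false

namespace Pool.Agent.LibSW40

open Finset Filter Pool.Agent.LibPL63

/-- growth -/
private theorem c3_growth (K0 A : ℝ) (hA : 0 ≤ A) (K : ℕ) : ∀ᶠ x : ℝ in atTop, 1800 ≤ x ∧ K0 / x ≤ 1 / 2 ∧
    A * Real.exp (-(9 * x / 100)) ≤ 1 / 2 * (x ^ K)⁻¹ := by
  have h1 := (Real.isLittleO_pow_exp_atTop (n := K)).bound
    (c := 1 / (2 * (A + 1) * (12 : ℝ) ^ K)) (by positivity)
  have h2 : Tendsto (fun x : ℝ => 9 * x / 100) atTop atTop := by
    apply Filter.Tendsto.atTop_div_const (by norm_num)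
    exact tendsto_id.const_mul_atTop (by norm_num)
  have h3 := h2.eventually h1
  filter_upwards [h3, eventually_ge_atTop (1800 : ℝ), eventually_ge_atTop (2 * K0)] with x h3 hx hK
  have hx0 : 0 < x := by linarith
  refine ⟨hx, ?_, ?_⟩
  · rw [div_le_iff₀ hx0]
    linarith
  · rw [Real.norm_of_nonneg (by positivity), Real.norm_of_nonneg (Real.exp_pos _).le] at h3
    have h4 : x ^ K ≤ (12 : ℝ) ^ K * (9 * x / 100) ^ K := by
      rw [← mul_pow]
      exact pow_le_pow_left₀ hx0.le (by linarith) K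
    have h5 : 0 < (12 : ℝ) ^ K := by positivity
    have h6 : (12 : ℝ) ^ K * (9 * x / 100) ^ K ≤ 1 / (2 * (A + 1)) * Real.exp (9 * x / 100) := by
      calc (12 : ℝ) ^ K * (9 * x / 100) ^ K ≤
          (12 : ℝ) ^ K * (1 / (2 * (A + 1) * (12 : ℝ) ^ K) * Real.exp (9 * x / 100)) :=
            mul_le_mul_of_nonneg_left h3 h5.le
        _ = _ := by
            have : A + 1 ≠ 0 := by positivity
            field_simp
    have h7 := h4.trans h6
    have hE : 0 < Real.exp (9 * x / 100) := Real.exp_pos _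
    have hxK : 0 < x ^ K := by positivity
    rw [Real.exp_neg, ← div_eq_mul_inv, ← div_eq_mul_inv, div_le_div_iff₀ hE hxK]
    have h8 : A * (1 / (2 * (A + 1)) * Real.exp (9 * x / 100)) ≤ 1 / 2 * Real.exp (9 * x / 100) := by
      have h9 : A * (1 / (2 * (A + 1))) ≤ 1 / 2 := by
        rw [mul_one_div, div_le_div_iff₀ (by positivity) (by norm_num)]
        linarith
      calc A * (1 / (2 * (A + 1)) * Real.exp (9 * x / 100)) =
          A * (1 / (2 * (A + 1))) * Real.exp (9 * x / 100) := by ring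
        _ ≤ _ := mul_le_mul_of_nonneg_right h9 hE.le
    exact (mul_le_mul_of_nonneg_left h7 hA).trans h8

theorem bv4 (C K : ℕ) : ∀ᶠ x : ℝ in atTop,
    ∑ e ∈ osf ⌊Real.exp (x / 25)⌋₊, (C : ℝ) ^ e.primeFactors.card * erB x (4 * e) ≤ (x ^ K)⁻¹ := by
  classical
  obtain ⟨C', hC'1, hCC'⟩ : ∃ C' : ℕ, 1 ≤ C' ∧ C ≤ C' := ⟨max C 1, le_max_right _ _, le_max_left _ _⟩
  obtain ⟨K0, hK00, hreo⟩ := reorganize4 C' hC'1
  obtain ⟨K1, hK10, hK1⟩ := pow_omega_le' C' hC'1
  have hKpp := Kpp_nonneg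
  filter_upwards [prim_mass (K + C' + 1),
    c3_growth K0 (256 * K1 + K1 * (32 + Kpp)) (by positivity) K] with x hf hg
  obtain ⟨hx1, g1, g2⟩ := hg
  have hx0 : 0 < x := by linarith
  set Q := ⌊Real.exp (x / 25)⌋₊ with hQdef
  have hQle : (Q : ℝ) ≤ Real.exp (x / 25) := Nat.floor_le (Real.exp_pos _).le
  have hQ2 : 2 ≤ Q := by
    apply Nat.le_floor
    have := Real.add_one_le_exp (x / 25)
    push_cast
    linarith
  have hQR : (2 : ℝ) ≤ Q := by exact_mod_cast hQ2
  have h4Q : ((4 * Q : ℕ) : ℝ) ≤ Real.exp (x / 24) := by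
    have h1 : (4 : ℝ) ≤ Real.exp (x / 600) := by
      have := Real.add_one_le_exp (x / 600)
      linarith
    calc ((4 * Q : ℕ) : ℝ) = 4 * (Q : ℝ) := by push_cast; ring
      _ ≤ Real.exp (x / 600) * Real.exp (x / 25) := by gcongr
      _ = Real.exp (x / 24) := by
          rw [← Real.exp_add]
          congr 1
          ring
  set T := osf Q with hT
  set ε := Real.exp (-x / 4) with hε
  have hε0 : 0 < ε := Real.exp_pos _
  set w : ℕ → ℝ := fun e => (C' : ℝ) ^ e.primeFactors.card / ((4 * e).totient : ℝ) with hw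
  have hw0 : ∀ d, 0 ≤ w d := fun d => by positivity
  have hmem : ∀ e ∈ T, 1 ≤ e ∧ e ≤ Q ∧ Squarefree e := by
    intro e he
    rw [hT, osf, Finset.mem_filter, Finset.mem_Icc] at he
    exact ⟨he.1.1, he.1.2, he.2.1⟩
  have hTcard : (T.card : ℝ) ≤ Q := by
    have h1 : T.card ≤ (Icc 1 Q).card := Finset.card_le_card (Finset.filter_subset _ _)
    rw [Nat.card_Icc] at h1
    have h2 : T.card ≤ Q := by omega
    exact_mod_cast h2
  have hw1 : ∀ e ∈ T, w e ≤ K1 := by
    intro e he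
    obtain ⟨h1, h2, h3⟩ := hmem e he
    refine le_trans ?_ (hK1 e h3).1
    have h4 : (0 : ℝ) < e.totient := by exact_mod_cast Nat.totient_pos.2 h1
    have h5 : (e.totient : ℝ) ≤ ((4 * e).totient : ℝ) := by
      have h6 := Nat.le_of_dvd (Nat.totient_pos.2 (by omega))
        (Nat.totient_dvd_of_dvd (Nat.dvd_mul_left e 4))
      exact_mod_cast h6
    exact div_le_div_of_nonneg_left (by positivity) h4 h5
  -- the main part
  have hlogQ : Real.log Q ≤ x := by
    have h1 : Real.log Q ≤ x / 25 := by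
      rw [Real.log_le_iff_le_exp (by linarith)]
      exact hQle
    linarith
  have hlogQ0 : 0 ≤ Real.log Q := Real.log_nonneg (by linarith)
  have hmain : ∑ e ∈ T, w e * ∑ r ∈ (prims (4 * e)).filter (fun r => r.1 ∣ 4 * e), ‖Pool.Agent.LibMaier.SS r.2 x‖ ≤
      1 / 2 * (x ^ K)⁻¹ := by
    refine (hreo Q hQ2 (fun r => ‖Pool.Agent.LibMaier.SS r.2 x‖) fun r => norm_nonneg _).trans ?_
    have h1 : Real.log Q ^ C' ≤ x ^ C' := pow_le_pow_left₀ hlogQ0 hlogQ C'
    have h2 : K0 * Real.log Q ^ C' ≤ K0 * x ^ C' := mul_le_mul_of_nonneg_left h1 hK00.le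
    have h3 := mul_le_mul h2 (hf (4 * Q) h4Q) (Finset.sum_nonneg fun r _ => by positivity)
      (by positivity)
    refine h3.trans ?_
    have h4 : K0 * x ^ C' * (x ^ (K + C' + 1))⁻¹ = K0 / x * (x ^ K)⁻¹ := by
      have : x ≠ 0 := hx0.ne'
      rw [pow_add, pow_add, pow_one]
      field_simp
    rw [h4]
    exact mul_le_mul_of_nonneg_right g1 (by positivity)
  -- `Q` powers against `ε`
  have hQ4 : (Q : ℝ) ^ 4 * ε ≤ Real.exp (-(9 * x / 100)) := by
    calc (Q : ℝ) ^ 4 * ε ≤ (Real.exp (x / 25)) ^ 4 * ε := by gcongr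
      _ = Real.exp (-(9 * x / 100)) := by
          rw [hε, ← Real.exp_nat_mul, ← Real.exp_add]
          congr 1
          push_cast
          ring
  have hom : ∀ e ∈ T, ((4 * e).primeFactors.card : ℝ) ≤ 4 * Q := by
    intro e he
    have h1 := card_pf_le (4 * e)
    have h2 : (e : ℝ) ≤ Q := by exact_mod_cast (hmem e he).2.1
    push_cast at h1
    linarith
  have hsecond : ∑ e ∈ T, w e * ∑ r ∈ (prims (4 * e)).filter (fun r => r.1 ∣ 4 * e),
      (4 * ((4 * e).primeFactors.card : ℝ) * ε) ≤ 256 * K1 * Real.exp (-(9 * x / 100)) := by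
    have h1 : ∀ e ∈ T, w e * ∑ r ∈ (prims (4 * e)).filter (fun r => r.1 ∣ 4 * e),
        (4 * ((4 * e).primeFactors.card : ℝ) * ε) ≤ 256 * K1 * (Q : ℝ) ^ 3 * ε := by
      intro e he
      have heQ : (e : ℝ) ≤ Q := by exact_mod_cast (hmem e he).2.1
      rw [Finset.sum_const, nsmul_eq_mul]
      have h2 : (((prims (4 * e)).filter (fun r => r.1 ∣ 4 * e)).card : ℝ) ≤ 16 * (Q : ℝ) ^ 2 := by
        have h3 := (Finset.card_filter_le (prims (4 * e)) (fun r => r.1 ∣ 4 * e)).trans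
          (card_prims (4 * e))
        have h4 : (((prims (4 * e)).filter (fun r => r.1 ∣ 4 * e)).card : ℝ) ≤
            (((4 * e) ^ 2 : ℕ) : ℝ) := by exact_mod_cast h3
        push_cast at h4
        refine h4.trans ?_
        rw [mul_pow]
        have h5 := pow_le_pow_left₀ (Nat.cast_nonneg _) heQ 2
        linarith
      have h5 : 4 * ((4 * e).primeFactors.card : ℝ) * ε ≤ 16 * Q * ε := by
        have := hom e he
        exact mul_le_mul_of_nonneg_right (by linarith) hε0.le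
      calc w e * ((((prims (4 * e)).filter (fun r => r.1 ∣ 4 * e)).card : ℝ) *
            (4 * ((4 * e).primeFactors.card : ℝ) * ε))
          ≤ K1 * ((16 * (Q : ℝ) ^ 2) * (16 * Q * ε)) := by
            apply mul_le_mul (hw1 e he) _ (by positivity) hK10.le
            exact mul_le_mul h2 h5 (by positivity) (by positivity)
        _ = _ := by ring
    calc _ ≤ ∑ e ∈ T, 256 * K1 * (Q : ℝ) ^ 3 * ε := Finset.sum_le_sum h1
      _ = (T.card : ℝ) * (256 * K1 * (Q : ℝ) ^ 3 * ε) := by rw [Finset.sum_const, nsmul_eq_mul]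
      _ ≤ Q * (256 * K1 * (Q : ℝ) ^ 3 * ε) := mul_le_mul_of_nonneg_right hTcard (by positivity)
      _ = 256 * K1 * ((Q : ℝ) ^ 4 * ε) := by ring
      _ ≤ _ := mul_le_mul_of_nonneg_left hQ4 (by positivity)
  have hthird : ∑ e ∈ T, (C' : ℝ) ^ e.primeFactors.card *
      ((1 / ((4 * e).totient : ℝ)) * (4 * (4 * e).primeFactors.card * ε) +
      (4 * (4 * e).primeFactors.card + Kpp) * ε) ≤ K1 * (32 + Kpp) * Real.exp (-(9 * x / 100)) := by
    have h1 : ∀ e ∈ T, (C' : ℝ) ^ e.primeFactors.card *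
        ((1 / ((4 * e).totient : ℝ)) * (4 * (4 * e).primeFactors.card * ε) +
        (4 * (4 * e).primeFactors.card + Kpp) * ε) ≤ K1 * (32 + Kpp) * (Q : ℝ) ^ 3 * ε := by
      intro e he
      obtain ⟨he1, he2, he3⟩ := hmem e he
      have heQ : (e : ℝ) ≤ Q := by exact_mod_cast he2
      have hpf := hom e he
      have hφ : (1 : ℝ) ≤ (4 * e).totient := by exact_mod_cast Nat.totient_pos.2 (by omega)
      have h2 : 1 / ((4 * e).totient : ℝ) ≤ 1 := by
        rw [div_le_one (by linarith)]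
        exact hφ
      have h3 : (1 / ((4 * e).totient : ℝ)) * (4 * (4 * e).primeFactors.card * ε) ≤ 16 * Q * ε := by
        calc (1 / ((4 * e).totient : ℝ)) * (4 * (4 * e).primeFactors.card * ε) ≤
            1 * (4 * (4 * Q) * ε) := by gcongr
          _ = 16 * Q * ε := by ring
      have h4 : (4 * ((4 * e).primeFactors.card : ℝ) + Kpp) * ε ≤ (16 * Q + Kpp * Q) * ε := by
        apply mul_le_mul_of_nonneg_right _ hε0.le
        nlinarith
      have h5 : (C' : ℝ) ^ e.primeFactors.card ≤ K1 * Q := by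
        refine (hK1 e he3).2.trans ?_
        gcongr
      calc _ ≤ (K1 * Q) * (16 * Q * ε + (16 * Q + Kpp * Q) * ε) := by
            apply mul_le_mul h5 (add_le_add h3 h4) (by positivity) (by positivity)
        _ = K1 * (32 + Kpp) * (Q : ℝ) ^ 2 * ε := by ring
        _ ≤ K1 * (32 + Kpp) * (Q : ℝ) ^ 3 * ε := by
            have : (Q : ℝ) ^ 2 ≤ (Q : ℝ) ^ 3 := pow_le_pow_right₀ (by linarith) (by norm_num)
            gcongr
    calc _ ≤ ∑ e ∈ T, K1 * (32 + Kpp) * (Q : ℝ) ^ 3 * ε := Finset.sum_le_sum h1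
      _ = (T.card : ℝ) * (K1 * (32 + Kpp) * (Q : ℝ) ^ 3 * ε) := by
          rw [Finset.sum_const, nsmul_eq_mul]
      _ ≤ Q * (K1 * (32 + Kpp) * (Q : ℝ) ^ 3 * ε) :=
          mul_le_mul_of_nonneg_right hTcard (by positivity)
      _ = K1 * (32 + Kpp) * ((Q : ℝ) ^ 4 * ε) := by ring
      _ ≤ _ := mul_le_mul_of_nonneg_left hQ4 (by positivity)
  -- combine
  have hsplit : ∀ e ∈ T, (C : ℝ) ^ e.primeFactors.card * erB x (4 * e) ≤
      w e * ∑ r ∈ (prims (4 * e)).filter (fun r => r.1 ∣ 4 * e), ‖Pool.Agent.LibMaier.SS r.2 x‖ +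
      w e * ∑ r ∈ (prims (4 * e)).filter (fun r => r.1 ∣ 4 * e),
        (4 * ((4 * e).primeFactors.card : ℝ) * ε) +
      (C' : ℝ) ^ e.primeFactors.card *
        ((1 / ((4 * e).totient : ℝ)) * (4 * (4 * e).primeFactors.card * ε) +
        (4 * (4 * e).primeFactors.card + Kpp) * ε) := by
    intro e he
    have he1 := (hmem e he).1
    have h0 : (C : ℝ) ^ e.primeFactors.card * erB x (4 * e) ≤
        (C' : ℝ) ^ e.primeFactors.card * erB x (4 * e) := by
      apply mul_le_mul_of_nonneg_right _ (erB_nonneg x _)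
      apply pow_le_pow_left₀ (Nat.cast_nonneg _)
      exact_mod_cast hCC'
    refine h0.trans ?_
    have h1 := csum_le x (q := 4 * e) (by omega)
    rw [Finset.sum_add_distrib] at h1
    have h2 := mul_le_mul_of_nonneg_left h1 (hw0 e)
    have h3 : (C' : ℝ) ^ e.primeFactors.card * erB x (4 * e) = w e * csum x (4 * e) +
        (C' : ℝ) ^ e.primeFactors.card *
          ((1 / ((4 * e).totient : ℝ)) * (4 * (4 * e).primeFactors.card * ε) +
          (4 * (4 * e).primeFactors.card + Kpp) * ε) := by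
      unfold erB
      simp only [hw]
      ring
    rw [h3]
    linarith
  calc ∑ e ∈ T, (C : ℝ) ^ e.primeFactors.card * erB x (4 * e)
      ≤ 1 / 2 * (x ^ K)⁻¹ + 256 * K1 * Real.exp (-(9 * x / 100)) +
        K1 * (32 + Kpp) * Real.exp (-(9 * x / 100)) := by
        refine (Finset.sum_le_sum hsplit).trans ?_
        rw [Finset.sum_add_distrib, Finset.sum_add_distrib]
        exact add_le_add (add_le_add hmain hsecond) hthird
    _ = 1 / 2 * (x ^ K)⁻¹ + (256 * K1 + K1 * (32 + Kpp)) * Real.exp (-(9 * x / 100)) := by ring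
    _ ≤ (x ^ K)⁻¹ := by linarith

end Pool.Agent.LibSW40
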