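import Mathlib
import Pool.Agent.LibMaier.Mertens

/-!
Row D0 (ONLY MATHLIB + any Mertens lemma of the pool, MEDIUM). Two products over the primes `≤ w`.

PLAN. `∏_{3≤p≤w} (1 - 1/(p-1)) = ∏ (1 - 1/p) · ∏ (1 - 1/(p-1)²)`, the second product `≥ ∏_{m ≥ 2}(1 - 1/m²) ≥ 1/2`; and
`∏_{p≤w} (1 - 1/p)⁻¹ ≤ C log w` (upper Mertens: e.g. `LibMaier/Mertens.lean`, `LibPL63/V2.lean` (`mert_lower`, `V1p_ge`), or directly from
`∑_{p ≤ w} 1/p ≤ log log w + C`); lower bound: `∏_{p≤w} (1 - 1/p)⁻¹ ≥ ∑_{n≤w} 1/n ≥ log w`.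
-/

set_option autoImplicit false

namespace Pool.Agent.LibSW40

open Finset

/-- odd primes up to `w` -/
def PrO (w : ℕ) : Finset ℕ := (Icc 3 w).filter Nat.Prime

/-- all primes up to `w` -/
def PrA (w : ℕ) : Finset ℕ := (Icc 1 w).filter Nat.Prime

/-- `∏_{p ≤ w} p/(p-1)` -/
noncomputable def Ww (w : ℕ) : ℝ := ∏ p ∈ PrA w, (p : ℝ) / ((p : ℝ) - 1)

private theorem d0_mertens : ∃ c : ℝ, 0 < c ∧ ∀ w : ℕ, 2 ≤ w →
    c / Real.log w ≤ ∏ p ∈ (Finset.range (w + 1)).filter Nat.Prime, (1 - 1 / (p : ℝ)) := by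
  have h := Pool.Agent.LibMaier.mertens_third
  have hpos := Real.exp_pos (-Real.eulerMascheroniConstant)
  have h1 := (tendsto_order.1 h).1 (Real.exp (-Real.eulerMascheroniConstant) / 2) (by linarith)
  obtain ⟨N, hN⟩ := Filter.eventually_atTop.1 h1
  set V : ℕ → ℝ := fun w => ∏ p ∈ (Finset.range (w + 1)).filter Nat.Prime, (1 - 1 / (p : ℝ))
    with hV
  have hfac : ∀ p : ℕ, p.Prime → 0 < 1 - 1 / (p : ℝ) ∧ 1 - 1 / (p : ℝ) ≤ 1 := by
    intro p hp
    have hp1 : (1 : ℝ) < p := by exact_mod_cast hp.one_lt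
    have h2 : 1 / (p : ℝ) < 1 := by rw [div_lt_one (by linarith)]; exact hp1
    have h3 : 0 < 1 / (p : ℝ) := by positivity
    constructor <;> linarith
  have hVpos : ∀ w, 0 < V w := fun w => Finset.prod_pos fun p hp =>
    (hfac p (Finset.mem_filter.1 hp).2).1
  have hmono : ∀ a b : ℕ, a ≤ b → V b ≤ V a := by
    intro a b hab
    apply Finset.prod_le_prod_of_subset_of_le_one
    · apply Finset.filter_subset_filter
      intro x hx
      rw [Finset.mem_range] at hx ⊢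
      omega
    · intro p hp
      exact (hfac p (Finset.mem_filter.1 hp).2).1.le
    · intro p hp _
      exact (hfac p (Finset.mem_filter.1 hp).2).2
  set M := max N 2 with hM
  have hl2 : 0 < Real.log 2 := Real.log_pos (by norm_num)
  refine ⟨min (Real.exp (-Real.eulerMascheroniConstant) / 2) (V M * Real.log 2),
    lt_min (by linarith) (mul_pos (hVpos M) hl2), fun w hw => ?_⟩
  have hw2 : (2 : ℝ) ≤ w := by exact_mod_cast hw
  have hlw : Real.log 2 ≤ Real.log w := Real.log_le_log (by norm_num) hw2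
  have hlw0 : 0 < Real.log w := lt_of_lt_of_le hl2 hlw
  rw [div_le_iff₀ hlw0]
  rcases le_or_gt M w with h3 | h3
  · refine (min_le_left _ _).trans ?_
    exact (hN w ((le_max_left _ _).trans h3)).le
  · refine (min_le_right _ _).trans ?_
    have h4 := hmono w M h3.le
    have h5 := hVpos w
    calc V M * Real.log 2 ≤ V w * Real.log 2 := mul_le_mul_of_nonneg_right h4 hl2.le
      _ ≤ V w * Real.log w := mul_le_mul_of_nonneg_left hlw h5.le

private noncomputable def d0_inv : ℕ →* ℝ where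
  toFun n := (n : ℝ)⁻¹
  map_one' := by simp
  map_mul' a b := by simp [mul_comm]

private theorem d0_factored_sum (A : Finset ℕ) (hA : ∀ p ∈ A, p.Prime) (F : Finset ℕ)
    (hF : ∀ m ∈ F, m ∈ Nat.factoredNumbers A) :
    ∑ m ∈ F, (m : ℝ)⁻¹ ≤ ∏ p ∈ A, (1 - (p : ℝ)⁻¹)⁻¹ := by
  have h := (EulerProduct.summable_and_hasSum_factoredNumbers_prod_filter_prime_geometric
    (f := d0_inv) (by
      intro p hp
      have : (1 : ℝ) < p := by exact_mod_cast hp.one_lt
      simp only [d0_inv, MonoidHom.coe_mk, OneHom.coe_mk, norm_inv, Real.norm_natCast]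
      exact inv_lt_one_of_one_lt₀ this) A).2
  have h1 : A.filter Nat.Prime = A := Finset.filter_true_of_mem hA
  rw [h1] at h
  have h2 := (hasSum_subtype_iff_indicator (f := fun m : ℕ => d0_inv m)
    (s := Nat.factoredNumbers A)).1 h
  have h3 := sum_le_hasSum F (fun m _ => Set.indicator_nonneg (fun m _ => by
    simp only [d0_inv, MonoidHom.coe_mk, OneHom.coe_mk]
    positivity) m) h2
  have h4 : ∑ m ∈ F, (Nat.factoredNumbers A).indicator (fun m : ℕ => d0_inv m) m =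
      ∑ m ∈ F, (m : ℝ)⁻¹ := by
    apply Finset.sum_congr rfl
    intro m hm
    rw [Set.indicator_of_mem (hF m hm)]
    rfl
  rw [h4] at h3
  exact h3

private theorem d0_PrA (w : ℕ) : PrA w = (Finset.range (w + 1)).filter Nat.Prime := by
  ext p
  simp only [PrA, mem_filter, mem_Icc, mem_range]
  constructor
  · rintro ⟨⟨_, h2⟩, h3⟩; exact ⟨by omega, h3⟩
  · rintro ⟨h2, h3⟩; exact ⟨⟨h3.one_lt.le, by omega⟩, h3⟩

private theorem d0_term {p : ℕ} (hp : p.Prime) : (p : ℝ) / ((p : ℝ) - 1) = (1 - 1 / (p : ℝ))⁻¹ := by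
  have h1 : (1 : ℝ) < p := by exact_mod_cast hp.one_lt
  have h2 : (p : ℝ) - 1 ≠ 0 := by linarith
  have h3 : (p : ℝ) ≠ 0 := by linarith
  rw [eq_comm, inv_eq_iff_eq_inv, inv_div]
  field_simp

private theorem d0_Ww (w : ℕ) : Ww w =
    (∏ p ∈ (Finset.range (w + 1)).filter Nat.Prime, (1 - 1 / (p : ℝ)))⁻¹ := by
  rw [Ww, d0_PrA, ← Finset.prod_inv_distrib]
  exact Finset.prod_congr rfl fun p hp => d0_term (mem_filter.1 hp).2

theorem Ww_bounds : ∃ C : ℝ, 0 < C ∧ ∀ w : ℕ, 2 ≤ w → Real.log w ≤ Ww w ∧ Ww w ≤ C * Real.log w := by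
  obtain ⟨c, hc, h⟩ := d0_mertens
  refine ⟨c⁻¹, inv_pos.2 hc, fun w hw => ⟨?_, ?_⟩⟩
  · have h1 : Ww w = ∏ p ∈ PrA w, (1 - (p : ℝ)⁻¹)⁻¹ := by
      rw [Ww]
      refine Finset.prod_congr rfl fun p hp => ?_
      rw [d0_term (mem_filter.1 hp).2, one_div]
    rw [h1]
    have h2 := d0_factored_sum (PrA w) (fun p hp => (mem_filter.1 hp).2) (Icc 1 w) (by
      intro m hm
      rw [mem_Icc] at hm
      refine Nat.mem_factoredNumbers'.2 ?_
      intro p hp hpm
      have := Nat.le_of_dvd (by omega) hpm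
      simp only [PrA, mem_filter, mem_Icc]
      exact ⟨⟨hp.one_lt.le, by omega⟩, hp⟩)
    refine le_trans ?_ h2
    have h3 := log_add_one_le_harmonic w
    rw [harmonic_eq_sum_Icc] at h3
    push_cast at h3
    refine le_trans ?_ h3
    exact Real.log_le_log (by exact_mod_cast (by omega : 0 < w)) (by linarith)
  · rw [d0_Ww]
    have hw2 : (2 : ℝ) ≤ w := by exact_mod_cast hw
    have hlw0 : 0 < Real.log w := Real.log_pos (by linarith)
    have h1 := h w hw
    have h2 : 0 < c / Real.log w := div_pos hc hlw0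
    calc _ ≤ (c / Real.log w)⁻¹ := inv_anti₀ h2 h1
      _ = c⁻¹ * Real.log w := by rw [inv_div, div_eq_inv_mul]

private theorem d0_sq (n : ℕ) :
    (1 : ℝ) / 2 ≤ ∏ m ∈ Icc 2 (n + 1), (1 - 1 / ((m : ℝ)) ^ 2) := by
  have key : ∀ n : ℕ, ((n : ℝ) + 2) / (2 * ((n : ℝ) + 1)) =
      ∏ m ∈ Icc 2 (n + 1), (1 - 1 / ((m : ℝ)) ^ 2) := by
    intro n
    induction n with
    | zero => simp
    | succ n ih =>
      rw [← Finset.insert_Icc_right_eq_Icc_add_one (by omega : 2 ≤ n + 1 + 1), Finset.prod_insert (by simp), ← ih]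
      push_cast
      have h1 : (n : ℝ) + 1 ≠ 0 := by positivity
      have h2 : (n : ℝ) + 1 + 1 ≠ 0 := by positivity
      field_simp
      ring
  rw [← key n, div_le_div_iff₀ (by norm_num) (by positivity)]
  have : (0 : ℝ) ≤ n := Nat.cast_nonneg n
  nlinarith

theorem prod_sub_ge : ∃ c : ℝ, 0 < c ∧ ∀ w : ℕ, 2 ≤ w →
    c / Real.log w ≤ ∏ p ∈ PrO w, (1 - 1 / ((p : ℝ) - 1)) := by
  obtain ⟨c, hc, h⟩ := d0_mertens
  refine ⟨c / 2, by positivity, fun w hw => ?_⟩
  have hw2 : (2 : ℝ) ≤ w := by exact_mod_cast hw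
  have hlw0 : 0 < Real.log w := Real.log_pos (by linarith)
  have h1 := h w hw
  have hmem : ∀ p ∈ PrO w, p.Prime ∧ 3 ≤ p ∧ p ≤ w := by
    intro p hp
    simp only [PrO, mem_filter, mem_Icc] at hp
    exact ⟨hp.2, hp.1.1, hp.1.2⟩
  -- factorisation
  have h2 : ∏ p ∈ PrO w, (1 - 1 / ((p : ℝ) - 1)) =
      (∏ p ∈ PrO w, (1 - 1 / (p : ℝ))) * ∏ p ∈ PrO w, (1 - 1 / ((p : ℝ) - 1) ^ 2) := by
    rw [← Finset.prod_mul_distrib]
    refine Finset.prod_congr rfl fun p hp => ?_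
    have h3 : (3 : ℝ) ≤ p := by exact_mod_cast (hmem p hp).2.1
    have h4 : (p : ℝ) - 1 ≠ 0 := by linarith
    have h5 : (p : ℝ) ≠ 0 := by linarith
    field_simp
    ring
  have h3 : ∏ p ∈ (Finset.range (w + 1)).filter Nat.Prime, (1 - 1 / (p : ℝ)) ≤
      ∏ p ∈ PrO w, (1 - 1 / (p : ℝ)) := by
    apply Finset.prod_le_prod_of_subset_of_le_one
    · intro p hp
      obtain ⟨a, b, d⟩ := hmem p hp
      simp only [mem_filter, mem_range]
      exact ⟨by omega, a⟩
    · intro p hp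
      have h4 : (2 : ℝ) ≤ p := by exact_mod_cast (mem_filter.1 hp).2.two_le
      have h5 : 1 / (p : ℝ) ≤ 1 := by rw [div_le_one (by linarith)]; linarith
      linarith
    · intro p hp _
      have : (0 : ℝ) ≤ 1 / (p : ℝ) := by positivity
      linarith
  have h4 : (1 : ℝ) / 2 ≤ ∏ p ∈ PrO w, (1 - 1 / ((p : ℝ) - 1) ^ 2) := by
    have h5 : ∏ p ∈ PrO w, (1 - 1 / ((p : ℝ) - 1) ^ 2) =
        ∏ m ∈ (PrO w).image (fun p : ℕ => p - 1), (1 - 1 / ((m : ℝ)) ^ 2) := by
      rw [Finset.prod_image]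
      · refine Finset.prod_congr rfl fun p hp => ?_
        have := (hmem p hp).2.1
        rw [Nat.cast_sub (by omega)]
        simp
      · intro a ha b hb hab
        have h1 := (hmem a ha).2.1
        have h2 := (hmem b hb).2.1
        simp only at hab
        omega
    rw [h5]
    refine (d0_sq w).trans ?_
    apply Finset.prod_le_prod_of_subset_of_le_one
    · intro m hm
      obtain ⟨p, hp, rfl⟩ := mem_image.1 hm
      have h1 := (hmem p hp).2.1
      have h2 := (hmem p hp).2.2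
      rw [mem_Icc]
      omega
    · intro m hm
      rw [mem_Icc] at hm
      have h2 : (2 : ℝ) ≤ (m : ℝ) := by exact_mod_cast hm.1
      have h3 : 1 / (m : ℝ) ^ 2 ≤ 1 := by
        rw [div_le_one (by positivity)]
        nlinarith
      linarith
    · intro m hm _
      have : (0 : ℝ) ≤ 1 / (m : ℝ) ^ 2 := by positivity
      linarith
  have h5 : 0 ≤ ∏ p ∈ PrO w, (1 - 1 / (p : ℝ)) := by
    refine Finset.prod_nonneg fun p hp => ?_
    have h4 : (3 : ℝ) ≤ p := by exact_mod_cast (hmem p hp).2.1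
    have h5 : 1 / (p : ℝ) ≤ 1 := by rw [div_le_one (by linarith)]; linarith
    linarith
  rw [h2]
  calc c / 2 / Real.log w = (c / Real.log w) * (1 / 2) := by ring
    _ ≤ (∏ p ∈ PrO w, (1 - 1 / (p : ℝ))) * ∏ p ∈ PrO w, (1 - 1 / ((p : ℝ) - 1) ^ 2) := by
        refine mul_le_mul (h1.trans h3) h4 (by norm_num) h5

end Pool.Agent.LibSW40
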