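import Pool.Agent.LibSW40.C3
import Pool.Agent.LibSW40.D0
import Pool.Agent.LibPL63.SA6
import Pool.Agent.LibPL63.SA8
import Pool.Agent.LibPL63.SA2

/-!
Row D1 (MEDIUM/STRONG). Sieve for the primes `d ≡ 3 mod 4` with `d A + q` free of primes `3 ≤ p ≤ w`, `w ≤ D^(1/b)`, `D = e^x`.

PLAN. `A = avgP x 2 D 4 3 0` (`LibPL63/SA6.lean`) with `D : BVdata x 2 := ⟨S0 x, erB x, erB_nonneg x, _, erB_unit x, erB_nonunit x⟩` (see the
end of `LibPL63/B7.lean`); `lemmaSA` (`LibPL63/SA2.lean`) with `k = 2`, `b'` even with `eps0 C 2 b' ≤ 1/2`, `z = w`, `Pr = PrO w`,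
`x p n = if p ∣ n A + q then 1 else 0`, `T = ∅`. `Ep p (x p) = 1/(p-1)` (the residue `n ≡ -q/A` is a unit modulo `p`), `tot p (x p) = 1`.
Main term `(S0/2) ∏ (1 - 1/(p-1)) ≥ (9/20) c / log w`; remainder `∑_{D ⊆ Pr, ∏ ≤ w^(2b'+6)} 2^#D (erB x (4 ∏ D) + trw x 0)`
`≤ bv4 2 3 + e^(-x²/16)·(number)` (level: `w^(2b'+6) ≤ e^(x/25)` if `b ≥ 25 (2b'+6)`; `trw_le'`), `log w ≤ x`, so it is `≤ x^(-2)`.
Range: `clsU x 4 3` is `n ≤ e^(2x)`, `n ≡ 3 mod 4`; the part `n ≤ e^(x/2)` is `≤ trw x ⌊e^(x/2)⌋₊ ≤ e^(-x²/16)`.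
-/

set_option autoImplicit false

namespace Pool.Agent.LibSW40

open Finset Filter Pool.Agent.LibPL63

open Pool.Agent Pool.Agent.LibLG5

private theorem d1_eps (C : ℝ) (K : ℕ) : ∃ b0 : ℕ, Even b0 ∧ eps0 C K b0 ≤ 1 / 2 := by
  have h1 : Tendsto (fun n : ℕ => (C * K) ^ n / (n.factorial : ℝ)) atTop (nhds 0) :=
    FloorSemiring.tendsto_pow_div_factorial_atTop _
  have h2 : Tendsto (fun n : ℕ => C * Real.exp (C * K) *
      ((C * K) ^ n / (n.factorial : ℝ))) atTop (nhds 0) := by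
    have h := h1.const_mul (C * Real.exp (C * K))
    rwa [mul_zero] at h
  have h3 : ∀ᶠ n : ℕ in atTop, C * Real.exp (C * K) *
      ((C * K) ^ n / (n.factorial : ℝ)) < 1 / 2 := h2.eventually_lt_const (by norm_num)
  obtain ⟨N, hN⟩ := eventually_atTop.1 h3
  refine ⟨2 * N, even_two_mul N, ?_⟩
  have h4 := hN (2 * N + 1) (by omega)
  have h5 : eps0 C K (2 * N) = C * Real.exp (C * K) *
      ((C * K) ^ (2 * N + 1) / ((2 * N + 1).factorial : ℝ)) := by
    unfold eps0
    ring
  rw [h5]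
  exact h4.le

private theorem d1_PrO {w p : ℕ} : p ∈ PrO w ↔ 3 ≤ p ∧ p ≤ w ∧ p.Prime := by
  unfold PrO
  rw [Finset.mem_filter, Finset.mem_Icc]
  tauto

private theorem d1_sqf (D : Finset ℕ) (hD : ∀ p ∈ D, p.Prime) : Squarefree (∏ p ∈ D, p) := by
  refine Finset.squarefree_prod_of_pairwise_isCoprime (fun p hp q hq hpq => ?_) ?_
  · exact Nat.coprime_iff_isRelPrime.1 ((Nat.coprime_primes (hD p hp) (hD q hq)).2 hpq)
  · intro p hp
    exact (hD p hp).squarefree

private theorem d1_odd (D : Finset ℕ) (hD : ∀ p ∈ D, p.Prime ∧ 3 ≤ p) : (∏ p ∈ D, p) % 2 = 1 := by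
  rw [← Nat.odd_iff]
  refine Finset.prod_induction (fun p : ℕ => p) Odd (fun a b ha hb => ha.mul hb) odd_one ?_
  intro p hp
  exact (hD p hp).1.odd_of_ne_two (by have := (hD p hp).2; omega)

private theorem d1_two_pow {e : ℕ} (he : 1 ≤ e) : (2 : ℝ) ^ e.primeFactors.card ≤ e := by
  have h1 : 2 ^ e.primeFactors.card ≤ ∏ p ∈ e.primeFactors, p :=
    Finset.pow_card_le_prod e.primeFactors (fun p => p) 2
      fun p hp => (Nat.prime_of_mem_primeFactors hp).two_le
  have h2 : ∏ p ∈ e.primeFactors, p ≤ e := Nat.le_of_dvd (by omega) (Nat.prod_primeFactors_dvd e)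
  exact_mod_cast h1.trans h2

/-- the remainder -/
private theorem d1_rem (x t : ℝ) (ht : 0 ≤ t) (w M : ℕ) (hM : (M : ℝ) ≤ Real.exp (x / 25)) :
    ∑ D ∈ (PrO w).powerset with ∏ p ∈ D, p ≤ M, (2 : ℝ) ^ D.card * (erB x (4 * ∏ p ∈ D, p) + t) ≤
      ∑ e ∈ osf ⌊Real.exp (x / 25)⌋₊, (2 : ℝ) ^ e.primeFactors.card * erB x (4 * e) +
        Real.exp (x / 25) * Real.exp (x / 25) * t := by
  classical
  set S := (PrO w).powerset.filter (fun D => ∏ p ∈ D, p ≤ M) with hS
  set F : ℕ → ℝ := fun e => (2 : ℝ) ^ e.primeFactors.card * (erB x (4 * e) + t) with hF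
  have hF0 : ∀ e, 0 ≤ F e := fun e =>
    mul_nonneg (by positivity) (add_nonneg (erB_nonneg x _) ht)
  have hSp : ∀ D ∈ S, ∀ p ∈ D, p.Prime ∧ 3 ≤ p := by
    intro D hD p hp
    rw [hS, Finset.mem_filter, Finset.mem_powerset] at hD
    have := d1_PrO.1 (hD.1 hp)
    exact ⟨this.2.2, this.1⟩
  have hpf : ∀ D ∈ S, (∏ p ∈ D, p).primeFactors = D := fun D hD =>
    Nat.primeFactors_prod fun p hp => (hSp D hD p hp).1
  have hinj : Set.InjOn (fun D : Finset ℕ => ∏ p ∈ D, p) (S : Set (Finset ℕ)) := by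
    intro D hD D' hD' h
    have h1 := hpf D hD
    have h2 := hpf D' hD'
    simp only at h
    rw [← h1, ← h2, h]
  have hstep1 : ∑ D ∈ S, (2 : ℝ) ^ D.card * (erB x (4 * ∏ p ∈ D, p) + t) =
      ∑ e ∈ S.image (fun D : Finset ℕ => ∏ p ∈ D, p), F e := by
    rw [Finset.sum_image hinj]
    refine Finset.sum_congr rfl fun D hD => ?_
    rw [hF]
    simp only
    rw [hpf D hD]
  have hsub : S.image (fun D : Finset ℕ => ∏ p ∈ D, p) ⊆ osf ⌊Real.exp (x / 25)⌋₊ := by
    intro e he
    rw [Finset.mem_image] at he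
    obtain ⟨D, hD, rfl⟩ := he
    have hD' := hD
    rw [hS, Finset.mem_filter] at hD'
    unfold osf
    rw [Finset.mem_filter, Finset.mem_Icc]
    refine ⟨⟨?_, ?_⟩, d1_sqf D fun p hp => (hSp D hD p hp).1, d1_odd D (hSp D hD)⟩
    · exact Finset.prod_pos fun p hp => (hSp D hD p hp).1.pos
    · apply Nat.le_floor
      refine le_trans ?_ hM
      exact_mod_cast hD'.2
  have hstep2 : ∑ e ∈ S.image (fun D : Finset ℕ => ∏ p ∈ D, p), F e ≤
      ∑ e ∈ osf ⌊Real.exp (x / 25)⌋₊, F e :=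
    Finset.sum_le_sum_of_subset_of_nonneg hsub fun e _ _ => hF0 e
  have hstep3 : ∑ e ∈ osf ⌊Real.exp (x / 25)⌋₊, F e =
      ∑ e ∈ osf ⌊Real.exp (x / 25)⌋₊, (2 : ℝ) ^ e.primeFactors.card * erB x (4 * e) +
        ∑ e ∈ osf ⌊Real.exp (x / 25)⌋₊, (2 : ℝ) ^ e.primeFactors.card * t := by
    rw [← Finset.sum_add_distrib]
    refine Finset.sum_congr rfl fun e _ => ?_
    rw [hF]
    ring
  have hfl : ((⌊Real.exp (x / 25)⌋₊ : ℕ) : ℝ) ≤ Real.exp (x / 25) := Nat.floor_le (Real.exp_pos _).le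
  have hstep4 : ∑ e ∈ osf ⌊Real.exp (x / 25)⌋₊, (2 : ℝ) ^ e.primeFactors.card * t ≤
      Real.exp (x / 25) * Real.exp (x / 25) * t := by
    calc ∑ e ∈ osf ⌊Real.exp (x / 25)⌋₊, (2 : ℝ) ^ e.primeFactors.card * t
        ≤ ∑ _e ∈ osf ⌊Real.exp (x / 25)⌋₊, Real.exp (x / 25) * t := by
          refine Finset.sum_le_sum fun e he => ?_
          unfold osf at he
          rw [Finset.mem_filter, Finset.mem_Icc] at he
          refine mul_le_mul_of_nonneg_right ?_ ht
          refine (d1_two_pow he.1.1).trans ?_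
          refine le_trans ?_ hfl
          exact_mod_cast he.1.2
      _ = (osf ⌊Real.exp (x / 25)⌋₊).card * (Real.exp (x / 25) * t) := by
          rw [Finset.sum_const, nsmul_eq_mul]
      _ ≤ Real.exp (x / 25) * (Real.exp (x / 25) * t) := by
          refine mul_le_mul_of_nonneg_right ?_ (mul_nonneg (Real.exp_pos _).le ht)
          refine le_trans ?_ hfl
          have h1 : (osf ⌊Real.exp (x / 25)⌋₊).card ≤ (Icc 1 ⌊Real.exp (x / 25)⌋₊).card := by
            unfold osf
            exact Finset.card_filter_le _ _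
          rw [Nat.card_Icc, Nat.add_sub_cancel] at h1
          exact_mod_cast h1
      _ = _ := by ring
  rw [hstep1]
  linarith

/-- the local density -/
private theorem d1_loc (A q p : ℕ) (hp : p.Prime) (hA : ¬ p ∣ A) :
    ((range p).filter fun y => p ∣ y * A + q).card ≤ 1 := by
  rw [Finset.card_le_one]
  intro a ha b hb
  rw [Finset.mem_filter, Finset.mem_range] at ha hb
  have hco : Nat.gcd p A = 1 := (Nat.Prime.coprime_iff_not_dvd hp).2 hA
  have h1 : a * A + q ≡ b * A + q [MOD p] := by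
    have h2 : a * A + q ≡ 0 [MOD p] := (Nat.modEq_zero_iff_dvd).2 ha.2
    have h3 : b * A + q ≡ 0 [MOD p] := (Nat.modEq_zero_iff_dvd).2 hb.2
    exact h2.trans h3.symm
  have h4 : a * A ≡ b * A [MOD p] := Nat.ModEq.add_right_cancel' q h1
  have h5 : a ≡ b [MOD p] := Nat.ModEq.cancel_right_of_coprime hco h4
  have h6 : a % p = b % p := h5
  rwa [Nat.mod_eq_of_lt ha.1, Nat.mod_eq_of_lt hb.1] at h6

private theorem d1_small (c0 : ℝ) (hc0 : 0 < c0) : ∀ᶠ x : ℝ in atTop,
    (x ^ 3)⁻¹ + Real.exp (x / 25) * Real.exp (x / 25) * Real.exp (-(x ^ 2 / 16)) +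
      Real.exp (-(x ^ 2 / 16)) ≤ 9 / 80 * c0 / x := by
  filter_upwards [eventually_ge_atTop (max 40 (37 * 80 / (9 * c0)))] with x hx
  have hx40 : (40 : ℝ) ≤ x := (le_max_left _ _).trans hx
  have hx2 : 37 * 80 / (9 * c0) ≤ x := (le_max_right _ _).trans hx
  have hx0 : (0 : ℝ) < x := by linarith
  have h1 : (x ^ 3)⁻¹ ≤ 1 / x ^ 2 := by
    rw [inv_eq_one_div]
    apply one_div_le_one_div_of_le (by positivity)
    exact pow_le_pow_right₀ (by linarith) (by norm_num)
  have hexp : ∀ y : ℝ, 0 < y → Real.exp (-y) ≤ 1 / y := by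
    intro y hy
    rw [Real.exp_neg, inv_eq_one_div]
    apply one_div_le_one_div_of_le hy
    linarith [Real.add_one_le_exp y]
  have h2 : Real.exp (x / 25) * Real.exp (x / 25) * Real.exp (-(x ^ 2 / 16)) ≤ 20 / x ^ 2 := by
    rw [← Real.exp_add, ← Real.exp_add]
    have h3 : x / 25 + x / 25 + -(x ^ 2 / 16) ≤ -(x ^ 2 / 20) := by nlinarith
    refine (Real.exp_le_exp.2 h3).trans ?_
    refine (hexp _ (by positivity)).trans (le_of_eq ?_)
    field_simp
  have h3 : Real.exp (-(x ^ 2 / 16)) ≤ 16 / x ^ 2 := by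
    refine (hexp _ (by positivity)).trans (le_of_eq ?_)
    field_simp
  have h4 : 37 / x ^ 2 ≤ 9 / 80 * c0 / x := by
    rw [div_le_div_iff₀ (by positivity) hx0]
    rw [div_le_iff₀ (by positivity)] at hx2
    nlinarith
  have h5 : 1 / x ^ 2 + 20 / x ^ 2 + 16 / x ^ 2 = 37 / x ^ 2 := by ring
  linarith

open scoped Classical in
/-- the range of `d` -/
noncomputable def dR (x : ℝ) : Finset ℕ :=
  (Icc 1 ⌊Real.exp (2 * x)⌋₊).filter (fun d => d.Prime ∧ d % 4 = 3 ∧ Real.exp (x / 2) < d)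

open scoped Classical in
theorem dsieve : ∃ (b : ℕ) (c : ℝ), 0 < c ∧ ∀ᶠ x : ℝ in atTop, ∀ w : ℕ, 2 ≤ w → (w : ℝ) ^ b ≤ Real.exp x →
    ∀ A q : ℕ, (∀ p ∈ PrO w, ¬ p ∣ A ∧ ¬ p ∣ q) →
      c / Real.log w ≤ ∑ d ∈ dR x, wp x d * (if ∀ p ∈ PrO w, ¬ p ∣ d * A + q then 1 else 0) := by
  obtain ⟨C, hC1, hSA⟩ := lemmaSA
  obtain ⟨b', hb'e, hb'⟩ := d1_eps C 2
  obtain ⟨c0, hc0, hprod⟩ := prod_sub_ge
  refine ⟨25 * (2 * b' + 6), 9 / 80 * c0, by positivity, ?_⟩
  have hbv := bv4 2 3
  have hS0 : ∀ᶠ x : ℝ in atTop, 9 / 10 ≤ LibMaier.S0 x :=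
    (LibMaier.tendsto_S0.eventually (lt_mem_nhds (show (9 / 10 : ℝ) < 1 by norm_num))).mono
      fun x hx => le_of_lt hx
  filter_upwards [hbv, hS0, d1_small c0 hc0, eventually_ge_atTop (40 : ℝ)] with x h1 h2 h3 h4
  intro w hw hwb A q hAq
  have hx0 : (0 : ℝ) < x := by linarith
  set Dv : BVdata x 2 :=
    ⟨LibMaier.S0 x, erB x, erB_nonneg x, h2, erB_unit x, erB_nonunit x⟩ with hDv
  set Av : Average := avgP x 2 Dv 4 3 0 (by norm_num) (by norm_num) with hAv
  set X : ℕ → ℕ → ℝ := fun p n => if p ∣ n * A + q then 1 else 0 with hX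
  have hPrp : ∀ p ∈ PrO w, p.Prime ∧ 3 ≤ p ∧ p ≤ w := by
    intro p hp
    have := d1_PrO.1 hp
    exact ⟨this.2.2, this.1, this.2.1⟩
  have hgood : ∀ p ∈ PrO w, p ∈ Av.good ∧ p ≤ w := by
    intro p hp
    obtain ⟨ha, hb, hc⟩ := hPrp p hp
    refine ⟨⟨ha, ?_⟩, hc⟩
    intro hd
    have h5 : p ∣ 2 := ha.dvd_of_dvd_pow (show p ∣ 2 ^ 2 by simpa using hd)
    have := Nat.le_of_dvd (by norm_num) h5
    omega
  have hper : ∀ p ∈ PrO w, Function.Periodic (X p) p := by
    intro p _ n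
    simp only [hX]
    have : p ∣ (n + p) * A + q ↔ p ∣ n * A + q := by
      have h5 : (n + p) * A + q = n * A + q + p * A := by ring
      rw [h5]
      exact (Nat.dvd_add_iff_left (Dvd.intro A rfl)).symm
    simp only [this]
  have h01 : ∀ p ∈ PrO w, ∀ n, 0 ≤ X p n ∧ X p n ≤ 1 := by
    intro p _ n
    simp only [hX]
    split_ifs <;> norm_num
  have hsumX : ∀ p ∈ PrO w, ∑ y ∈ range p, X p y ≤ 1 := by
    intro p hp
    simp only [hX]
    rw [← Finset.sum_filter, Finset.sum_const, nsmul_eq_mul, mul_one]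
    exact_mod_cast d1_loc A q p (hPrp p hp).1 (hAq p hp).1
  have hEp : ∀ p ∈ PrO w, Av.Ep p (X p) ≤ 1 / ((p : ℝ) - 1) := by
    intro p hp
    have hp3 : (3 : ℝ) ≤ p := by exact_mod_cast (hPrp p hp).2.1
    have hinv : (0 : ℝ) ≤ 1 / ((p : ℝ) - 1) := by
      apply div_nonneg zero_le_one
      linarith
    unfold Average.Ep
    calc ∑ y ∈ range p, Av.lp p y * X p y ≤ ∑ y ∈ range p, 1 / ((p : ℝ) - 1) * X p y := by
          refine Finset.sum_le_sum fun y _ => ?_
          refine mul_le_mul_of_nonneg_right ?_ (h01 p hp y).1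
          show lpP 0 p y ≤ _
          unfold lpP
          split_ifs
          · exact hinv
          · exact le_rfl
      _ = 1 / ((p : ℝ) - 1) * ∑ y ∈ range p, X p y := by rw [Finset.mul_sum]
      _ ≤ 1 / ((p : ℝ) - 1) * 1 := mul_le_mul_of_nonneg_left (hsumX p hp) hinv
      _ = _ := mul_one _
  have hloc : ∀ p ∈ PrO w, Av.Ep p (X p) ≤ 1 / 2 ∧ Av.Ep p (X p) ≤ (2 : ℕ) / p ∧
      tot p (X p) ≤ (2 : ℕ) := by
    intro p hp
    have hp3 : (3 : ℝ) ≤ p := by exact_mod_cast (hPrp p hp).2.1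
    refine ⟨(hEp p hp).trans ?_, (hEp p hp).trans ?_, ?_⟩
    · exact one_div_le_one_div_of_le (by norm_num) (by linarith)
    · rw [div_le_div_iff₀ (by linarith) (by linarith)]
      push_cast
      linarith
    · unfold tot
      have h5 : ∑ y ∈ range p, |X p y| = ∑ y ∈ range p, X p y :=
        Finset.sum_congr rfl fun y _ => abs_of_nonneg (h01 p hp y).1
      rw [h5]
      refine (hsumX p hp).trans ?_
      norm_num
  have key := hSA 2 b' hb'e (hb'.trans (by norm_num)) Av w (by omega) (PrO w) hgood X hper h01 hloc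
    ∅ (fun _ _ => 1) (fun p hp => absurd hp (Finset.notMem_empty p)) (Finset.disjoint_empty_left _)
    (fun p hp => absurd hp (Finset.notMem_empty p))
  simp only [Finset.prod_empty, mul_one] at key
  -- the main term
  set Pm : ℝ := ∏ p ∈ PrO w, (1 - Av.Ep p (X p)) with hPm
  have hPm1 : c0 / Real.log w ≤ Pm := by
    refine (hprod w hw).trans ?_
    refine Finset.prod_le_prod (fun p hp => ?_) (fun p hp => ?_)
    · have hp3 : (3 : ℝ) ≤ p := by exact_mod_cast (hPrp p hp).2.1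
      have : 1 / ((p : ℝ) - 1) ≤ 1 := by
        rw [div_le_one (by linarith)]
        linarith
      linarith
    · linarith [hEp p hp]
  have hlogw : 0 < Real.log w := Real.log_pos (by exact_mod_cast (by omega : 1 < w))
  have hPm0 : 0 ≤ Pm := le_trans (by positivity) hPm1
  have hAX : Av.X = LibMaier.S0 x / 2 := by
    show LibMaier.S0 x / ((4 : ℕ).totient : ℝ) = _
    have : (4 : ℕ).totient = 2 := by decide
    rw [this]
    norm_num
  -- the remainder
  have hM : ((w ^ (2 * b' + 6) : ℕ) : ℝ) ≤ Real.exp (x / 25) := by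
    push_cast
    have h5 : ((w : ℝ) ^ (2 * b' + 6)) ^ 25 ≤ Real.exp (x / 25) ^ 25 := by
      rw [← pow_mul, ← Real.exp_nat_mul]
      have h6 : ((25 : ℕ) : ℝ) * (x / 25) = x := by
        push_cast
        ring
      rw [h6, mul_comm (2 * b' + 6) 25]
      exact hwb
    exact le_of_pow_le_pow_left₀ (by norm_num) (Real.exp_pos _).le h5
  have ht0 : 0 ≤ trw x 0 := trw_nonneg x 0
  have hrem := d1_rem x (trw x 0) ht0 w (w ^ (2 * b' + 6)) hM
  have hEr : ∀ n : ℕ, Av.Er n = erB x (4 * n) + trw x 0 := fun n => rfl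
  have hrem2 : ∑ D ∈ (PrO w).powerset with ∏ p ∈ D, p ≤ w ^ (2 * b' + 6),
      ((2 : ℕ) : ℝ) ^ D.card * Av.Er (∏ p ∈ D, p) ≤ (x ^ 3)⁻¹ +
        Real.exp (x / 25) * Real.exp (x / 25) * Real.exp (-(x ^ 2 / 16)) := by
    simp only [hEr]
    push_cast
    refine hrem.trans (add_le_add ?_ ?_)
    · exact_mod_cast h1
    · refine mul_le_mul_of_nonneg_left ?_ (by positivity)
      exact trw_le' h4 0 (by simpa using (Real.exp_pos _).le)
  -- the sum
  have hlow := (abs_le.1 key).1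
  have hsum : ∑ n ∈ Av.s, Av.om n * ∏ p ∈ PrO w, (1 - X p n) ≤
      ∑ d ∈ dR x, wp x d * (if ∀ p ∈ PrO w, ¬ p ∣ d * A + q then 1 else 0) +
        Real.exp (-(x ^ 2 / 16)) := by
    have hpr : ∀ n, ∏ p ∈ PrO w, (1 - X p n) =
        if ∀ p ∈ PrO w, ¬ p ∣ n * A + q then (1 : ℝ) else 0 := by
      intro n
      by_cases h : ∀ p ∈ PrO w, ¬ p ∣ n * A + q
      · rw [if_pos h]
        refine Finset.prod_eq_one fun p hp => ?_
        simp only [hX]
        rw [if_neg (h p hp), sub_zero]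
      · rw [if_neg h]
        push Not at h
        obtain ⟨p, hp, hd⟩ := h
        refine Finset.prod_eq_zero hp ?_
        simp only [hX]
        rw [if_pos hd, sub_self]
    have hom : ∀ n, Av.om n = wp x n := fun n => rfl
    have hs : Av.s = clsU x 4 3 := rfl
    simp only [hpr, hom, hs]
    set I : ℕ → ℝ := fun n => if ∀ p ∈ PrO w, ¬ p ∣ n * A + q then (1 : ℝ) else 0 with hI
    have hI0 : ∀ n, 0 ≤ I n ∧ I n ≤ 1 := by
      intro n
      simp only [hI]
      split_ifs <;> norm_num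
    set lo := ⌊Real.exp (x / 2)⌋₊ with hlo
    have hlole : (lo : ℝ) ≤ Real.exp (x / 2) := Nat.floor_le (Real.exp_pos _).le
    have htr := trw_le' h4 lo hlole
    have hsplit : ∀ n ∈ clsU x 4 3, wp x n * I n ≤
        (if n ∈ dR x then wp x n * I n else 0) +
          (if n ≤ lo ∨ Real.exp (2 * x) < n then wp x n else 0) := by
      intro n hn
      have hw0 := wp_nonneg x n
      have hI1 := hI0 n
      by_cases hd : n ∈ dR x
      · rw [if_pos hd]
        have : 0 ≤ (if n ≤ lo ∨ Real.exp (2 * x) < n then wp x n else 0) := by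
          split_ifs
          · exact hw0
          · exact le_rfl
        linarith
      · rw [if_neg hd, zero_add]
        by_cases hnp : n.Prime
        · have hnle : n ≤ lo := by
            by_contra hcon
            apply hd
            unfold clsU at hn
            rw [Finset.mem_filter] at hn
            unfold dR
            rw [Finset.mem_filter]
            refine ⟨hn.1, hnp, hn.2, ?_⟩
            rw [hlo] at hcon
            exact Nat.lt_of_floor_lt (by omega)
          rw [if_pos (Or.inl hnle)]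
          exact mul_le_of_le_one_right hw0 hI1.2
        · have hz : wp x n = 0 := by
            unfold wp
            rw [if_neg hnp]
          rw [hz, zero_mul, ite_self]
    refine (Finset.sum_le_sum hsplit).trans ?_
    rw [Finset.sum_add_distrib]
    refine add_le_add ?_ ?_
    · rw [← Finset.sum_filter]
      apply Finset.sum_le_sum_of_subset_of_nonneg
      · intro n hn
        exact (Finset.mem_filter.1 hn).2
      · intro n _ _
        exact mul_nonneg (wp_nonneg x n) (hI0 n).1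
    · refine le_trans ?_ htr
      unfold trw
      exact (ite_summable x fun n => n ≤ lo ∨ Real.exp (2 * x) < n).sum_le_tsum _
        (fun n _ => by
          split_ifs
          · exact wp_nonneg x n
          · exact le_rfl)
  -- assemble
  have hlogx : Real.log w ≤ x := by
    have h5 : (w : ℝ) ≤ Real.exp x := by
      refine le_trans ?_ hwb
      exact le_self_pow₀ (by exact_mod_cast (by omega : 1 ≤ w)) (by omega)
    have h6 : Real.log (w : ℝ) ≤ Real.log (Real.exp x) :=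
      Real.log_le_log (by exact_mod_cast (by omega : 0 < w)) h5
    rwa [Real.log_exp] at h6
  have herr : 9 / 80 * c0 / x ≤ 9 / 80 * c0 / Real.log w :=
    div_le_div_of_nonneg_left (by positivity) hlogw hlogx
  have hmain : 9 / 40 * (c0 / Real.log w) ≤ Av.X * Pm - eps0 C 2 b' * (Av.X * Pm) := by
    have h5 : 9 / 20 * (c0 / Real.log w) ≤ Av.X * Pm := by
      rw [hAX]
      refine mul_le_mul (by linarith) hPm1 (by positivity) (by linarith)
    have h6 : 0 ≤ Av.X * Pm := le_trans (by positivity) h5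
    have h7 : eps0 C 2 b' * (Av.X * Pm) ≤ 1 / 2 * (Av.X * Pm) := mul_le_mul_of_nonneg_right hb' h6
    linarith
  have hfin : 9 / 40 * (c0 / Real.log w) = 9 / 80 * c0 / Real.log w + 9 / 80 * c0 / Real.log w := by
    ring
  have hA1 : Av.X * Pm - eps0 C 2 b' * (Av.X * Pm) - ((x ^ 3)⁻¹ +
        Real.exp (x / 25) * Real.exp (x / 25) * Real.exp (-(x ^ 2 / 16))) ≤
      ∑ n ∈ Av.s, Av.om n * ∏ p ∈ PrO w, (1 - X p n) := by
    have hlow2 := hlow.trans' (neg_le_neg (add_le_add_right hrem2 (eps0 C 2 b' * (Av.X * Pm))))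
    linarith
  have hA2 := hA1.trans hsum
  rw [hfin] at hmain
  linarith

/-- total mass and size of the weights -/
theorem wp_mass : ∀ᶠ x : ℝ in atTop, ∑ d ∈ dR x, wp x d ≤ 2 ∧ ∀ d : ℕ, wp x d ≤ 2 * x * Real.exp (-x) := by
  have hS0 : ∀ᶠ x : ℝ in atTop, LibMaier.S0 x ≤ 2 :=
    (LibMaier.tendsto_S0.eventually (gt_mem_nhds (show (1 : ℝ) < 2 by norm_num))).mono
      fun x hx => le_of_lt hx
  filter_upwards [hS0, eventually_ge_atTop (1 : ℝ)] with x h1 h2
  constructor
  · refine le_trans ?_ h1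
    calc ∑ d ∈ dR x, wp x d ≤ ∑ d ∈ dR x, LibMaier.wn x d :=
          Finset.sum_le_sum fun d _ => wp_le_wn x d
      _ ≤ LibMaier.S0 x := (LibMaier.summable_wn x).sum_le_tsum _ fun n _ => LibMaier.wn_nonneg x n
  · intro d
    unfold wp
    split_ifs with hd
    · have hd0 : (0 : ℝ) < d := by exact_mod_cast hd.pos
      set u := Real.log (d : ℝ) with hu
      have hu0 : 0 ≤ u := Real.log_natCast_nonneg d
      have hdu : (d : ℝ) = Real.exp u := (Real.exp_log hd0).symm
      have hgw : LibMaier.gw (u - x) ≤ 1 / 2 * Real.exp (-(u - x) ^ 2 / 2) := by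
        unfold LibMaier.gw
        have hpi := Real.pi_gt_three
        have h5 : (2 : ℝ) ≤ Real.sqrt (2 * Real.pi) := by
          apply Real.le_sqrt_of_sq_le
          linarith
        calc Real.exp (-(u - x) ^ 2 / 2) / Real.sqrt (2 * Real.pi)
            ≤ Real.exp (-(u - x) ^ 2 / 2) / 2 :=
              div_le_div_of_nonneg_left (Real.exp_pos _).le (by norm_num) h5
          _ = _ := by ring
      have h6 : u * LibMaier.gw (u - x) / d ≤ 1 / 2 * (u * Real.exp (-(u - x) ^ 2 / 2 - u)) := by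
        have h7 : u * LibMaier.gw (u - x) / d = u * LibMaier.gw (u - x) * Real.exp (-u) := by
          rw [hdu, Real.exp_neg]
          rfl
        rw [h7]
        calc u * LibMaier.gw (u - x) * Real.exp (-u)
            ≤ u * (1 / 2 * Real.exp (-(u - x) ^ 2 / 2)) * Real.exp (-u) :=
              mul_le_mul_of_nonneg_right (mul_le_mul_of_nonneg_left hgw hu0) (Real.exp_pos _).le
          _ = 1 / 2 * (u * (Real.exp (-(u - x) ^ 2 / 2) * Real.exp (-u))) := by ring
          _ = _ := by rw [← Real.exp_add]; ring_nf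
      refine h6.trans ?_
      have h8 : -(u - x) ^ 2 / 2 - u = 1 / 2 + (-x) + (-(u - x + 1) ^ 2 / 2) := by ring
      rw [h8, Real.exp_add, Real.exp_add]
      have h9 : Real.exp (1 / 2) ≤ 2 := by
        have h10 : Real.exp (1 / 2) ≤ Real.exp 1 := Real.exp_le_exp.2 (by norm_num)
        have h11 : Real.exp (1 / 2) * Real.exp (1 / 2) = Real.exp 1 := by
          rw [← Real.exp_add]
          norm_num
        have h12 := Real.exp_one_lt_d9
        nlinarith [Real.exp_pos (1 / 2 : ℝ)]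
      have h10 : u * Real.exp (-(u - x + 1) ^ 2 / 2) ≤ 2 * x := by
        rcases le_total u x with h | h
        · have h11 : Real.exp (-(u - x + 1) ^ 2 / 2) ≤ 1 := by
            apply Real.exp_le_one_iff.2
            have := sq_nonneg (u - x + 1)
            linarith
          calc u * Real.exp (-(u - x + 1) ^ 2 / 2) ≤ u * 1 := mul_le_mul_of_nonneg_left h11 hu0
            _ ≤ 2 * x := by linarith
        · have h11 : Real.exp (-(u - x + 1) ^ 2 / 2) ≤ Real.exp (-(u - x)) := by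
            apply Real.exp_le_exp.2
            nlinarith [sq_nonneg (u - x)]
          have h12 : (u - x) * Real.exp (-(u - x)) ≤ 1 := by
            have h13 : u - x ≤ Real.exp (u - x) := by linarith [Real.add_one_le_exp (u - x)]
            calc (u - x) * Real.exp (-(u - x)) ≤ Real.exp (u - x) * Real.exp (-(u - x)) :=
                  mul_le_mul_of_nonneg_right h13 (Real.exp_pos _).le
              _ = 1 := by rw [← Real.exp_add]; simp
          have h13 : Real.exp (-(u - x)) ≤ 1 := Real.exp_le_one_iff.2 (by linarith)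
          calc u * Real.exp (-(u - x + 1) ^ 2 / 2) ≤ u * Real.exp (-(u - x)) :=
                mul_le_mul_of_nonneg_left h11 hu0
            _ = x * Real.exp (-(u - x)) + (u - x) * Real.exp (-(u - x)) := by ring
            _ ≤ x * 1 + 1 := add_le_add (mul_le_mul_of_nonneg_left h13 (by linarith)) h12
            _ ≤ 2 * x := by linarith
      have h11 := Real.exp_pos (-x)
      calc 1 / 2 * (u * (Real.exp (1 / 2) * Real.exp (-x) * Real.exp (-(u - x + 1) ^ 2 / 2)))
          = 1 / 2 * Real.exp (1 / 2) * (u * Real.exp (-(u - x + 1) ^ 2 / 2)) * Real.exp (-x) := by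
            ring
        _ ≤ 1 / 2 * 2 * (2 * x) * Real.exp (-x) := by
            refine mul_le_mul_of_nonneg_right ?_ h11.le
            refine mul_le_mul (mul_le_mul_of_nonneg_left h9 (by norm_num)) h10 ?_ (by norm_num)
            exact mul_nonneg hu0 (Real.exp_pos _).le
        _ = _ := by ring
    · have := Real.exp_pos (-x)
      positivity

end Pool.Agent.LibSW40
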