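import Pool.Agent.LibPL63.B0a

/-!
# LibSW40: Siegel's theorem, Siegel-Walfisz, Bombieri-Vinogradov for the moduli `4 e` (helper40)

Definitions.
-/

set_option autoImplicit false

namespace Pool.Agent.LibSW40

open Complex DirichletCharacter

/-- `(s - 1) ζ(s) L(s, χ)` -/
noncomputable def P2 {q : ℕ} [NeZero q] (χ : DirichletCharacter ℂ q) (s : ℂ) : ℂ :=
  riemannZeta₁ s * LFunction χ s

/-- the product of two characters, as a character modulo the product -/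
noncomputable def mulc {q₁ q₂ : ℕ} (χ₁ : DirichletCharacter ℂ q₁) (χ₂ : DirichletCharacter ℂ q₂) :
    DirichletCharacter ℂ (q₁ * q₂) :=
  changeLevel (Nat.dvd_mul_right q₁ q₂) χ₁ * changeLevel (Nat.dvd_mul_left q₂ q₁) χ₂

/-- `(s - 1) ζ(s) L(s, χ₁) L(s, χ₂) L(s, χ₁ χ₂)` -/
noncomputable def P4 {q₁ q₂ : ℕ} [NeZero q₁] [NeZero q₂] (χ₁ : DirichletCharacter ℂ q₁)
    (χ₂ : DirichletCharacter ℂ q₂) (s : ℂ) : ℂ :=
  riemannZeta₁ s * LFunction χ₁ s * LFunction χ₂ s * LFunction (mulc χ₁ χ₂) s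

end Pool.Agent.LibSW40
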