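import Pool.Agent.LibMaier.LSum

/-!
Row S10 (MEDIUM). The derivative of `L(s, χ)` near 1.

PLAN. `ε ≤ 1`. For `Re s ≥ 1 - ε/4`, `‖s‖ ≤ 3`: `LT_approx` with `N = q²`: error `q (2 + 3/(3/4)) q^(-2 (3/4)) ≤ 6 q^(-1/2) ≤ 6`,
`‖LT χ (q²) s‖ ≤ ∑_{n ≤ q²} n^(-(1-ε/4)) ≤ q^(ε/2) ∑_{n ≤ q²} 1/n ≤ q^(ε/2) (1 + 2 log q)`. Cauchy on the circle of radius `ε/8`
around `σ` (`Complex.norm_deriv_le_of_forall_mem_sphere_norm_le`): `≤ (8/ε)(6 + q^(ε/2)(1 + 2 log q)) ≤ C q^ε`.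
-/

set_option autoImplicit false

namespace Pool.Agent.LibSW40

open Complex DirichletCharacter

private theorem s10_LT_le (ε : ℝ) (hε : 0 < ε) {q : ℕ} [NeZero q] (χ : DirichletCharacter ℂ q) {s : ℂ}
    (hs : 1 - ε / 4 ≤ s.re) :
    ‖Pool.Agent.LibMaier.LT χ (q ^ 2) s‖ ≤ (1 + 4 / ε) * (q : ℝ) ^ ε := by
  have hq0 : 0 < q := Nat.pos_of_ne_zero (NeZero.ne q)
  have hq1 : (1 : ℝ) ≤ q := by exact_mod_cast hq0
  have hqp : (0 : ℝ) < q := by linarith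
  have h1 : ‖Pool.Agent.LibMaier.LT χ (q ^ 2) s‖ ≤
      ∑ n ∈ Finset.Icc 1 (q ^ 2), (q : ℝ) ^ (ε / 2) * ((n : ℝ))⁻¹ := by
    unfold Pool.Agent.LibMaier.LT
    refine (norm_sum_le _ _).trans (Finset.sum_le_sum fun n hn => ?_)
    rw [Finset.mem_Icc] at hn
    have hn1 : (1 : ℝ) ≤ n := by exact_mod_cast hn.1
    have hn0 : (0 : ℝ) < n := by linarith
    have hn2 : (n : ℝ) ≤ (q : ℝ) ^ (2 : ℝ) := by
      rw [Real.rpow_two]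
      exact_mod_cast hn.2
    rw [norm_mul]
    have h2 : ‖((n : ℕ) : ℂ) ^ (-s)‖ = (n : ℝ) ^ (-s.re) := by
      have h3 := Complex.norm_cpow_eq_rpow_re_of_pos hn0 (-s)
      rw [Complex.neg_re] at h3
      simpa using h3
    rw [h2]
    have h4 : (n : ℝ) ^ (-s.re) ≤ (n : ℝ) ^ (ε / 4 - 1) :=
      Real.rpow_le_rpow_of_exponent_le hn1 (by linarith)
    have h5 : (n : ℝ) ^ (ε / 4 - 1) = (n : ℝ) ^ (ε / 4) * ((n : ℝ))⁻¹ := by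
      rw [Real.rpow_sub hn0, Real.rpow_one, div_eq_mul_inv]
    have h6 : (n : ℝ) ^ (ε / 4) ≤ (q : ℝ) ^ (ε / 2) := by
      calc (n : ℝ) ^ (ε / 4) ≤ ((q : ℝ) ^ (2 : ℝ)) ^ (ε / 4) :=
            Real.rpow_le_rpow hn0.le hn2 (by positivity)
        _ = (q : ℝ) ^ (ε / 2) := by
            rw [← Real.rpow_mul hqp.le]
            congr 1
            ring
    calc ‖χ (n : ZMod q)‖ * (n : ℝ) ^ (-s.re) ≤ 1 * (n : ℝ) ^ (-s.re) := by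
          gcongr
          exact DirichletCharacter.norm_le_one χ _
      _ ≤ (n : ℝ) ^ (ε / 4) * ((n : ℝ))⁻¹ := by rw [one_mul, ← h5]; exact h4
      _ ≤ (q : ℝ) ^ (ε / 2) * ((n : ℝ))⁻¹ := by
          gcongr
  rw [← Finset.mul_sum] at h1
  have h7 : ∑ n ∈ Finset.Icc 1 (q ^ 2), ((n : ℝ))⁻¹ ≤ 1 + 2 * Real.log q := by
    have h8 := harmonic_le_one_add_log (q ^ 2)
    rw [harmonic_eq_sum_Icc] at h8
    push_cast at h8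
    rw [Real.log_pow] at h8
    push_cast at h8
    exact h8
  have h9 : Real.log q ≤ (q : ℝ) ^ (ε / 2) / (ε / 2) := Real.log_le_rpow_div hqp.le (by positivity)
  have h10 : (1 : ℝ) ≤ (q : ℝ) ^ (ε / 2) := Real.one_le_rpow hq1 (by positivity)
  have h11 : 1 + 2 * Real.log q ≤ (1 + 4 / ε) * (q : ℝ) ^ (ε / 2) := by
    have h12 : (q : ℝ) ^ (ε / 2) / (ε / 2) = 2 / ε * (q : ℝ) ^ (ε / 2) := by
      field_simp
    rw [h12] at h9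
    have h13 : (1 + 4 / ε) * (q : ℝ) ^ (ε / 2) =
        (q : ℝ) ^ (ε / 2) + 2 * (2 / ε * (q : ℝ) ^ (ε / 2)) := by ring
    rw [h13]
    linarith
  calc ‖Pool.Agent.LibMaier.LT χ (q ^ 2) s‖
      ≤ (q : ℝ) ^ (ε / 2) * ∑ n ∈ Finset.Icc 1 (q ^ 2), ((n : ℝ))⁻¹ := h1
    _ ≤ (q : ℝ) ^ (ε / 2) * ((1 + 4 / ε) * (q : ℝ) ^ (ε / 2)) := by
        gcongr
        exact h7.trans h11
    _ = (1 + 4 / ε) * (q : ℝ) ^ ε := by
        have h14 : (q : ℝ) ^ ε = (q : ℝ) ^ (ε / 2) * (q : ℝ) ^ (ε / 2) := by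
          rw [← Real.rpow_add hqp]
          congr 1
          ring
        rw [h14]
        ring

private theorem s10_L_le (ε : ℝ) (hε : 0 < ε) (hε1 : ε ≤ 1) {q : ℕ} [NeZero q]
    {χ : DirichletCharacter ℂ q} (hχ : χ ≠ 1) {s : ℂ} (hs : 1 - ε / 4 ≤ s.re) (hs2 : ‖s‖ ≤ 2) :
    ‖LFunction χ s‖ ≤ (6 + 4 / ε) * (q : ℝ) ^ ε := by
  have hq0 : 0 < q := Nat.pos_of_ne_zero (NeZero.ne q)
  have hq1 : (1 : ℝ) ≤ q := by exact_mod_cast hq0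
  have hqp : (0 : ℝ) < q := by linarith
  have hre : 3 / 4 ≤ s.re := by linarith
  have hre0 : 0 < s.re := by linarith
  have h1 := Pool.Agent.LibMaier.LT_approx hχ hre0 (N := q ^ 2) (Nat.one_le_pow _ _ hq0)
  have h2 : ‖s‖ / s.re ≤ 3 := by
    rw [div_le_iff₀ hre0]
    linarith
  have h3 : ((q ^ 2 : ℕ) : ℝ) ^ (-s.re) ≤ (q : ℝ) ^ (-1 : ℝ) := by
    push_cast
    rw [← Real.rpow_natCast, ← Real.rpow_mul hqp.le]
    apply Real.rpow_le_rpow_of_exponent_le hq1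
    push_cast
    linarith
  have h4 : (q : ℝ) * (2 + ‖s‖ / s.re) * ((q ^ 2 : ℕ) : ℝ) ^ (-s.re) ≤ 5 := by
    calc (q : ℝ) * (2 + ‖s‖ / s.re) * ((q ^ 2 : ℕ) : ℝ) ^ (-s.re)
        ≤ (q : ℝ) * (2 + 3) * (q : ℝ) ^ (-1 : ℝ) := by gcongr
      _ = 5 := by
          rw [Real.rpow_neg_one]
          field_simp
          norm_num
  have h5 := s10_LT_le ε hε χ hs
  have h6 : (1 : ℝ) ≤ (q : ℝ) ^ ε := Real.one_le_rpow hq1 hε.le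
  calc ‖LFunction χ s‖ = ‖(LFunction χ s - Pool.Agent.LibMaier.LT χ (q ^ 2) s) +
        Pool.Agent.LibMaier.LT χ (q ^ 2) s‖ := by
        congr 1
        ring
    _ ≤ ‖LFunction χ s - Pool.Agent.LibMaier.LT χ (q ^ 2) s‖ +
        ‖Pool.Agent.LibMaier.LT χ (q ^ 2) s‖ := norm_add_le _ _
    _ ≤ 5 + (1 + 4 / ε) * (q : ℝ) ^ ε := add_le_add (h1.trans h4) h5
    _ ≤ (6 + 4 / ε) * (q : ℝ) ^ ε := by
        have h7 : (6 + 4 / ε) * (q : ℝ) ^ ε = 5 * (q : ℝ) ^ ε + (1 + 4 / ε) * (q : ℝ) ^ ε := by ring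
        rw [h7]
        linarith

theorem deriv_L_le (ε : ℝ) (hε : 0 < ε) (hε1 : ε ≤ 1) : ∃ C : ℝ, 0 < C ∧ ∀ (q : ℕ) [NeZero q]
    (χ : DirichletCharacter ℂ q), χ ≠ 1 → ∀ σ : ℝ, 1 - ε / 8 ≤ σ → σ ≤ 1 →
      ‖deriv (LFunction χ) (σ : ℂ)‖ ≤ C * (q : ℝ) ^ ε := by
  refine ⟨(6 + 4 / ε) / (ε / 8), by positivity, ?_⟩
  intro q _ χ hχ σ hσ hσ1
  have hR : 0 < ε / 8 := by positivity
  have h1 : ∀ z ∈ Metric.sphere (σ : ℂ) (ε / 8), ‖LFunction χ z‖ ≤ (6 + 4 / ε) * (q : ℝ) ^ ε := by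
    intro z hz
    rw [mem_sphere_iff_norm] at hz
    have h2 : |(z - σ).re| ≤ ‖z - σ‖ := Complex.abs_re_le_norm _
    rw [hz, Complex.sub_re, Complex.ofReal_re, abs_le] at h2
    refine s10_L_le ε hε hε1 hχ (by linarith [h2.1]) ?_
    calc ‖z‖ = ‖(z - σ) + σ‖ := by congr 1; ring
      _ ≤ ‖z - σ‖ + ‖(σ : ℂ)‖ := norm_add_le _ _
      _ ≤ 2 := by
          rw [hz, Complex.norm_real, Real.norm_eq_abs, abs_of_nonneg (by linarith)]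
          linarith
  have h2 := Complex.norm_deriv_le_of_forall_mem_sphere_norm_le hR
    (DirichletCharacter.differentiable_LFunction hχ).diffContOnCl h1
  calc ‖deriv (LFunction χ) (σ : ℂ)‖ ≤ (6 + 4 / ε) * (q : ℝ) ^ ε / (ε / 8) := h2
    _ = (6 + 4 / ε) / (ε / 8) * (q : ℝ) ^ ε := by ring

end Pool.Agent.LibSW40
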