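import Pool.Agent.LibSW40.S9
import Pool.Agent.LibSW40.S10

/-!
Row S11 (MEDIUM). **Siegel's theorem** for real zeros, all real characters.

PLAN. First `χ` primitive: if `β < 1 - ε'/8` (`ε' = min ε 1 / 2`) nothing to do (`c ≤ ε'/8`, `q ≥ 1`); `β ≥ 1` is impossible
(`LFunction_ne_zero_of_one_le_re`); else `‖L(1,χ) - L(β,χ)‖ ≤ (1-β) C q^ε'` (mean value inequality on the segment, `deriv_L_le`),
with `siegel_one ε'`: `c q^(-ε') ≤ (1-β) C q^ε'`, `2 ε' ≤ ε`. Then any `χ ≠ 1`, `χ² = 1`: if `β ≤ 1/2` nothing to do;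
`χ` is induced by the primitive `χ*` modulo `f ∣ q`, `f ≤ q`; `χ* ≠ 1`, `χ*² = 1`,
`L(β, χ) = L(β, χ*) ∏_{p ∣ q} (1 - χ*(p) p^(-β))` (`DirichletCharacter.LFunction_changeLevel`; see `LibHG31/CB2.lean` or
`LibPL63/B2.lean` for this step), the factors are `≠ 0` since `‖p^(-β)‖ < 1`.
-/

set_option autoImplicit false

namespace Pool.Agent.LibSW40

open Complex DirichletCharacter

private theorem s11_prim (ε : ℝ) (hε : 0 < ε) : ∃ c : ℝ, 0 < c ∧ c ≤ 1 / 2 ∧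
    ∀ (q : ℕ) [NeZero q] (χ : DirichletCharacter ℂ q), χ.IsPrimitive → χ ≠ 1 → χ ^ 2 = 1 →
      ∀ β : ℝ, LFunction χ (β : ℂ) = 0 → β ≤ 1 - c * (q : ℝ) ^ (-ε) := by
  set e : ℝ := min ε 1 / 2 with he
  have he0 : 0 < e := by
    have : 0 < min ε 1 := lt_min hε one_pos
    positivity
  have he1 : e ≤ 1 := by
    have := min_le_right ε 1
    linarith
  have he2 : 2 * e ≤ ε := by
    have := min_le_left ε 1
    linarith
  obtain ⟨c₁, hc₁, h₁⟩ := siegel_one e he0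
  obtain ⟨C₁, hC₁, h₂⟩ := deriv_L_le e he0 he1
  set c : ℝ := min (min (e / 8) (c₁ / C₁)) (1 / 2) with hc
  have hc0 : 0 < c := by
    refine lt_min (lt_min (by positivity) (by positivity)) (by norm_num)
  have hcA : c ≤ e / 8 := (min_le_left _ _).trans (min_le_left _ _)
  have hcB : c ≤ c₁ / C₁ := (min_le_left _ _).trans (min_le_right _ _)
  refine ⟨c, hc0, min_le_right _ _, ?_⟩
  intro q _ χ hp hχ hχ2 β hβ
  have hq1 : (1 : ℝ) ≤ q := by exact_mod_cast Nat.one_le_iff_ne_zero.2 (NeZero.ne q)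
  have hq0 : (0 : ℝ) < q := by linarith
  have hqε : (q : ℝ) ^ (-ε) ≤ 1 := Real.rpow_le_one_of_one_le_of_nonpos hq1 (by linarith)
  have hqε0 : 0 < (q : ℝ) ^ (-ε) := Real.rpow_pos_of_pos hq0 _
  have hβ1 : β < 1 := by
    by_contra h
    push Not at h
    exact LFunction_ne_zero_of_one_le_re χ (Or.inl hχ) (by simpa using h) hβ
  rcases lt_or_ge β (1 - e / 8) with h | h
  · have h3 : c * (q : ℝ) ^ (-ε) ≤ e / 8 * 1 :=
      mul_le_mul hcA hqε hqε0.le (by positivity)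
    linarith
  · -- mean value
    have hseg : ∀ z ∈ segment ℝ (β : ℂ) (1 : ℂ), ∃ σ : ℝ, 1 - e / 8 ≤ σ ∧ σ ≤ 1 ∧ z = (σ : ℂ) := by
      intro z hz
      rw [segment_eq_image] at hz
      obtain ⟨t, ⟨ht0, ht1⟩, rfl⟩ := hz
      refine ⟨(1 - t) * β + t, ?_, ?_, ?_⟩
      · nlinarith
      · nlinarith
      · simp
    have hmv : ‖LFunction χ 1 - LFunction χ (β : ℂ)‖ ≤ C₁ * (q : ℝ) ^ e * ‖(1 : ℂ) - (β : ℂ)‖ := by
      refine Convex.norm_image_sub_le_of_norm_deriv_le (s := segment ℝ (β : ℂ) (1 : ℂ))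
        (fun z _ => (differentiable_LFunction hχ) z) (fun z hz => ?_) (convex_segment _ _)
        (left_mem_segment ℝ _ _) (right_mem_segment ℝ _ _)
      obtain ⟨σ, hσ0, hσ1, rfl⟩ := hseg z hz
      exact h₂ q χ hχ σ hσ0 hσ1
    have hn : ‖(1 : ℂ) - (β : ℂ)‖ = 1 - β := by
      rw [← Complex.ofReal_one, ← Complex.ofReal_sub, Complex.norm_real,
        Real.norm_of_nonneg (by linarith)]
    rw [hβ, sub_zero, hn] at hmv
    have h3 := h₁ q χ hp hχ hχ2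
    have h4 : (LFunction χ 1).re ≤ ‖LFunction χ 1‖ := Complex.re_le_norm _
    have h5 : c₁ * (q : ℝ) ^ (-e) ≤ C₁ * (q : ℝ) ^ e * (1 - β) := h3.trans (h4.trans hmv)
    have hqe0 : 0 < (q : ℝ) ^ e := Real.rpow_pos_of_pos hq0 _
    have h6 : (q : ℝ) ^ (-ε) * (q : ℝ) ^ e ≤ (q : ℝ) ^ (-e) := by
      rw [← Real.rpow_add hq0]
      exact Real.rpow_le_rpow_of_exponent_le hq1 (by linarith)
    have h7 : c * C₁ ≤ c₁ := by
      rwa [le_div_iff₀ hC₁] at hcB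
    have h8 : c * (q : ℝ) ^ (-ε) * (C₁ * (q : ℝ) ^ e) ≤ (1 - β) * (C₁ * (q : ℝ) ^ e) := by
      calc c * (q : ℝ) ^ (-ε) * (C₁ * (q : ℝ) ^ e) = c * C₁ * ((q : ℝ) ^ (-ε) * (q : ℝ) ^ e) := by ring
        _ ≤ c₁ * (q : ℝ) ^ (-e) :=
            mul_le_mul h7 h6 (by positivity) hc₁.le
        _ ≤ C₁ * (q : ℝ) ^ e * (1 - β) := h5
        _ = (1 - β) * (C₁ * (q : ℝ) ^ e) := by ring
    have h9 := le_of_mul_le_mul_right h8 (by positivity)
    linarith

theorem siegel_zero (ε : ℝ) (hε : 0 < ε) : ∃ c : ℝ, 0 < c ∧ ∀ (q : ℕ) [NeZero q] (χ : DirichletCharacter ℂ q),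
    χ ≠ 1 → χ ^ 2 = 1 → ∀ β : ℝ, LFunction χ (β : ℂ) = 0 → β ≤ 1 - c * (q : ℝ) ^ (-ε) := by
  obtain ⟨c, hc, hc2, hprim⟩ := s11_prim ε hε
  refine ⟨c, hc, ?_⟩
  intro q _ χ hχ hχ2 β hβ
  have hq1 : (1 : ℝ) ≤ q := by exact_mod_cast Nat.one_le_iff_ne_zero.2 (NeZero.ne q)
  have hq0 : (0 : ℝ) < q := by linarith
  have hqε : (q : ℝ) ^ (-ε) ≤ 1 := Real.rpow_le_one_of_one_le_of_nonpos hq1 (by linarith)
  have hqε0 : 0 < (q : ℝ) ^ (-ε) := Real.rpow_pos_of_pos hq0 _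
  rcases le_or_gt β (1 / 2) with hβ2 | hβ2
  · have h3 : c * (q : ℝ) ^ (-ε) ≤ 1 / 2 * 1 := mul_le_mul hc2 hqε hqε0.le (by norm_num)
    linarith
  have hne : NeZero χ.conductor := ⟨χ.conductor_ne_zero⟩
  have hdvd : χ.conductor ∣ q := χ.conductor_dvd_level
  have hcl : changeLevel hdvd χ.primitiveCharacter = χ := χ.changeLevel_primitiveCharacter
  set ψ : DirichletCharacter ℂ χ.conductor := χ.primitiveCharacter with hψ
  have hψp : ψ.IsPrimitive := χ.primitiveCharacter_isPrimitive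
  have hψ1 : ψ ≠ 1 := by
    intro h
    rw [h, map_one] at hcl
    exact hχ hcl.symm
  have hψ2 : ψ ^ 2 = 1 := by
    apply changeLevel_injective hdvd
    rw [map_pow, hcl, hχ2, map_one]
  have hz : LFunction ψ (β : ℂ) * ∏ p ∈ q.primeFactors, (1 - ψ p * (p : ℂ) ^ (-(β : ℂ))) = 0 := by
    rw [← LFunction_changeLevel hdvd ψ (Or.inl hψ1), hcl, hβ]
  have hzero : LFunction ψ (β : ℂ) = 0 := by
    rcases mul_eq_zero.mp hz with h | h
    · exact h
    · exfalso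
      obtain ⟨p, hp, hp0⟩ := Finset.prod_eq_zero_iff.mp h
      have hpp : p.Prime := Nat.prime_of_mem_primeFactors hp
      have h1 : ψ (p : ZMod χ.conductor) * (p : ℂ) ^ (-(β : ℂ)) = 1 := by
        linear_combination -hp0
      have h2 : ‖ψ (p : ZMod χ.conductor) * (p : ℂ) ^ (-(β : ℂ))‖ < 1 := by
        rw [norm_mul, Complex.norm_natCast_cpow_of_pos hpp.pos]
        have h3 : (p : ℝ) ^ ((-(β : ℂ)).re) < 1 := by
          refine Real.rpow_lt_one_of_one_lt_of_neg (by exact_mod_cast hpp.one_lt) ?_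
          simp only [Complex.neg_re, Complex.ofReal_re]
          linarith
        have h4 := DirichletCharacter.norm_le_one ψ (p : ZMod χ.conductor)
        have h5 : 0 ≤ (p : ℝ) ^ ((-(β : ℂ)).re) := by positivity
        nlinarith [norm_nonneg (ψ (p : ZMod χ.conductor))]
      rw [h1, norm_one] at h2
      exact lt_irrefl _ h2
  have hmain := hprim χ.conductor ψ hψp hψ1 hψ2 β hzero
  have hf0 : (0 : ℝ) < χ.conductor := by exact_mod_cast Nat.pos_of_ne_zero χ.conductor_ne_zero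
  have hfq : (χ.conductor : ℝ) ≤ q := by
    exact_mod_cast Nat.le_of_dvd (Nat.pos_of_ne_zero (NeZero.ne q)) hdvd
  have h10 : (q : ℝ) ^ (-ε) ≤ (χ.conductor : ℝ) ^ (-ε) :=
    Real.rpow_le_rpow_of_nonpos hf0 hfq (by linarith)
  have h11 := mul_le_mul_of_nonneg_left h10 hc.le
  linarith

end Pool.Agent.LibSW40
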