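import Pool.Agent.LibSW40.Defs

/-!
Row S2a (SHORT). `ζ L(χ) = ∑ a_n n^(-s)` with `a_n ≥ 0`. Everything is in Mathlib:
`Mathlib/NumberTheory/LSeries/Nonvanishing.lean`: `DirichletCharacter.zetaMul`, `zetaMul_nonneg`, and the
`LSeries` of a convolution (`LSeries_convolution`, `LSeries_zeta_eq_riemannZeta`, `LFunction_eq_LSeries`).
-/

set_option autoImplicit false

namespace Pool.Agent.LibSW40

open Complex DirichletCharacter
open scoped ComplexOrder

open ArithmeticFunction hiding log in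
theorem coef2 {q : ℕ} [NeZero q] (χ : DirichletCharacter ℂ q) (h : χ ^ 2 = 1) :
    ∃ a : ℕ → ℂ, (∀ n, 0 ≤ a n) ∧ a 1 = 1 ∧ ∀ s : ℂ, 1 < s.re →
      LSeriesSummable a s ∧ LSeries a s = riemannZeta s * LFunction χ s := by
  refine ⟨fun n => χ.zetaMul n, fun n => zetaMul_nonneg h n,
    χ.isMultiplicative_zetaMul.map_one, fun s hs => ⟨χ.LSeriesSummable_zetaMul hs, Eq.symm ?_⟩⟩
  rw [zetaMul, ← ArithmeticFunction.coe_mul, LSeries_convolution', χ.LFunction_eq_LSeries hs]
  · congr 1
    · simp_rw [← LSeries_zeta_eq_riemannZeta hs, ← ArithmeticFunction.natCoe_apply]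
    · exact LSeries_congr χ.apply_eq_toArithmeticFunction_apply s
  · exact LSeriesSummable_zeta_iff.mpr hs
  · exact (LSeriesSummable_congr _ fun h ↦ (χ.apply_eq_toArithmeticFunction_apply h).symm).mpr <|
      ZMod.LSeriesSummable_of_one_lt_re χ hs

end Pool.Agent.LibSW40
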