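import Pool.Agent.LibSW40.S1
import Pool.Agent.LibSW40.S2a
import Pool.Agent.LibSW40.S3
import Pool.Agent.LibSW40.S4
import Pool.Agent.LibSW40.S5
import Pool.Agent.LibSW40.S6

/-!
Row S7 (MEDIUM). No zero in `[β, 1)`: lower bound for `L(1, χ)`.

PLAN. `siegel_ineq` for `G = dslope (P2 χ) 1`, `lam = (P2 χ 1).re = (L(1,χ)).re > 0` (`riemannZeta₁_one`, `L_pos`, `L_im`),
`B = 4 K (10 q)` (`zeta1_disc`, `L_disc`, `bound_dslope`), `hco`, `h0` from `coef_hyp` and `coef2`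
(`riemannZeta_eq_inv_sub_mul`). `hF`: `G β = (P2 χ β - P2 χ 1)/(β - 1)`, real part `= (lam - (P2 χ β).re)/(1-β)`, and
`(P2 χ β).re = (ζ₁ β).re (L β).re ≥ 0`. Finally `(320 K q)^(-(4(1-β))) ≥ (320 K)^(-1/2) q^(-(4(1-β)))`.
-/

set_option autoImplicit false

namespace Pool.Agent.LibSW40

open Complex DirichletCharacter

theorem ineq2 : ∃ c : ℝ, 0 < c ∧ ∀ (q : ℕ) [NeZero q] (χ : DirichletCharacter ℂ q), χ ≠ 1 → χ ^ 2 = 1 →
    ∀ β : ℝ, 7 / 8 ≤ β → β < 1 → (∀ γ : ℝ, β ≤ γ → γ < 1 → LFunction χ (γ : ℂ) ≠ 0) →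
      c * (1 - β) * (q : ℝ) ^ (-(4 * (1 - β))) ≤ (LFunction χ 1).re := by
  obtain ⟨K, hK1, hK⟩ := zeta1_disc
  have hK0 : 0 < K := by linarith
  refine ⟨(320 * K) ^ (-(1 / 2) : ℝ) / 6, by positivity, ?_⟩
  intro q _ χ hχ hχ2 β hβ hβ1 hz
  have hq0 : (0 : ℝ) < q := by exact_mod_cast Nat.pos_of_ne_zero (NeZero.ne q)
  have hq1 : (1 : ℝ) ≤ q := by exact_mod_cast Nat.one_le_iff_ne_zero.2 (NeZero.ne q)
  have hP : Differentiable ℂ (P2 χ) :=
    differentiable_riemannZeta₁.mul (differentiable_LFunction hχ)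
  obtain ⟨a, ha, ha1, haL⟩ := coef2 χ hχ2
  have hL : ∀ s : ℂ, 1 < s.re → LSeriesSummable a s ∧ LSeries a s = P2 χ s / (s - 1) := by
    intro s hs
    refine ⟨(haL s hs).1, ?_⟩
    have hs1 : s ≠ 1 := by
      rintro rfl
      rw [Complex.one_re] at hs
      exact lt_irrefl _ hs
    rw [(haL s hs).2, P2, riemannZeta_eq_inv_sub_mul hs1]
    ring
  obtain ⟨hco, h0⟩ := coef_hyp hP ha ha1 hL
  have hP1 : P2 χ 1 = LFunction χ 1 := by
    rw [P2, riemannZeta₁_one, one_mul]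
  rw [hP1] at hco h0
  have hdisc : ∀ s ∈ Metric.closedBall (2 : ℂ) (3 / 2), ‖P2 χ s‖ ≤ K * (10 * q) := by
    intro s hs
    rw [P2, norm_mul]
    exact mul_le_mul (hK s hs) (L_disc hχ s hs) (norm_nonneg _) hK0.le
  have hB := bound_dslope hP hdisc
  have hpos := L_pos hχ hχ2 (β := β) (by linarith) hβ1.le hz
  have hz1 := zeta1_real hβ hβ1.le
  have hPβ : 0 ≤ (P2 χ (β : ℂ)).re := by
    rw [P2, Complex.mul_re, hz1.1, zero_mul, sub_zero]
    exact mul_nonneg hz1.2.le hpos.1.le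
  have hβ0 : 0 < 1 - β := by linarith
  have hF : (dslope (P2 χ) 1 (β : ℂ)).re ≤ (LFunction χ 1).re / (1 - β) := by
    have hne : (β : ℂ) ≠ 1 := by
      intro h
      have : β = 1 := by exact_mod_cast h
      linarith
    rw [dslope_of_ne _ hne, slope_def_field, hP1]
    have e1 : (P2 χ (β : ℂ) - LFunction χ 1) / ((β : ℂ) - 1) =
        (LFunction χ 1 - P2 χ (β : ℂ)) / ((1 - β : ℝ) : ℂ) := by
      push_cast
      rw [← neg_sub (LFunction χ 1), ← neg_sub (1 : ℂ), neg_div_neg_eq]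
    rw [e1, Complex.div_ofReal_re, Complex.sub_re]
    gcongr
    linarith
  have hmain := siegel_ineq (G := dslope (P2 χ) 1) (differentiable_dslope_one hP)
    (B := 4 * (K * (10 * q))) (lam := (LFunction χ 1).re) (β := β)
    (by nlinarith [mul_le_mul hK1 hq1 zero_le_one hK0.le]) hB hpos.2.le hco h0 hβ hβ1 hF
  refine le_trans (le_of_eq_of_le ?_ (mul_le_mul_of_nonneg_left
    (?_ : (320 * K) ^ (-(1 / 2) : ℝ) * (q : ℝ) ^ (-(4 * (1 - β))) ≤
      (8 * (4 * (K * (10 * q)))) ^ (-(4 * (1 - β)))) (by positivity : 0 ≤ (1 - β) / 6))) hmain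
  · ring
  · have e2 : 8 * (4 * (K * (10 * (q : ℝ)))) = (320 * K) * q := by ring
    rw [e2, Real.mul_rpow (by positivity) hq0.le]
    refine mul_le_mul_of_nonneg_right ?_ (by positivity)
    refine Real.rpow_le_rpow_of_exponent_le (by linarith) ?_
    linarith

end Pool.Agent.LibSW40
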